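import Pool.Agent.P8.Form

/-!
Assembly lemmas: reindexing of forms, boundings with form `E₈`, the final statement from its parts.
-/

namespace E8Genera

theorem HasForm.reindex {ι κ : Type} [Fintype ι] [Fintype κ] {X Y : Cpx} {c : Chain}
    {G : Matrix ι ι ℤ} (h : HasForm X Y c G) (e : κ ≃ ι) : HasForm X Y c (G.submatrix e e) := by
  obtain ⟨α, h1, h2, h3⟩ := h
  refine ⟨fun k => α (e k), fun k => h1 _, ?_, fun k l => h3 _ _⟩
  intro a ha
  obtain ⟨m, hm, hu⟩ := h2 a ha
  have key : ∀ (m : κ → ℤ) (s : Finset ℕ),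
      ∑ k, m k * α (e k) s = ∑ i, m (e.symm i) * α i s := by
    intro m s
    rw [← Equiv.sum_comp e fun i => m (e.symm i) * α i s]
    simp
  refine ⟨fun k => m (e k), ?_, ?_⟩
  · simp only [key, Equiv.apply_symm_apply]
    exact hm
  · intro m' hm'
    simp only [key] at hm'
    have := hu _ hm'
    funext k
    rw [← this]
    simp

theorem kE8_one : kE8 1 = CartanMatrix.E₈.submatrix (Equiv.prodUnique (Fin 8) (Fin 1))
    (Equiv.prodUnique (Fin 8) (Fin 1)) := by
  ext ⟨i, a⟩ ⟨j, b⟩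
  have hab : a = b := Subsingleton.elim _ _
  subst hab
  simp [kE8, Matrix.blockDiagonal_apply]

/-- A spin bounding of rank 8 whose form is isometric to `E₈` or `-E₈`. -/
theorem e8Bounds_one {X Y : Cpx} {c z : Chain} (hX : IsBounding X c Y z) (hs : IsSpin X Y c)
    {G : Matrix (Fin 8) (Fin 8) ℤ} (hG : HasForm X Y c G) (P Q : Matrix (Fin 8) (Fin 8) ℤ)
    (hPQ : P * Q = 1) (hQP : Q * P = 1)
    (hE : P * G * P.transpose = CartanMatrix.E₈ ∨ P * G * P.transpose = -CartanMatrix.E₈) :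
    E8Bounds Y z 1 := by
  have h := hG.change P Q hPQ hQP
  rcases hE with hE | hE
  · refine ⟨X, c, hX, hs, Or.inl ?_⟩
    rw [hE] at h
    rw [kE8_one]
    exact h.reindex _
  · refine ⟨X, c, hX, hs, Or.inr ?_⟩
    rw [hE] at h
    have h' := h.reindex (Equiv.prodUnique (Fin 8) (Fin 1))
    rw [kE8_one]
    exact h'

end E8Genera
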