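import Pool.Agent.P8.Defs

/-!
General lemmas on simplicial chains and cochains: elimination of one face, the square of the
coboundary, the evaluation pairing, connectedness from a tree, and the universal cocycle.
-/

namespace E8Genera

section Cochains16

variable {A : Type*} [AddCommGroup A]

theorem sgn_cases16 (s : Finset ℕ) (v : ℕ) : sgn s v = 1 ∨ sgn s v = -1 := by
  unfold sgn; exact neg_one_pow_eq_or ℤ _

theorem sgn_mul_self16 (s : Finset ℕ) (v : ℕ) : sgn s v * sgn s v = 1 := by
  rcases sgn_cases16 s v with h | h <;> simp [h]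

theorem eq_zero_of_sgn_smul16 (s : Finset ℕ) (v : ℕ) (x : A) (h : sgn s v • x = 0) : x = 0 := by
  rcases sgn_cases16 s v with h1 | h1 <;> simpa [h1] using h

/-- If the coboundary vanishes on `t` and the cochain on all faces of `t` except `t.erase v`, then
it also vanishes there. -/
theorem kill16 {b : Finset ℕ → A} {t : Finset ℕ} {v : ℕ} (hv : v ∈ t) (h : cobd b t = 0)
    (h0 : ∀ w ∈ t, w ≠ v → b (t.erase w) = 0) : b (t.erase v) = 0 := by
  unfold cobd at h
  rw [Finset.sum_eq_single v] at h
  · exact eq_zero_of_sgn_smul16 _ _ _ h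
  · intro w hw hne
    rw [h0 w hw hne, smul_zero]
  · intro h'
    exact absurd hv h'

theorem cobd_sub16 (a b : Finset ℕ → A) (s : Finset ℕ) :
    cobd (fun t => a t - b t) s = cobd a s - cobd b s := by
  simp [cobd, smul_sub, Finset.sum_sub_distrib]

theorem cobd_add16 (a b : Finset ℕ → A) (s : Finset ℕ) :
    cobd (fun t => a t + b t) s = cobd a s + cobd b s := by
  simp [cobd, smul_add, Finset.sum_add_distrib]

theorem cobd_smul16 {n : ℕ} (al : Fin n → Finset ℕ → ℤ) (m : Fin n → A) (s : Finset ℕ) :
    cobd (fun t => ∑ i, al i t • m i) s = ∑ i, cobd (al i) s • m i := by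
  simp only [cobd, Finset.smul_sum, Finset.sum_smul, smul_smul, smul_eq_mul]
  rw [Finset.sum_comm]

theorem sgn_erase_lt16 {s : Finset ℕ} {v w : ℕ} (hv : v ∈ s) (h : v < w) :
    sgn (s.erase v) w = - sgn s w := by
  unfold sgn
  have : (s.filter fun x => x < w) = insert v ((s.erase v).filter fun x => x < w) := by
    ext x
    simp only [Finset.mem_filter, Finset.mem_insert, Finset.mem_erase]
    constructor
    · rintro ⟨h1, h2⟩
      by_cases hx : x = v
      · exact Or.inl hx
      · exact Or.inr ⟨⟨hx, h1⟩, h2⟩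
    · rintro (rfl | ⟨⟨_, h1⟩, h2⟩)
      · exact ⟨hv, h⟩
      · exact ⟨h1, h2⟩
  rw [this, Finset.card_insert_of_notMem (by simp), pow_succ]
  ring

theorem sgn_erase_gt16 {s : Finset ℕ} {v w : ℕ} (h : w < v) :
    sgn (s.erase v) w = sgn s w := by
  unfold sgn
  congr 2
  ext x
  simp only [Finset.mem_filter, Finset.mem_erase]
  constructor
  · rintro ⟨⟨_, h1⟩, h2⟩
    exact ⟨h1, h2⟩
  · rintro ⟨h1, h2⟩
    exact ⟨⟨by omega, h1⟩, h2⟩

theorem sgn_anti16 {s : Finset ℕ} {v w : ℕ} (hv : v ∈ s) (hw : w ∈ s) (h : v ≠ w) :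
    sgn s v * sgn (s.erase v) w + sgn s w * sgn (s.erase w) v = 0 := by
  rcases lt_or_gt_of_ne h with h1 | h1
  · rw [sgn_erase_lt16 hv h1, sgn_erase_gt16 h1]
    ring
  · rw [sgn_erase_lt16 hw h1, sgn_erase_gt16 h1]
    ring

/-- The square of the coboundary is zero. -/
theorem cobd_cobd16 (g : Finset ℕ → A) (s : Finset ℕ) : cobd (cobd g) s = 0 := by
  unfold cobd
  simp only [Finset.smul_sum, smul_smul]
  rw [Finset.sum_sigma']
  refine Finset.sum_involution (fun p _ => ⟨p.2, p.1⟩) ?_ ?_ ?_ ?_
  · rintro ⟨v, w⟩ hp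
    simp only [Finset.mem_sigma, Finset.mem_erase] at hp
    simp only
    rw [Finset.erase_right_comm (a := w) (b := v), ← add_smul,
      sgn_anti16 hp.1 hp.2.2 (fun h => hp.2.1 h.symm), zero_smul]
  · rintro ⟨v, w⟩ hp _
    simp only [Finset.mem_sigma, Finset.mem_erase] at hp
    intro h
    simp only [Sigma.mk.injEq] at h
    exact hp.2.1 h.1
  · rintro ⟨v, w⟩ hp
    simp only [Finset.mem_sigma, Finset.mem_erase] at hp ⊢
    exact ⟨hp.2.2, fun h => hp.2.1 h.symm, hp.1⟩
  · rintro ⟨v, w⟩ _
    rfl

end Cochains16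

section Chains16

theorem isChain_zero16 (K : Cpx) (k : ℕ) : IsChain K k 0 := by
  intro s hs; simp at hs

theorem isChain_add16 {K : Cpx} {k : ℕ} {c d : Chain} (hc : IsChain K k c) (hd : IsChain K k d) :
    IsChain K k (c + d) := by
  intro s hs
  rcases Finset.mem_union.1 (Finsupp.support_add hs) with h | h
  · exact hc s h
  · exact hd s h

theorem isChain_neg16 {K : Cpx} {k : ℕ} {c : Chain} (hc : IsChain K k c) : IsChain K k (-c) := by
  intro s hs
  rw [Finsupp.support_neg] at hs
  exact hc s hs

theorem isChain_smul16 {K : Cpx} {k : ℕ} {c : Chain} (m : ℤ) (hc : IsChain K k c) :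
    IsChain K k (m • c) := by
  intro s hs
  exact hc s (Finsupp.support_smul hs)

theorem isChain_single16 {K : Cpx} {k : ℕ} {s : Finset ℕ} (m : ℤ) (h : FaceDim K k s) :
    IsChain K k (Finsupp.single s m) := by
  intro t ht
  have := Finsupp.support_single_subset ht
  rw [Finset.mem_singleton] at this
  rwa [this]

/-- Evaluation of a cochain on a chain. -/
noncomputable def ev16 {A : Type*} [AddCommGroup A] (g : Finset ℕ → A) : Chain →+ A :=
  Finsupp.liftAddHom fun s => (zmultiplesHom A) (g s)

theorem ev_single16 {A : Type*} [AddCommGroup A] (g : Finset ℕ → A) (s : Finset ℕ) (m : ℤ) :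
    ev16 g (Finsupp.single s m) = m • g s := by
  simp [ev16]

theorem ev_apply16 {A : Type*} [AddCommGroup A] (g : Finset ℕ → A) (c : Chain) :
    ev16 g c = c.sum fun s m => m • g s := by
  unfold ev16
  rw [Finsupp.liftAddHom_apply]
  rfl

theorem ev_bd16 {A : Type*} [AddCommGroup A] (g : Finset ℕ → A) (c : Chain) :
    ev16 g (bd c) = ev16 (cobd g) c := by
  rw [ev_apply16 (cobd g) c, bd, map_finsuppSum]
  refine Finsupp.sum_congr fun s _ => ?_
  rw [map_sum]
  simp only [ev_single16, cobd, Finset.smul_sum, smul_smul]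

theorem bd_zero16 : bd 0 = 0 := by simp [bd]

theorem bd_add16 (c d : Chain) : bd (c + d) = bd c + bd d := by
  unfold bd
  rw [Finsupp.sum_add_index']
  · intro s; simp
  · intro s m n
    rw [← Finset.sum_add_distrib]
    refine Finset.sum_congr rfl fun v _ => ?_
    rw [add_mul, Finsupp.single_add]

/-- The boundary operator as an additive map. -/
noncomputable def bdHom16 : Chain →+ Chain := ⟨⟨bd, bd_zero16⟩, bd_add16⟩

theorem bdHom_apply16 (c : Chain) : bdHom16 c = bd c := rfl

theorem bd_neg16 (c : Chain) : bd (-c) = - bd c := map_neg bdHom16 c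

theorem bd_smul16 (m : ℤ) (c : Chain) : bd (m • c) = m • bd c := map_zsmul bdHom16 m c

theorem bd_single16 (s : Finset ℕ) (m : ℤ) :
    bd (Finsupp.single s m) = ∑ v ∈ s, Finsupp.single (s.erase v) (m * sgn s v) := by
  unfold bd
  rw [Finsupp.sum_single_index]
  simp

/-- The group of boundaries of `k`-chains. -/
noncomputable def bdries16 (K : Cpx) (k : ℕ) : AddSubgroup Chain where
  carrier := {c | ∃ d, IsChain K k d ∧ bd d = c}
  zero_mem' := ⟨0, isChain_zero16 K k, bd_zero16⟩
  add_mem' := by
    rintro a b ⟨c, hc, rfl⟩ ⟨d, hd, rfl⟩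
    exact ⟨c + d, isChain_add16 hc hd, bd_add16 c d⟩
  neg_mem' := by
    rintro a ⟨c, hc, rfl⟩
    exact ⟨-c, isChain_neg16 hc, bd_neg16 c⟩

theorem single_sum16 (c : Chain) : c.sum (fun s m => m • Finsupp.single s (1 : ℤ)) = c := by
  have : (fun (s : Finset ℕ) (m : ℤ) => m • Finsupp.single s (1 : ℤ)) =
      fun s m => Finsupp.single s m := by
    funext s m
    simp
  rw [this, Finsupp.sum_single]

/-- Universal cocycle: if the first cohomology vanishes for all coefficient groups, then so does
the first homology. -/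
theorem hv1_of_coh (K : Cpx) (h : ∀ (A : Type) [AddCommGroup A] (a : Finset ℕ → A),
    (∀ s, FaceDim K 2 s → cobd a s = 0) → ∃ g : Finset ℕ → A, ∀ s, FaceDim K 1 s → a s = cobd g s) :
    HomologyVanishes K 1 := by
  intro c hc hb
  let q := QuotientAddGroup.mk' (bdries16 K 2)
  obtain ⟨g, hg⟩ := h (Chain ⧸ bdries16 K 2) (fun s => q (Finsupp.single s 1)) (by
    intro s hs
    unfold cobd
    simp only [← map_zsmul, ← map_sum]
    rw [QuotientAddGroup.mk'_apply, QuotientAddGroup.eq_zero_iff]
    refine ⟨Finsupp.single s 1, isChain_single16 1 hs, ?_⟩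
    rw [bd_single16]
    refine Finset.sum_congr rfl fun v _ => ?_
    simp)
  have h1 : q c = ev16 (cobd g) c := by
    conv_lhs => rw [← single_sum16 c]
    rw [map_finsuppSum, ev_apply16]
    refine Finsupp.sum_congr fun s hs => ?_
    rw [map_zsmul, ← hg s (hc s hs)]
  rw [← ev_bd16, hb, map_zero, QuotientAddGroup.mk'_apply, QuotientAddGroup.eq_zero_iff] at h1
  exact h1

theorem bd_edge16 {u v : ℕ} (h : u < v) :
    bd (Finsupp.single {u, v} 1) = Finsupp.single {v} 1 - Finsupp.single {u} 1 := by
  have hne : u ≠ v := ne_of_lt h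
  rw [bd_single16, Finset.sum_pair hne]
  have e1 : ({u, v} : Finset ℕ).erase u = {v} := by
    ext x; simp only [Finset.mem_erase, Finset.mem_insert, Finset.mem_singleton]; omega
  have e2 : ({u, v} : Finset ℕ).erase v = {u} := by
    ext x; simp only [Finset.mem_erase, Finset.mem_insert, Finset.mem_singleton]; omega
  have s1 : sgn {u, v} u = 1 := by
    unfold sgn
    have : (({u, v} : Finset ℕ).filter fun w => w < u) = ∅ := by
      ext x; simp only [Finset.mem_filter, Finset.mem_insert, Finset.mem_singleton,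
        Finset.notMem_empty, iff_false]; omega
    simp [this]
  have s2 : sgn {u, v} v = -1 := by
    unfold sgn
    have : (({u, v} : Finset ℕ).filter fun w => w < v) = {u} := by
      ext x; simp only [Finset.mem_filter, Finset.mem_insert, Finset.mem_singleton]; omega
    simp [this]
  rw [e1, e2, s1, s2]
  simp [sub_eq_add_neg]

/-- Connectedness from a tree. -/
theorem hv0_of_tree (K : Cpx) (par : ℕ → ℕ) (r : ℕ)
    (h : ∀ v, Face K {v} → v = r ∨ (par v < v ∧ Face K {par v} ∧ FaceDim K 1 {par v, v})) :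
    HomologyVanishes K 0 := by
  have key : ∀ v, Face K {v} → ∃ d, IsChain K 1 d ∧
      bd d = Finsupp.single {v} 1 - Finsupp.single {r} 1 := by
    intro v
    induction v using Nat.strong_induction_on with
    | _ v ih =>
      intro hv
      rcases h v hv with rfl | ⟨h1, h2, h3⟩
      · exact ⟨0, isChain_zero16 K 1, by simp [bd_zero16]⟩
      · obtain ⟨d, hd, hd'⟩ := ih _ h1 h2
        refine ⟨d + Finsupp.single {par v, v} 1, isChain_add16 hd (isChain_single16 1 h3), ?_⟩
        rw [bd_add16, hd', bd_edge16 h1]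
        abel
  intro c hc hb
  have hcard : ∀ s ∈ c.support, ∃ v, s = {v} := by
    intro s hs
    have := (hc s hs).2
    exact Finset.card_eq_one.1 this
  have hex : ∀ s : Finset ℕ, ∃ d : Chain, s ∈ c.support → IsChain K 1 d ∧
      bd d = Finsupp.single s 1 - Finsupp.single {r} 1 := by
    intro s
    by_cases hs : s ∈ c.support
    · obtain ⟨v, rfl⟩ := hcard s hs
      obtain ⟨d, hd⟩ := key v (hc _ hs).1
      exact ⟨d, fun _ => hd⟩
    · exact ⟨0, fun h' => absurd h' hs⟩
  choose D hD using hex
  refine ⟨c.sum fun s m => m • D s, ?_, ?_⟩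
  · unfold Finsupp.sum
    have : ∀ T : Finset (Finset ℕ), T ⊆ c.support → IsChain K 1 (∑ s ∈ T, c s • D s) := by
      intro T
      induction T using Finset.induction_on with
      | empty => intro _; simpa using isChain_zero16 K 1
      | insert a T ha ih =>
        intro hT
        rw [Finset.sum_insert ha]
        exact isChain_add16 (isChain_smul16 _ (hD a (hT (Finset.mem_insert_self _ _))).1)
          (ih fun x hx => hT (Finset.mem_insert_of_mem hx))
    exact this _ (Finset.Subset.refl _)
  · have e1 : bd (c.sum fun s m => m • D s) =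
        c.sum fun s m => m • (Finsupp.single s 1 - Finsupp.single {r} 1) := by
      rw [← bdHom_apply16, map_finsuppSum]
      refine Finsupp.sum_congr fun s hs => ?_
      rw [map_zsmul, bdHom_apply16, (hD s hs).2]
    have e2 : bd c = Finsupp.single ∅ (c.sum fun _ m => m) := by
      unfold bd Finsupp.sum
      rw [Finsupp.single_finsetSum]
      refine Finset.sum_congr rfl fun s hs => ?_
      obtain ⟨v, rfl⟩ := hcard s hs
      have hs1 : sgn {v} v = 1 := by
        unfold sgn
        rw [Finset.filter_singleton]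
        simp
      simp only [Finset.sum_singleton, hs1, mul_one, Finset.erase_singleton]
    have e3 : (c.sum fun _ m => m) = 0 := by
      rw [e2] at hb
      simpa using hb
    rw [e1]
    simp only [smul_sub]
    rw [Finsupp.sum_sub, single_sum16]
    have : (c.sum fun _ m => m • Finsupp.single ({r} : Finset ℕ) (1 : ℤ)) = 0 := by
      have h2 : (c.sum fun _ m => m • Finsupp.single ({r} : Finset ℕ) (1 : ℤ)) =
          (c.sum fun _ m => m) • Finsupp.single ({r} : Finset ℕ) (1 : ℤ) := by
        unfold Finsupp.sum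
        rw [Finset.sum_smul]
      rw [h2, e3, zero_smul]
    rw [this, sub_zero]

end Chains16

end E8Genera
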