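import Pool.Agent.P8.Form
import Pool.Agent.P8.Uni16

/-!
The spin condition from the evenness of the integral intersection form: if the relative
2-cocycles `α i` span the cohomology with coefficients modulo 2 and their cup product matrix is
symmetric with even diagonal, then the square of every relative class modulo 2 vanishes.
-/

namespace E8Genera

/-- The number of elements of `s` before `v`. -/
def rk43 (s : Finset ℕ) (v : ℕ) : ℕ := (s.filter fun w => w < v).card

/-- The number of elements of `s` after `v`. -/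
def rkb43 (s : Finset ℕ) (v : ℕ) : ℕ := (s.filter fun w => v < w).card

theorem rk43_injOn (s : Finset ℕ) : Set.InjOn (rk43 s) s := by
  intro v hv w hw h
  have hv' : v ∈ s := hv
  have hw' : w ∈ s := hw
  by_contra hne
  rcases lt_or_gt_of_ne hne with hlt | hlt
  · refine absurd h (ne_of_lt (Finset.card_lt_card ?_))
    refine Finset.ssubset_iff_subset_ne.2 ⟨?_, ?_⟩
    · intro x hx
      simp only [Finset.mem_filter] at hx ⊢
      exact ⟨hx.1, hx.2.trans hlt⟩
    · intro he
      have : v ∈ s.filter fun x => x < w := Finset.mem_filter.2 ⟨hv', hlt⟩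
      rw [← he] at this
      exact lt_irrefl _ (Finset.mem_filter.1 this).2
  · refine absurd h.symm (ne_of_lt (Finset.card_lt_card ?_))
    refine Finset.ssubset_iff_subset_ne.2 ⟨?_, ?_⟩
    · intro x hx
      simp only [Finset.mem_filter] at hx ⊢
      exact ⟨hx.1, hx.2.trans hlt⟩
    · intro he
      have : w ∈ s.filter fun x => x < v := Finset.mem_filter.2 ⟨hw', hlt⟩
      rw [← he] at this
      exact lt_irrefl _ (Finset.mem_filter.1 this).2

theorem rkb43_injOn (s : Finset ℕ) : Set.InjOn (rkb43 s) s := by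
  intro v hv w hw h
  have hv' : v ∈ s := hv
  have hw' : w ∈ s := hw
  by_contra hne
  rcases lt_or_gt_of_ne hne with hlt | hlt
  · refine absurd h.symm (ne_of_lt (Finset.card_lt_card ?_))
    refine Finset.ssubset_iff_subset_ne.2 ⟨?_, ?_⟩
    · intro x hx
      simp only [Finset.mem_filter] at hx ⊢
      exact ⟨hx.1, hlt.trans hx.2⟩
    · intro he
      have : w ∈ s.filter fun x => v < x := Finset.mem_filter.2 ⟨hw', hlt⟩
      rw [← he] at this
      exact lt_irrefl _ (Finset.mem_filter.1 this).2
  · refine absurd h (ne_of_lt (Finset.card_lt_card ?_))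
    refine Finset.ssubset_iff_subset_ne.2 ⟨?_, ?_⟩
    · intro x hx
      simp only [Finset.mem_filter] at hx ⊢
      exact ⟨hx.1, hlt.trans hx.2⟩
    · intro he
      have : v ∈ s.filter fun x => w < x := Finset.mem_filter.2 ⟨hv', hlt⟩
      rw [← he] at this
      exact lt_irrefl _ (Finset.mem_filter.1 this).2

theorem image_rank43 (s : Finset ℕ) (r : ℕ → ℕ) (hi : Set.InjOn r s) (hr : ∀ v ∈ s, r v < s.card) :
    s.image r = Finset.range s.card := by
  apply Finset.eq_of_subset_of_card_le
  · intro x hx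
    obtain ⟨v, hv, rfl⟩ := Finset.mem_image.1 hx
    exact Finset.mem_range.2 (hr v hv)
  · rw [Finset.card_range, Finset.card_image_of_injOn hi]

theorem card_filter_rank43 (s : Finset ℕ) (r : ℕ → ℕ) (hi : Set.InjOn r s)
    (hr : ∀ v ∈ s, r v < s.card) (k : ℕ) (hk : k ≤ s.card) :
    (s.filter fun v => r v < k).card = k := by
  have h1 : (s.filter fun v => r v < k).image r = Finset.range k := by
    ext x
    simp only [Finset.mem_image, Finset.mem_filter, Finset.mem_range]
    constructor
    · rintro ⟨v, ⟨_, hv⟩, rfl⟩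
      exact hv
    · intro hx
      have : x ∈ s.image r := by
        rw [image_rank43 s r hi hr]
        exact Finset.mem_range.2 (lt_of_lt_of_le hx hk)
      obtain ⟨v, hv, rfl⟩ := Finset.mem_image.1 this
      exact ⟨v, ⟨hv, hx⟩, rfl⟩
  have h2 := Finset.card_image_of_injOn (s := s.filter fun v => r v < k) (f := r)
    (hi.mono (by
      intro x hx
      exact (Finset.mem_filter.1 (Finset.mem_coe.1 hx)).1))
  rw [h1, Finset.card_range] at h2
  exact h2.symm

theorem rk43_lt (s : Finset ℕ) : ∀ v ∈ s, rk43 s v < s.card := by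
  intro v hv
  refine Finset.card_lt_card (Finset.ssubset_iff_subset_ne.2 ⟨Finset.filter_subset _ _, ?_⟩)
  intro he
  rw [← he] at hv
  exact lt_irrefl _ (Finset.mem_filter.1 hv).2

theorem rkb43_lt (s : Finset ℕ) : ∀ v ∈ s, rkb43 s v < s.card := by
  intro v hv
  refine Finset.card_lt_card (Finset.ssubset_iff_subset_ne.2 ⟨Finset.filter_subset _ _, ?_⟩)
  intro he
  rw [← he] at hv
  exact lt_irrefl _ (Finset.mem_filter.1 hv).2

theorem card_front43 {s : Finset ℕ} (h : 3 ≤ s.card) : (front s).card = 3 :=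
  card_filter_rank43 s (rk43 s) (rk43_injOn s) (rk43_lt s) 3 h

theorem card_back43 {s : Finset ℕ} (h : 3 ≤ s.card) : (back s).card = 3 :=
  card_filter_rank43 s (rkb43 s) (rkb43_injOn s) (rkb43_lt s) 3 h

theorem front_faceDim43 {X : Cpx} {s : Finset ℕ} (h : FaceDim X 4 s) : FaceDim X 2 (front s) := by
  obtain ⟨⟨_, F, hF, hs⟩, hc⟩ := h
  have hc' := card_front43 (s := s) (by omega)
  exact ⟨⟨Finset.card_pos.1 (by omega), F, hF, (Finset.filter_subset _ _).trans hs⟩, by omega⟩

theorem back_faceDim43 {X : Cpx} {s : Finset ℕ} (h : FaceDim X 4 s) : FaceDim X 2 (back s) := by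
  obtain ⟨⟨_, F, hF, hs⟩, hc⟩ := h
  have hc' := card_back43 (s := s) (by omega)
  exact ⟨⟨Finset.card_pos.1 (by omega), F, hF, (Finset.filter_subset _ _).trans hs⟩, by omega⟩

/-- The evaluation of a cup product on a 4-chain of `X` only depends on the values on the
triangles of `X`. -/
theorem cupEval_congr43 {R : Type*} [CommRing R] {X : Cpx} {c : Chain} (hc : IsChain X 4 c)
    {a a' b b' : Finset ℕ → R} (ha : ∀ s, FaceDim X 2 s → a s = a' s)
    (hb : ∀ s, FaceDim X 2 s → b s = b' s) : cupEval c a b = cupEval c a' b' := by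
  unfold cupEval Finsupp.sum
  refine Finset.sum_congr rfl fun s hs => ?_
  beta_reduce
  rw [ha _ (front_faceDim43 (hc s hs)), hb _ (back_faceDim43 (hc s hs))]

/-- Reduction modulo 2 of the cup product evaluation. -/
theorem cupEval_cast43 {R : Type*} [CommRing R] (c : Chain) (a b : Finset ℕ → ℤ) :
    cupEval c (fun s => ((a s : ℤ) : R)) (fun s => ((b s : ℤ) : R)) =
      ((cupEval c a b : ℤ) : R) := by
  unfold cupEval Finsupp.sum
  push_cast
  refine Finset.sum_congr rfl fun s _ => ?_
  simp only [zsmul_eq_mul, Int.cast_id, Int.cast_mul]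

/-- A quadratic form modulo 2 with symmetric integral matrix with even diagonal vanishes. -/
theorem quad_even43 {ι : Type*} [Fintype ι] (G : Matrix ι ι ℤ) (hsymm : ∀ i j, G i j = G j i)
    (heven : ∀ i, (2 : ℤ) ∣ G i i) (m : ι → ZMod 2) :
    ∑ i, ∑ j, m i * m j * ((G i j : ℤ) : ZMod 2) = 0 := by
  classical
  -- induction over finite subsets
  have h2 : (2 : ZMod 2) = 0 := by decide
  have hd : ∀ i, ((G i i : ℤ) : ZMod 2) = 0 := fun i =>
    (ZMod.intCast_zmod_eq_zero_iff_dvd _ 2).2 (by exact_mod_cast heven i)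
  have key : ∀ t : Finset ι, ∑ i ∈ t, ∑ j ∈ t, m i * m j * ((G i j : ℤ) : ZMod 2) = 0 := by
    intro t
    induction t using Finset.induction_on with
    | empty => simp
    | insert a t ha ih =>
      rw [Finset.sum_insert ha]
      simp only [Finset.sum_insert ha]
      rw [Finset.sum_add_distrib, ih, hd a]
      have : ∑ i ∈ t, m i * m a * ((G i a : ℤ) : ZMod 2) =
          ∑ j ∈ t, m a * m j * ((G a j : ℤ) : ZMod 2) := by
        refine Finset.sum_congr rfl fun j _ => ?_
        rw [hsymm j a]
        ring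
      rw [this]
      have h3 : ∀ x : ZMod 2, x + x = 0 := by decide
      rw [mul_zero, zero_add, add_zero]
      exact h3 _
  exact key Finset.univ

theorem relCocycle_cobd43 {A : Type*} [AddCommGroup A] {X Y : Cpx} {b : Finset ℕ → A}
    (hb : ∀ s, FaceDim Y 1 s → b s = 0) : RelCocycle X Y (cobd b) := by
  constructor
  · rintro s ⟨⟨_, F, hF, hs⟩, hc⟩
    unfold cobd
    refine Finset.sum_eq_zero fun v hv => ?_
    have hcard : (s.erase v).card = 2 := by
      rw [Finset.card_erase_of_mem hv]
      omega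
    rw [hb _ ⟨⟨Finset.card_pos.1 (by omega), F, hF, (Finset.erase_subset _ _).trans hs⟩, hcard⟩,
      smul_zero]
  · intro s _
    exact cobd_cobd16 b s

theorem relCocycle_lin43 {ι : Type*} [Fintype ι] {R : Type*} [CommRing R] {X Y : Cpx}
    {α : ι → Finset ℕ → ℤ} (h : ∀ i, RelCocycle X Y (α i)) (m : ι → R) :
    RelCocycle X Y fun s => ∑ i, m i * ((α i s : ℤ) : R) := by
  constructor
  · intro s hs
    refine Finset.sum_eq_zero fun i _ => ?_
    rw [(h i).1 s hs, Int.cast_zero, mul_zero]
  · intro s hs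
    have key : cobd (fun s => ∑ i, m i * ((α i s : ℤ) : R)) s =
        ∑ i, m i * ((cobd (α i) s : ℤ) : R) := by
      unfold cobd
      simp only [Finset.smul_sum, Int.cast_sum, Finset.mul_sum]
      rw [Finset.sum_comm]
      refine Finset.sum_congr rfl fun i _ => Finset.sum_congr rfl fun v _ => ?_
      simp only [zsmul_eq_mul, smul_eq_mul, Int.cast_mul]
      ring
    rw [key]
    refine Finset.sum_eq_zero fun i _ => ?_
    rw [(h i).2 s hs, Int.cast_zero, mul_zero]

/-- **Even implies spin.** -/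
theorem spin_of_even43 {ι : Type} [Fintype ι] {X Y : Cpx} {c : Chain} {G : Matrix ι ι ℤ}
    (hc : IsChain X 4 c)
    (stokesL : ∀ a b : Finset ℕ → ZMod 2, RelCocycle X Y a → (∀ s, FaceDim Y 1 s → b s = 0) →
      cupEval c (cobd b) a = 0)
    (stokesR : ∀ a b : Finset ℕ → ZMod 2, RelCocycle X Y a → (∀ s, FaceDim Y 1 s → b s = 0) →
      cupEval c a (cobd b) = 0)
    (α : ι → Finset ℕ → ℤ) (hα : ∀ i, RelCocycle X Y (α i))
    (hG : ∀ i j, cupEval c (α i) (α j) = G i j) (hsymm : ∀ i j, G i j = G j i)
    (heven : ∀ i, (2 : ℤ) ∣ G i i)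
    (hspan : ∀ a : Finset ℕ → ZMod 2, RelCocycle X Y a →
      ∃ m : ι → ZMod 2, RelCobdry X Y fun s => a s - ∑ i, α i s • m i) : IsSpin X Y c := by
  intro a ha
  obtain ⟨m, b, hb0, hb⟩ := hspan a ha
  set L : Finset ℕ → ZMod 2 := fun s => ∑ i, m i * ((α i s : ℤ) : ZMod 2) with hL
  have hLc : RelCocycle X Y L := relCocycle_lin43 hα m
  have hbc : RelCocycle X Y (cobd b) := relCocycle_cobd43 hb0
  have haeq : ∀ s, FaceDim X 2 s → a s = (fun s => L s + cobd b s) s := by
    intro s hs
    have h1 := hb s hs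
    have h2 : ∑ i, α i s • m i = L s := by
      rw [hL]
      refine Finset.sum_congr rfl fun i _ => ?_
      rw [zsmul_eq_mul, mul_comm]
    simp only at h1 ⊢
    rw [h2] at h1
    rw [← h1]
    ring
  rw [cupEval_congr43 hc haeq haeq, cupEval_add_left, cupEval_add_right, cupEval_add_right,
    stokesR L b hLc hb0, stokesL L b hLc hb0, stokesL (cobd b) b hbc hb0, add_zero, add_zero,
    add_zero, hL, cupEval_lin c (fun i s => ((α i s : ℤ) : ZMod 2)) m m]
  simp only [cupEval_cast43, hG]
  exact quad_even43 G hsymm heven m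

end E8Genera
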