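import Pool.Agent.P8.Stokes8
import Pool.Agent.P8.Spin43
import Pool.Agent.P8.Uni16

/-!
`H₁(Y; ℤ) = 0` for the boundary, the spin condition and the intersection form of a bounding from
relative cocycles that span `H²(X, Y; A)` for every coefficient group `A`.
-/

set_option autoImplicit false

namespace E8Genera

variable {ι : Type} [Fintype ι] [DecidableEq ι] {X Y : Cpx} {c z : Chain}
  {α : ι → Finset ℕ → ℤ} {G H : Matrix ι ι ℤ}

/-- `H₁(Y; ℤ) = 0` for the boundary `Y` of `X` -/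
theorem h1_boundary (hc : IsChain X 4 c) (hz : bd c = z) (hzY : IsChain Y 3 z)
    (hYX : ∀ s, Face Y s → Face X s) (hα : ∀ i, RelCocycle X Y (α i))
    (hG : ∀ i j, cupEval c (α i) (α j) = G i j) (hHG : H * G = 1)
    (hspan : ∀ (A : Type) [AddCommGroup A] (a : Finset ℕ → A), RelCocycle X Y a →
      ∃ m : ι → A, RelCobdry X Y fun s => a s - ∑ i, α i s • m i)
    (hcoh : ∀ (A : Type) [AddCommGroup A] (a : Finset ℕ → A),
      (∀ s, FaceDim X 2 s → cobd a s = 0) →
        ∃ g : Finset ℕ → A, ∀ s, FaceDim X 1 s → a s = cobd g s) :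
    HomologyVanishes Y 1 :=
  hv1_of_coh Y fun A _ a ha =>
    coh1_boundary hc hz hzY hYX hα hG hHG (hspan A) (hcoh A) a ha

omit [DecidableEq ι] in
/-- an even symmetric form and spanning mod 2 give the spin condition -/
theorem isSpin_of_even (hc : IsChain X 4 c) (hz : bd c = z) (hzY : IsChain Y 3 z)
    (hα : ∀ i, RelCocycle X Y (α i)) (hG : ∀ i j, cupEval c (α i) (α j) = G i j)
    (hsymm : ∀ i j, G i j = G j i) (heven : ∀ i, (2 : ℤ) ∣ G i i)
    (hspan : ∀ a : Finset ℕ → ZMod 2, RelCocycle X Y a →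
      ∃ m : ι → ZMod 2, RelCobdry X Y fun s => a s - ∑ i, α i s • m i) : IsSpin X Y c :=
  spin_of_even43 hc
    (fun _ _ ha hb => stokes_left (AddMonoidHom.mul : ZMod 2 →+ ZMod 2 →+ ZMod 2) hc hz hzY ha.2
      (Or.inl hb))
    (fun _ _ ha hb => stokes_right (AddMonoidHom.mul : ZMod 2 →+ ZMod 2 →+ ZMod 2) hc hz hzY ha.2
      (Or.inl hb))
    α hα hG hsymm heven hspan

/-- a bounding with spanning relative cocycles and a definite even Gram matrix -/
theorem definiteSpinBounds_of {k : ℕ} {X Y : Cpx} {c z : Chain}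
    {α : Fin (8 * k) → Finset ℕ → ℤ} {G : Matrix (Fin (8 * k)) (Fin (8 * k)) ℤ}
    (hX : IsBounding X c Y z) (hzY : IsChain Y 3 z) (hα : ∀ i, RelCocycle X Y (α i))
    (hG : ∀ i j, cupEval c (α i) (α j) = G i j) (hdef : IsDefinite G)
    (hsymm : ∀ i j, G i j = G j i) (heven : ∀ i, (2 : ℤ) ∣ G i i)
    (hspan : ∀ (A : Type) [AddCommGroup A] (a : Finset ℕ → A), RelCocycle X Y a →
      ∃ m : Fin (8 * k) → A, RelCobdry X Y fun s => a s - ∑ i, α i s • m i) :
    DefiniteSpinBounds Y z k :=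
  ⟨X, c, G, hX, isSpin_of_even hX.2.2.1.1 hX.2.2.1.2.2 hzY hα hG hsymm heven (hspan (ZMod 2)),
    hasForm_of_definite hX.2.2.1.1 hX.2.2.1.2.2 hzY hα hG hdef (hspan ℤ), hdef⟩

end E8Genera
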