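import Pool.Agent.P8.Code

/-!
# P8: kernel-cheap checker for PL spheres and PL manifolds by bistellar moves (helper30)

Simplices are bit masks. A certificate for a sphere is a list of moves, the move (s, t) being
encoded by the number `s + 2 ^ 64 * t`.
-/

namespace E8Genera

namespace B30

/-- evaluation of a number before it is used (for the kernel) -/
noncomputable def frc (x : ℕ) (k : ℕ → Bool) : Bool :=
  Nat.rec (motive := fun _ => Bool) true (fun n _ => k n) (Nat.succ x)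

theorem frc_eq (x : ℕ) (k : ℕ → Bool) : frc x k = k x := rfl

/-- `bif` by the recursor -/
noncomputable def br (c : Bool) (x y : Bool) : Bool := Bool.rec (motive := fun _ => Bool) y x c

theorem br_true {c x y : Bool} (h : br c x y = true) : (c = true ∧ x = true) ∨ (c = false ∧ y = true) := by
  cases c
  · exact Or.inr ⟨rfl, h⟩
  · exact Or.inl ⟨rfl, h⟩

/-- conjunction by the recursor -/
noncomputable def nd (c : Bool) (x : Bool) : Bool := Bool.rec (motive := fun _ => Bool) false x c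

theorem nd_true {c x : Bool} (h : nd c x = true) : c = true ∧ x = true := by
  cases c
  · exact absurd h (by simp [nd])
  · exact ⟨rfl, h⟩

/-- scan the list of facets: those containing `s` go to `A`, the others to `B`; fail if one of the
others contains `t` -/
noncomputable def scan (s t : ℕ) (k : List ℕ → List ℕ → Bool) (L : List ℕ) :
    List ℕ → List ℕ → Bool :=
  List.rec (motive := fun _ => List ℕ → List ℕ → Bool) (fun A B => k A B)
    (fun f _ ih A B => Bool.rec (motive := fun _ => Bool)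
      (Bool.rec (motive := fun _ => Bool) (ih A (f :: B)) false (Nat.beq (Nat.land t f) t))
      (ih (f :: A) B) (Nat.beq (Nat.land s f) s)) L

/-- every element of `A` is `u \ {y}` with `y` in `t`, and (with `acc`) these `y` exhaust `t` -/
noncomputable def chkA (u t : ℕ) (A : List ℕ) : ℕ → Bool :=
  List.rec (motive := fun _ => ℕ → Bool) (fun acc => Nat.beq acc t)
    (fun a _ ih acc => frc (Nat.xor u a) fun y =>
      nd (Nat.beq (Nat.pow 2 (Nat.log2 y)) y) (frc (Nat.lor acc y) ih)) A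

/-- the new facets `t ∪ (s \ {x})`, `x` in `s` -/
noncomputable def gen (s t : ℕ) (k : List ℕ → Bool) (fuel : ℕ) : ℕ → List ℕ → Bool :=
  Nat.rec (motive := fun _ => ℕ → List ℕ → Bool) (fun r acc => nd (Nat.beq r 0) (k acc))
    (fun _ ih r acc => br (Nat.beq r 0) (k acc)
      (frc (Nat.pow 2 (Nat.log2 r)) fun b =>
        frc (Nat.lor t (Nat.xor s b)) fun g =>
          frc (Nat.xor r b) fun r' => ih r' (g :: acc))) fuel

/-- union of the facets -/
noncomputable def lorAll (k : ℕ → Bool) (L : List ℕ) : ℕ → Bool :=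
  List.rec (motive := fun _ => ℕ → Bool) (fun acc => k acc)
    (fun a _ ih acc => frc (Nat.lor acc a) ih) L

noncomputable def run (ms : List ℕ) : List ℕ → Bool :=
  List.rec (motive := fun _ => List ℕ → Bool)
    (fun L => lorAll (fun u => nd (Nat.ble 1 u) (chkA u u L 0)) L 0)
    (fun m _ ih L =>
      frc (Nat.mod m (2 ^ 64)) fun s => frc (Nat.div m (2 ^ 64)) fun t =>
        nd (Nat.beq (Nat.land s t) 0) (nd (Nat.ble 1 s) (nd (Nat.ble 1 t)
          (gen s t (fun N => scan s t (fun A B =>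
            nd (frc (Nat.lor s t) fun u => chkA u t A 0) (ih B)) L [] N) 5 s [])))) ms

/-- the link of `v` in the cone-completed complex -/
noncomputable def lk (b P : ℕ) (k : List ℕ → Bool) (L : List ℕ) : List ℕ → Bool :=
  List.rec (motive := fun _ => List ℕ → Bool) (fun acc => k acc)
    (fun f _ ih acc => Bool.rec (motive := fun _ => Bool) (ih acc)
      (frc (Nat.xor (Nat.lor f P) b) fun g => ih (g :: acc)) (Nat.beq (Nat.land b f) b)) L

/-- `v` is not a vertex, or the list `ms` is a certificate for its link -/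
noncomputable def chkLk (L LY : List ℕ) (P v : ℕ) (ms : List ℕ) : Bool :=
  frc (Nat.pow 2 v) fun b => lk b 0 (fun acc => List.rec (motive := fun _ => Bool) true
    (fun _ _ _ => lk b P (run ms) LY acc) acc) L []

noncomputable def chkRange (L LY : List ℕ) (P : ℕ) (C : List (List ℕ)) : ℕ → Bool :=
  List.rec (motive := fun _ => ℕ → Bool) (fun _ => true)
    (fun ms _ ih v => nd (chkLk L LY P v ms) (frc (Nat.succ v) ih)) C

/-- `r` has exactly `k` digits 1 -/
noncomputable def pc (k : ℕ) : ℕ → Bool :=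
  Nat.rec (motive := fun _ => ℕ → Bool) (fun r => Nat.beq r 0)
    (fun _ ih r => nd (Nat.ble 1 r) (frc (Nat.xor r (Nat.pow 2 (Nat.log2 r))) ih)) k

/-- all masks have `k` digits 1 and are less than `M` -/
noncomputable def chkPure (k M : ℕ) (L : List ℕ) : Bool :=
  List.rec (motive := fun _ => Bool) true
    (fun f _ ih => nd (pc k f) (nd (Nat.ble (Nat.succ f) M) ih)) L

/-! ## soundness -/

theorem beq_iff {a b : ℕ} : Nat.beq a b = true ↔ a = b :=
  ⟨Nat.eq_of_beq_eq_true, fun h => by subst h; exact Nat.beq_refl a⟩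

theorem beq_false_iff {a b : ℕ} : Nat.beq a b = false ↔ ¬ a = b := by
  rw [← beq_iff]
  cases Nat.beq a b <;> simp

theorem scan_cons {s t : ℕ} {k : List ℕ → List ℕ → Bool} {f : ℕ} {L A B : List ℕ}
    (h : scan s t k (f :: L) A B = true) :
    (Nat.land s f = s ∧ scan s t k L (f :: A) B = true) ∨
    (¬ Nat.land s f = s ∧ ¬ Nat.land t f = t ∧ scan s t k L A (f :: B) = true) := by
  have h0 : scan s t k (f :: L) A B = Bool.rec (motive := fun _ => Bool)
      (Bool.rec (motive := fun _ => Bool) (scan s t k L A (f :: B)) false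
        (Nat.beq (Nat.land t f) t))
      (scan s t k L (f :: A) B) (Nat.beq (Nat.land s f) s) := rfl
  rw [h0] at h
  cases h1 : Nat.beq (Nat.land s f) s
  · rw [h1] at h
    cases h2 : Nat.beq (Nat.land t f) t
    · rw [h2] at h
      exact Or.inr ⟨beq_false_iff.mp h1, beq_false_iff.mp h2, h⟩
    · rw [h2] at h
      exact absurd h (by simp)
  · rw [h1] at h
    exact Or.inl ⟨beq_iff.mp h1, h⟩

theorem scan_sound {s t : ℕ} {k : List ℕ → List ℕ → Bool} {L A B : List ℕ}
    (h : scan s t k L A B = true) :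
    ∃ A' B' : List ℕ, k A' B' = true ∧
      (∀ f, f ∈ A' ↔ f ∈ A ∨ (f ∈ L ∧ Nat.land s f = s)) ∧
      (∀ f, f ∈ B' ↔ f ∈ B ∨ (f ∈ L ∧ ¬ Nat.land s f = s)) ∧
      (∀ f ∈ L, ¬ Nat.land s f = s → ¬ Nat.land t f = t) := by
  induction L generalizing A B with
  | nil =>
    exact ⟨A, B, h, by simp, by simp, by simp⟩
  | cons f L ih =>
    rcases scan_cons h with ⟨h1, h⟩ | ⟨h1, h2, h⟩
    · obtain ⟨A', B', hk, hA, hB, hN⟩ := ih h
      refine ⟨A', B', hk, ?_, ?_, ?_⟩
      · intro g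
        rw [hA g, List.mem_cons, List.mem_cons]
        constructor
        · rintro ((rfl | h2) | h2)
          · exact Or.inr ⟨Or.inl rfl, h1⟩
          · exact Or.inl h2
          · exact Or.inr ⟨Or.inr h2.1, h2.2⟩
        · rintro (h2 | ⟨rfl | h2, h3⟩)
          · exact Or.inl (Or.inr h2)
          · exact Or.inl (Or.inl rfl)
          · exact Or.inr ⟨h2, h3⟩
      · intro g
        rw [hB g, List.mem_cons]
        constructor
        · rintro (h2 | ⟨h2, h3⟩)
          · exact Or.inl h2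
          · exact Or.inr ⟨Or.inr h2, h3⟩
        · rintro (h2 | ⟨rfl | h2, h3⟩)
          · exact Or.inl h2
          · exact absurd h1 h3
          · exact Or.inr ⟨h2, h3⟩
      · intro g hg
        rcases List.mem_cons.mp hg with rfl | hg
        · intro h3
          exact absurd h1 h3
        · exact hN g hg
    · obtain ⟨A', B', hk, hA, hB, hN⟩ := ih h
      refine ⟨A', B', hk, ?_, ?_, ?_⟩
      · intro g
        rw [hA g, List.mem_cons]
        constructor
        · rintro (h2 | ⟨h2, h3⟩)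
          · exact Or.inl h2
          · exact Or.inr ⟨Or.inr h2, h3⟩
        · rintro (h2 | ⟨rfl | h2, h3⟩)
          · exact Or.inl h2
          · exact absurd h3 h1
          · exact Or.inr ⟨h2, h3⟩
      · intro g
        rw [hB g, List.mem_cons, List.mem_cons]
        constructor
        · rintro ((rfl | h2) | h2)
          · exact Or.inr ⟨Or.inl rfl, h1⟩
          · exact Or.inl h2
          · exact Or.inr ⟨Or.inr h2.1, h2.2⟩
        · rintro (h2 | ⟨rfl | h2, h3⟩)
          · exact Or.inl (Or.inr h2)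
          · exact Or.inl (Or.inl rfl)
          · exact Or.inr ⟨h2, h3⟩
      · intro g hg
        rcases List.mem_cons.mp hg with rfl | hg
        · intro _
          exact h2
        · exact hN g hg

theorem land_eq_iff {s f : ℕ} : Nat.land s f = s ↔ dec s ⊆ dec f := dec_subset.symm

theorem lor_dec (a b : ℕ) : dec (Nat.lor a b) = dec a ∪ dec b := dec_or a b

theorem two_pow_dec (v : ℕ) : dec (Nat.pow 2 v) = {v} := dec_two_pow v

theorem xor_dec {a v : ℕ} (h : v ∈ dec a) : dec (Nat.xor a (Nat.pow 2 v)) = (dec a).erase v := by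
  have h1 : dec (2 ^ v) ⊆ dec a := by
    rw [dec_two_pow]
    exact Finset.singleton_subset_iff.mpr h
  have h2 : a &&& 2 ^ v = 2 ^ v := by
    rw [Nat.and_comm]
    exact dec_subset.mp h1
  have h3 : dec (a ^^^ 2 ^ v) = dec a \ dec (2 ^ v) := dec_xor_of_subset h2
  rw [dec_two_pow, Finset.sdiff_singleton_eq_erase] at h3
  exact h3

/-- the mask `t ∪ (s \ {x})` -/
theorem dec_new {s t x : ℕ} (hx : x ∈ dec s) :
    dec (Nat.lor t (Nat.xor s (Nat.pow 2 x))) = dec t ∪ (dec s).erase x := by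
  rw [lor_dec, xor_dec hx]

theorem xor_eq_iff {u a b : ℕ} : Nat.xor u a = b ↔ a = Nat.xor u b := by
  constructor
  · intro h
    have h1 : u ^^^ a = b := h
    have h2 : a = u ^^^ b := by rw [← h1, ← Nat.xor_assoc, Nat.xor_self, Nat.zero_xor]
    exact h2
  · intro h
    have h1 : a = u ^^^ b := h
    have h2 : u ^^^ a = b := by rw [h1, ← Nat.xor_assoc, Nat.xor_self, Nat.zero_xor]
    exact h2

theorem chkA_sound {u t : ℕ} {A : List ℕ} {acc : ℕ} (h : chkA u t A acc = true) :
    (∀ a ∈ A, ∃ y ∈ dec t, Nat.xor u a = Nat.pow 2 y) ∧ (dec acc ⊆ dec t) ∧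
    (∀ y ∈ dec t, y ∈ dec acc ∨ ∃ a ∈ A, Nat.xor u a = Nat.pow 2 y) := by
  induction A generalizing acc with
  | nil =>
    have h1 : acc = t := beq_iff.mp h
    subst h1
    exact ⟨by simp, Finset.Subset.refl _, fun y hy => Or.inl hy⟩
  | cons a A ih =>
    have h0 : nd (Nat.beq (Nat.pow 2 (Nat.log2 (Nat.xor u a))) (Nat.xor u a))
        (chkA u t A (Nat.lor acc (Nat.xor u a))) = true := h
    obtain ⟨h1, h2⟩ := nd_true h0
    rw [beq_iff] at h1
    obtain ⟨i1, i2, i3⟩ := ih h2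
    rw [lor_dec] at i2
    have h3 : Nat.log2 (Nat.xor u a) ∈ dec t := by
      apply i2
      rw [Finset.mem_union]
      right
      rw [← h1, two_pow_dec, h1]
      simp
    refine ⟨?_, fun y hy => i2 (Finset.mem_union_left _ hy), ?_⟩
    · intro b hb
      rcases List.mem_cons.mp hb with rfl | hb
      · exact ⟨_, h3, h1.symm⟩
      · exact i1 b hb
    · intro y hy
      rcases i3 y hy with h4 | ⟨b, hb, h4⟩
      · rw [lor_dec, Finset.mem_union] at h4
        rcases h4 with h4 | h4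
        · exact Or.inl h4
        · right
          refine ⟨a, by simp, ?_⟩
          rw [← h1, two_pow_dec, Finset.mem_singleton] at h4
          rw [h4]
          exact h1.symm
      · exact Or.inr ⟨b, List.mem_cons_of_mem _ hb, h4⟩

theorem gen_sound {s t : ℕ} {k : List ℕ → Bool} {fuel r : ℕ} {acc : List ℕ}
    (h : gen s t k fuel r acc = true) :
    ∃ N : List ℕ, k N = true ∧ ∀ g, g ∈ N ↔ g ∈ acc ∨
      ∃ x ∈ dec r, g = Nat.lor t (Nat.xor s (Nat.pow 2 x)) := by
  induction fuel generalizing r acc with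
  | zero =>
    have h0 : nd (Nat.beq r 0) (k acc) = true := h
    obtain ⟨h1, h2⟩ := nd_true h0
    rw [beq_iff] at h1
    subst h1
    exact ⟨acc, h2, by simp⟩
  | succ fuel ih =>
    have h0 : br (Nat.beq r 0) (k acc)
        (gen s t k fuel (Nat.xor r (Nat.pow 2 (Nat.log2 r)))
          (Nat.lor t (Nat.xor s (Nat.pow 2 (Nat.log2 r))) :: acc)) = true := h
    rcases br_true h0 with ⟨h1, h2⟩ | ⟨h1, h2⟩
    · rw [beq_iff] at h1
      subst h1
      exact ⟨acc, h2, by simp⟩
    · rw [beq_false_iff] at h1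
      have h3 : Nat.log2 r ∈ dec r := mem_dec.mpr (Nat.testBit_log2 h1)
      obtain ⟨N, hN, hg⟩ := ih h2
      refine ⟨N, hN, fun g => ?_⟩
      rw [hg g, xor_dec h3, List.mem_cons]
      constructor
      · rintro ((rfl | h4) | ⟨x, hx, rfl⟩)
        · exact Or.inr ⟨_, h3, rfl⟩
        · exact Or.inl h4
        · exact Or.inr ⟨x, Finset.mem_of_mem_erase hx, rfl⟩
      · rintro (h4 | ⟨x, hx, rfl⟩)
        · exact Or.inl (Or.inr h4)
        · by_cases hxx : x = Nat.log2 r
          · subst hxx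
            exact Or.inl (Or.inl rfl)
          · exact Or.inr ⟨x, Finset.mem_erase.mpr ⟨hxx, hx⟩, rfl⟩

theorem lorAll_sound {k : ℕ → Bool} {L : List ℕ} {acc : ℕ} (h : lorAll k L acc = true) :
    ∃ u, k u = true := by
  induction L generalizing acc with
  | nil => exact ⟨acc, h⟩
  | cons a L ih =>
    have h0 : lorAll k L (Nat.lor acc a) = true := h
    exact ih h0

theorem move_sound {d : ℕ} {s t : ℕ} {L A B N : List ℕ}
    (hst : Nat.land s t = 0) (hs : 1 ≤ s) (ht : 1 ≤ t)
    (hN0 : ∀ g, g ∈ N ↔ g ∈ ([] : List ℕ) ∨ ∃ x ∈ dec s, g = Nat.lor t (Nat.xor s (Nat.pow 2 x)))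
    (hA : ∀ f, f ∈ A ↔ f ∈ ([] : List ℕ) ∨ (f ∈ L ∧ Nat.land s f = s))
    (hB : ∀ f, f ∈ B ↔ f ∈ N ∨ (f ∈ L ∧ ¬ Nat.land s f = s))
    (hN : ∀ f ∈ L, ¬ Nat.land s f = s → ¬ Nat.land t f = t)
    (hmA : chkA (Nat.lor s t) t A 0 = true)
    (hL : ∀ f ∈ cpxOf L, f.card = d + 1) :
    Bistellar d (cpxOf L) (cpxOf B) ∧ ∀ f ∈ cpxOf B, f.card = d + 1 := by
  have hdis : Disjoint (dec s) (dec t) := dec_disjoint.mpr hst
  have hsne : (dec s).Nonempty := dec_nonempty.mpr (by omega)
  have htne : (dec t).Nonempty := dec_nonempty.mpr (by omega)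
  obtain ⟨a1, -, a3⟩ := chkA_sound hmA
  have hA2 : ∀ f, f ∈ A ↔ ∃ y ∈ dec t, dec f = dec s ∪ (dec t).erase y := by
    intro f
    have key : ∀ y ∈ dec t, ∀ g, Nat.xor (Nat.lor s t) g = Nat.pow 2 y ↔
        dec g = dec s ∪ (dec t).erase y := by
      intro y hy g
      rw [xor_eq_iff]
      have hyu : y ∈ dec (Nat.lor s t) := by
        rw [lor_dec]
        exact Finset.mem_union_right _ hy
      have h1 : dec (Nat.xor (Nat.lor s t) (Nat.pow 2 y)) = dec s ∪ (dec t).erase y := by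
        rw [xor_dec hyu, lor_dec, Finset.erase_union_distrib, Finset.erase_eq_of_notMem]
        exact fun h => Finset.disjoint_left.mp hdis h hy
      constructor
      · rintro rfl
        exact h1
      · intro h
        exact dec_injective (h.trans h1.symm)
    constructor
    · intro hf
      obtain ⟨y, hy, h1⟩ := a1 f hf
      exact ⟨y, hy, (key y hy f).mp h1⟩
    · rintro ⟨y, hy, h1⟩
      rcases a3 y hy with h2 | ⟨b, hb, h2⟩
      · simp at h2
      · have h3 := (key y hy b).mp h2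
        have h4 : f = b := dec_injective (h1.trans h3.symm)
        rw [h4]
        exact hb
  have hlink : ∀ y ∈ dec t, dec s ∪ (dec t).erase y ∈ cpxOf L := by
    intro y hy
    obtain ⟨m, hm⟩ := exists_dec (dec s ∪ (dec t).erase y)
    have h1 : m ∈ A := (hA2 m).mpr ⟨y, hy, hm⟩
    rcases (hA _).mp h1 with h1 | h1
    · simp at h1
    · exact mem_cpxOf.mpr ⟨m, h1.1, hm⟩
  -- cardinality
  have hcard : (dec s).card + (dec t).card = d + 2 := by
    obtain ⟨y, hy⟩ := htne
    have h2 := hL _ (hlink y hy)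
    rw [Finset.card_union_of_disjoint, Finset.card_erase_of_mem hy] at h2
    · have h3 : 0 < (dec t).card := Finset.card_pos.mpr ⟨y, hy⟩
      omega
    · exact Finset.disjoint_of_subset_right (Finset.erase_subset _ _) hdis
  have hsd : ∀ y, (dec s ∪ (dec t).erase y) \ dec s = (dec t).erase y := by
    intro y
    rw [Finset.union_sdiff_left]
    exact Finset.sdiff_eq_self_of_disjoint
      (Finset.disjoint_of_subset_right (Finset.erase_subset _ _) hdis).symm
  refine ⟨⟨dec s, dec t, hsne, htne, hdis, hcard, ?_, ?_, ?_⟩, ?_⟩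
  · -- link
    ext g
    simp only [link, simplexBdry, Finset.mem_image, Finset.mem_filter]
    constructor
    · rintro ⟨f, ⟨hf, hsf⟩, rfl⟩
      obtain ⟨m, hm, rfl⟩ := mem_cpxOf.mp hf
      have h1 : m ∈ A := (hA m).mpr (Or.inr ⟨hm, land_eq_iff.mpr hsf⟩)
      obtain ⟨y, hy, h2⟩ := (hA2 m).mp h1
      exact ⟨y, hy, by rw [h2, hsd]⟩
    · rintro ⟨y, hy, rfl⟩
      exact ⟨_, ⟨hlink y hy, Finset.subset_union_left⟩, hsd y⟩
  · -- not a face
    rintro ⟨-, f, hf, htf⟩
    obtain ⟨m, hm, rfl⟩ := mem_cpxOf.mp hf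
    by_cases h1 : Nat.land s m = s
    · obtain ⟨y, hy, h2⟩ := (hA2 m).mp ((hA m).mpr (Or.inr ⟨hm, h1⟩))
      rw [h2] at htf
      have h3 := htf hy
      rw [Finset.mem_union] at h3
      rcases h3 with h3 | h3
      · exact Finset.disjoint_left.mp hdis h3 hy
      · simp at h3
    · exact hN m hm h1 (land_eq_iff.mpr htf)
  · -- new complex
    ext g
    simp only [Finset.mem_union, Finset.mem_image, Finset.mem_filter, simplexBdry]
    constructor
    · intro hg
      obtain ⟨m, hm, rfl⟩ := mem_cpxOf.mp hg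
      rcases (hB m).mp hm with h1 | h1
      · rcases (hN0 m).mp h1 with h1 | ⟨x, hx, rfl⟩
        · simp at h1
        · exact Or.inr ⟨_, ⟨x, hx, rfl⟩, by rw [dec_new hx, Finset.union_comm]⟩
      · exact Or.inl ⟨mem_cpxOf.mpr ⟨m, h1.1, rfl⟩, fun h2 => h1.2 (land_eq_iff.mpr h2)⟩
    · rintro (⟨h1, h2⟩ | ⟨_, ⟨x, hx, rfl⟩, rfl⟩)
      · obtain ⟨m, hm, rfl⟩ := mem_cpxOf.mp h1
        exact mem_cpxOf.mpr ⟨m, (hB m).mpr (Or.inr ⟨hm, fun h3 => h2 (land_eq_iff.mp h3)⟩), rfl⟩
      · exact mem_cpxOf.mpr ⟨_, (hB _).mpr (Or.inl ((hN0 _).mpr (Or.inr ⟨x, hx, rfl⟩))),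
          by rw [dec_new hx, Finset.union_comm]⟩
  · intro f hf
    obtain ⟨m, hm, rfl⟩ := mem_cpxOf.mp hf
    rcases (hB m).mp hm with h1 | h1
    · rcases (hN0 m).mp h1 with h1 | ⟨x, hx, rfl⟩
      · simp at h1
      · rw [dec_new hx, Finset.card_union_of_disjoint, Finset.card_erase_of_mem hx]
        · have h3 : 0 < (dec s).card := Finset.card_pos.mpr ⟨x, hx⟩
          omega
        · exact Finset.disjoint_of_subset_right (Finset.erase_subset _ _) hdis.symm
    · exact hL _ (mem_cpxOf.mpr ⟨m, h1.1, rfl⟩)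

theorem last_sound {d u : ℕ} {L : List ℕ} (hu : 1 ≤ u) (h : chkA u u L 0 = true)
    (hL : ∀ f ∈ cpxOf L, f.card = d + 1) :
    (dec u).card = d + 2 ∧ cpxOf L = simplexBdry (dec u) := by
  obtain ⟨a1, -, a3⟩ := chkA_sound h
  have h1 : cpxOf L = simplexBdry (dec u) := by
    ext g
    simp only [simplexBdry, Finset.mem_image]
    rw [mem_cpxOf]
    constructor
    · rintro ⟨m, hm, rfl⟩
      obtain ⟨y, hy, h1⟩ := a1 m hm
      rw [xor_eq_iff] at h1
      exact ⟨y, hy, by rw [h1, xor_dec hy]⟩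
    · rintro ⟨y, hy, rfl⟩
      rcases a3 y hy with h2 | ⟨b, hb, h2⟩
      · simp at h2
      · rw [xor_eq_iff] at h2
        exact ⟨b, hb, by rw [h2, xor_dec hy]⟩
  refine ⟨?_, h1⟩
  obtain ⟨x, hx⟩ : (dec u).Nonempty := dec_nonempty.mpr (by omega)
  have h2 : (dec u).erase x ∈ cpxOf L := by
    rw [h1]
    exact Finset.mem_image_of_mem _ hx
  have h3 := hL _ h2
  rw [Finset.card_erase_of_mem hx] at h3
  have h4 : 0 < (dec u).card := Finset.card_pos.mpr ⟨x, hx⟩
  omega

theorem run_sound {d : ℕ} {ms : List ℕ} {L : List ℕ}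
    (h : run ms L = true) (hL : ∀ f ∈ cpxOf L, f.card = d + 1) : IsSphere d (cpxOf L) := by
  induction ms generalizing L with
  | nil =>
    have h0 : lorAll (fun u => nd (Nat.ble 1 u) (chkA u u L 0)) L 0 = true := h
    obtain ⟨u, hu⟩ := lorAll_sound h0
    obtain ⟨h1, h2⟩ := nd_true hu
    obtain ⟨h3, h4⟩ := last_sound (Nat.le_of_ble_eq_true h1) h2 hL
    exact ⟨dec u, h3, by rw [h4]; exact Relation.EqvGen.refl _⟩
  | cons m ms ih =>
    have h0 : nd (Nat.beq (Nat.land (Nat.mod m (2 ^ 64)) (Nat.div m (2 ^ 64))) 0)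
        (nd (Nat.ble 1 (Nat.mod m (2 ^ 64))) (nd (Nat.ble 1 (Nat.div m (2 ^ 64)))
          (gen (Nat.mod m (2 ^ 64)) (Nat.div m (2 ^ 64)) (fun N =>
            scan (Nat.mod m (2 ^ 64)) (Nat.div m (2 ^ 64)) (fun A B =>
            nd (chkA (Nat.lor (Nat.mod m (2 ^ 64)) (Nat.div m (2 ^ 64)))
              (Nat.div m (2 ^ 64)) A 0) (run ms B)) L [] N) 5 (Nat.mod m (2 ^ 64)) []))) = true := h
    generalize Nat.mod m (2 ^ 64) = s at h0
    generalize Nat.div m (2 ^ 64) = t at h0
    obtain ⟨h1, h0⟩ := nd_true h0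
    obtain ⟨h2, h0⟩ := nd_true h0
    obtain ⟨h3, h0⟩ := nd_true h0
    obtain ⟨N, hN, hg⟩ := gen_sound h0
    obtain ⟨A, B, hk, hA, hB, hn⟩ := scan_sound hN
    obtain ⟨h4, h5⟩ := nd_true hk
    obtain ⟨hmv, hcard⟩ := move_sound (d := d) (beq_iff.mp h1) (Nat.le_of_ble_eq_true h2)
      (Nat.le_of_ble_eq_true h3) hg hA hB hn h4 hL
    obtain ⟨u, hu, h6⟩ := ih h5 hcard
    exact ⟨u, hu, Relation.EqvGen.trans _ _ _ h6
      (Relation.EqvGen.symm _ _ (Relation.EqvGen.rel _ _ hmv))⟩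

theorem lk_sound {b P : ℕ} {k : List ℕ → Bool} {L acc : List ℕ} (h : lk b P k L acc = true) :
    ∃ R, k R = true ∧ ∀ g, g ∈ R ↔ g ∈ acc ∨
      ∃ f ∈ L, Nat.land b f = b ∧ g = Nat.xor (Nat.lor f P) b := by
  induction L generalizing acc with
  | nil => exact ⟨acc, h, by simp⟩
  | cons f L ih =>
    have h0 : Bool.rec (motive := fun _ => Bool) (lk b P k L acc)
      (lk b P k L (Nat.xor (Nat.lor f P) b :: acc)) (Nat.beq (Nat.land b f) b) = true := h
    by_cases h1 : Nat.land b f = b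
    · rw [beq_iff.mpr h1] at h0
      obtain ⟨R, hR, hg⟩ := ih h0
      refine ⟨R, hR, fun g => ?_⟩
      rw [hg g, List.mem_cons]
      constructor
      · rintro ((rfl | h2) | ⟨f', h2, h3, rfl⟩)
        · exact Or.inr ⟨f, by simp, h1, rfl⟩
        · exact Or.inl h2
        · exact Or.inr ⟨f', List.mem_cons_of_mem _ h2, h3, rfl⟩
      · rintro (h2 | ⟨f', h2, h3, rfl⟩)
        · exact Or.inl (Or.inr h2)
        · rcases List.mem_cons.mp h2 with rfl | h2
          · exact Or.inl (Or.inl rfl)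
          · exact Or.inr ⟨f', h2, h3, rfl⟩
    · rw [beq_false_iff.mpr h1] at h0
      obtain ⟨R, hR, hg⟩ := ih h0
      refine ⟨R, hR, fun g => ?_⟩
      rw [hg g]
      constructor
      · rintro (h2 | ⟨f', h2, h3, rfl⟩)
        · exact Or.inl h2
        · exact Or.inr ⟨f', List.mem_cons_of_mem _ h2, h3, rfl⟩
      · rintro (h2 | ⟨f', h2, h3, rfl⟩)
        · exact Or.inl h2
        · rcases List.mem_cons.mp h2 with rfl | h2
          · exact absurd h3 h1
          · exact Or.inr ⟨f', h2, h3, rfl⟩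

theorem pow_land_iff {v f : ℕ} : Nat.land (Nat.pow 2 v) f = Nat.pow 2 v ↔ v ∈ dec f := by
  rw [land_eq_iff, two_pow_dec]
  exact Finset.singleton_subset_iff

theorem sphere_of_chkLk {d : ℕ} {L LY : List ℕ} {p v : ℕ} {ms : List ℕ}
    (h : chkLk L LY (Nat.pow 2 p) v ms = true) (hpure : Pure (d + 1) (cpxOf L))
    (hbd : bdry (cpxOf L) = cpxOf LY) (hp : ∀ F ∈ cpxOf L, p ∉ F) (hv : v ≠ p)
    (hvv : ∃ m ∈ L, v ∈ dec m) :
    IsSphere d (link (cap (cpxOf L) p) {v}) := by
  have h0 : lk (Nat.pow 2 v) 0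
      (fun acc => List.rec (motive := fun _ => Bool) true
        (fun _ _ _ => lk (Nat.pow 2 v) (Nat.pow 2 p) (run ms) LY acc) acc) L [] = true := h
  obtain ⟨R0, h1, hR0⟩ := lk_sound h0
  have h1' : lk (Nat.pow 2 v) (Nat.pow 2 p) (run ms) LY R0 = true := by
    obtain ⟨m, hm, hvm⟩ := hvv
    have h3 : Nat.xor (Nat.lor m 0) (Nat.pow 2 v) ∈ R0 :=
      (hR0 _).mpr (Or.inr ⟨m, hm, pow_land_iff.mpr hvm, rfl⟩)
    cases R0 with
    | nil => simp at h3
    | cons a R0 => exact h1
  obtain ⟨R, h2, hR⟩ := lk_sound h1'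
  have hb : ∀ s ∈ cpxOf LY, s.card = d + 1 ∧ p ∉ s := by
    intro s hs
    rw [← hbd] at hs
    unfold bdry at hs
    rw [Finset.mem_filter, Finset.mem_biUnion] at hs
    obtain ⟨⟨F, hF, hs⟩, -⟩ := hs
    unfold simplexBdry at hs
    rw [Finset.mem_image] at hs
    obtain ⟨x, hx, rfl⟩ := hs
    refine ⟨?_, fun h => hp F hF (Finset.mem_of_mem_erase h)⟩
    rw [Finset.card_erase_of_mem hx, hpure.2 F hF]
    omega
  have hlk : cpxOf R = link (cap (cpxOf L) p) {v} := by
    ext g
    rw [mem_cpxOf]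
    simp only [link, cap, Finset.mem_image, Finset.mem_filter, Finset.mem_union, hbd,
      Finset.singleton_subset_iff]
    constructor
    · rintro ⟨m, hm, rfl⟩
      rcases (hR m).mp hm with h3 | ⟨f, hf, hvf, rfl⟩
      · rcases (hR0 m).mp h3 with h3 | ⟨f, hf, hvf, rfl⟩
        · simp at h3
        · rw [pow_land_iff] at hvf
          refine ⟨dec f, ⟨Or.inl (mem_cpxOf.mpr ⟨f, hf, rfl⟩), hvf⟩, ?_⟩
          have h4 : Nat.lor f 0 = f := Nat.or_zero f
          rw [h4, xor_dec hvf, Finset.sdiff_singleton_eq_erase]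
      · rw [pow_land_iff] at hvf
        have hvu : v ∈ dec (Nat.lor f (Nat.pow 2 p)) := by
          rw [lor_dec]
          exact Finset.mem_union_left _ hvf
        refine ⟨insert p (dec f), ⟨Or.inr ⟨dec f, mem_cpxOf.mpr ⟨f, hf, rfl⟩, rfl⟩,
          Finset.mem_insert_of_mem hvf⟩, ?_⟩
        rw [xor_dec hvu, lor_dec, two_pow_dec, Finset.sdiff_singleton_eq_erase,
          Finset.union_comm, ← Finset.insert_eq]
    · rintro ⟨F, ⟨hF | ⟨s, hs, rfl⟩, hvF⟩, rfl⟩
      · obtain ⟨f, hf, rfl⟩ := mem_cpxOf.mp hF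
        refine ⟨Nat.xor (Nat.lor f 0) (Nat.pow 2 v), (hR _).mpr (Or.inl ((hR0 _).mpr
          (Or.inr ⟨f, hf, pow_land_iff.mpr hvF, rfl⟩))), ?_⟩
        have h4 : Nat.lor f 0 = f := Nat.or_zero f
        rw [h4, xor_dec hvF, Finset.sdiff_singleton_eq_erase]
      · obtain ⟨f, hf, rfl⟩ := mem_cpxOf.mp hs
        rw [Finset.mem_insert] at hvF
        have hvf : v ∈ dec f := by
          rcases hvF with h5 | h5
          · exact absurd h5 hv
          · exact h5
        have hvu : v ∈ dec (Nat.lor f (Nat.pow 2 p)) := by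
          rw [lor_dec]
          exact Finset.mem_union_left _ hvf
        refine ⟨Nat.xor (Nat.lor f (Nat.pow 2 p)) (Nat.pow 2 v), (hR _).mpr
          (Or.inr ⟨f, hf, pow_land_iff.mpr hvf, rfl⟩), ?_⟩
        rw [xor_dec hvu, lor_dec, two_pow_dec, Finset.sdiff_singleton_eq_erase,
          Finset.union_comm, ← Finset.insert_eq]
  rw [← hlk]
  apply run_sound h2
  intro g hg
  rw [hlk] at hg
  simp only [link, cap, Finset.mem_image, Finset.mem_filter, Finset.mem_union, hbd,
    Finset.singleton_subset_iff] at hg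
  obtain ⟨F, ⟨hF | ⟨s, hs, rfl⟩, hvF⟩, rfl⟩ := hg
  · rw [Finset.sdiff_singleton_eq_erase, Finset.card_erase_of_mem hvF, hpure.2 F hF]
    omega
  · obtain ⟨h6, h7⟩ := hb s hs
    rw [Finset.sdiff_singleton_eq_erase, Finset.card_erase_of_mem hvF,
      Finset.card_insert_of_notMem h7, h6]
    omega

theorem isManifold_of {d : ℕ} {L LY : List ℕ} {p N : ℕ} (hpure : Pure (d + 1) (cpxOf L))
    (hbd : bdry (cpxOf L) = cpxOf LY) (hlt : ∀ m ∈ L, m < 2 ^ N) (hp : N ≤ p)
    (hlk : ∀ v < N, ∃ ms, chkLk L LY (Nat.pow 2 p) v ms = true) :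
    IsManifold (d + 1) (cpxOf L) := by
  have hltv : ∀ F ∈ cpxOf L, ∀ v ∈ F, v < N := by
    intro F hF v hv
    obtain ⟨m, hm, rfl⟩ := mem_cpxOf.mp hF
    have h1 := Nat.ge_two_pow_of_testBit (mem_dec.mp hv)
    have h2 := hlt m hm
    exact (Nat.pow_lt_pow_iff_right (by norm_num)).mp (lt_of_le_of_lt h1 h2)
  have hpn : ∀ F ∈ cpxOf L, p ∉ F := fun F hF h => by
    have := hltv F hF p h
    omega
  refine ⟨hpure, p, hpn, fun v hv => ?_⟩
  obtain ⟨-, F, hF, hvF⟩ := hv
  have hvN : v < N := hltv F hF v (Finset.singleton_subset_iff.mp hvF)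
  obtain ⟨ms, hms⟩ := hlk v hvN
  obtain ⟨m, hm, rfl⟩ := mem_cpxOf.mp hF
  exact sphere_of_chkLk hms hpure hbd hpn (by omega) ⟨m, hm, Finset.singleton_subset_iff.mp hvF⟩

theorem chkRange_sound {L LY : List ℕ} {P : ℕ} {C : List (List ℕ)} {v0 : ℕ}
    (h : chkRange L LY P C v0 = true) (v : ℕ) (h1 : v0 ≤ v) (h2 : v < v0 + C.length) :
    ∃ ms, chkLk L LY P v ms = true := by
  induction C generalizing v0 with
  | nil => simp at h2; omega
  | cons ms C ih =>
    have h0 : nd (chkLk L LY P v0 ms) (chkRange L LY P C (Nat.succ v0)) = true := h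
    obtain ⟨h3, h4⟩ := nd_true h0
    rcases Nat.eq_or_lt_of_le h1 with rfl | h5
    · exact ⟨ms, h3⟩
    · apply ih h4 h5
      rw [List.length_cons] at h2
      omega

theorem pc_sound {k r : ℕ} (h : pc k r = true) : (dec r).card = k := by
  induction k generalizing r with
  | zero =>
    have h0 : r = 0 := beq_iff.mp h
    rw [h0, dec_zero, Finset.card_empty]
  | succ k ih =>
    have h0 : nd (Nat.ble 1 r) (pc k (Nat.xor r (Nat.pow 2 (Nat.log2 r)))) = true := h
    obtain ⟨h1, h2⟩ := nd_true h0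
    have h3 : 1 ≤ r := Nat.le_of_ble_eq_true h1
    have h4 : Nat.log2 r ∈ dec r := mem_dec.mpr (Nat.testBit_log2 (by omega))
    have h5 := ih h2
    rw [xor_dec h4, Finset.card_erase_of_mem h4] at h5
    have h6 : 0 < (dec r).card := Finset.card_pos.mpr ⟨_, h4⟩
    omega

theorem chkPure_sound {k M : ℕ} {L : List ℕ} (h : chkPure k M L = true) :
    ∀ f ∈ L, (dec f).card = k ∧ f < M := by
  induction L with
  | nil => simp
  | cons f L ih =>
    have h0 : nd (pc k f) (nd (Nat.ble (Nat.succ f) M) (chkPure k M L)) = true := h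
    obtain ⟨h1, h2⟩ := nd_true h0
    obtain ⟨h3, h4⟩ := nd_true h2
    intro g hg
    rcases List.mem_cons.mp hg with rfl | hg
    · exact ⟨pc_sound h1, Nat.le_of_ble_eq_true h3⟩
    · exact ih h4 g hg

theorem pure_of {k M : ℕ} {L : List ℕ} (h : chkPure (k + 1) M L = true) (hne : L ≠ []) :
    Pure k (cpxOf L) := by
  refine ⟨?_, fun F hF => ?_⟩
  · obtain ⟨m, hm⟩ := List.exists_mem_of_ne_nil L hne
    exact ⟨dec m, mem_cpxOf.mpr ⟨m, hm, rfl⟩⟩
  · obtain ⟨m, hm, rfl⟩ := mem_cpxOf.mp hF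
    exact (chkPure_sound h m hm).1

end B30

end E8Genera
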