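import Mathlib

/-!
Kernel friendly weighted merge sort (helper48, P8).  Keys are natural numbers, weights are
natural numbers; `coef48 L k` is the sum of the weights of the entries of `L` with key `k`.
-/

namespace Pool.Agent.P8

/-- sum of the weights of the entries with key `k` -/
def coef48 (L : List (ℕ × ℕ)) (k : ℕ) : ℕ := (L.map fun p => if p.1 = k then p.2 else 0).sum

@[simp] lemma coef48_nil (k : ℕ) : coef48 [] k = 0 := rfl

@[simp] lemma coef48_cons (p : ℕ × ℕ) (L : List (ℕ × ℕ)) (k : ℕ) :
    coef48 (p :: L) k = (if p.1 = k then p.2 else 0) + coef48 L k := by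
  simp [coef48]

lemma coef48_append (L M : List (ℕ × ℕ)) (k : ℕ) :
    coef48 (L ++ M) k = coef48 L k + coef48 M k := by
  simp [coef48]

/-- inner loop of the merge -/
def mrgIn48 (x : ℕ × ℕ) (xs : List (ℕ × ℕ)) (r : List (ℕ × ℕ) → List (ℕ × ℕ))
    (l : List (ℕ × ℕ)) : List (ℕ × ℕ) :=
  List.rec (x :: xs) (fun y ys ih =>
    bif Nat.blt x.1 y.1 then x :: r (y :: ys)
    else bif Nat.beq x.1 y.1 then (x.1, x.2 + y.2) :: r ys
    else y :: ih) l

/-- merge of two sorted lists, adding the weights of equal keys -/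
def mrg48 (l : List (ℕ × ℕ)) : List (ℕ × ℕ) → List (ℕ × ℕ) :=
  List.rec (fun ys => ys) (fun x xs ih => mrgIn48 x xs ih) l

lemma mrg48_nil (l : List (ℕ × ℕ)) : mrg48 [] l = l := rfl
lemma mrg48_cons_nil (x : ℕ × ℕ) (xs : List (ℕ × ℕ)) : mrg48 (x :: xs) [] = x :: xs := rfl
lemma mrg48_cons_cons (x y : ℕ × ℕ) (xs ys : List (ℕ × ℕ)) :
    mrg48 (x :: xs) (y :: ys) =
      bif Nat.blt x.1 y.1 then x :: mrg48 xs (y :: ys)
      else bif Nat.beq x.1 y.1 then (x.1, x.2 + y.2) :: mrg48 xs ys
      else y :: mrg48 (x :: xs) ys := rfl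

lemma coef48_mrg48 (k : ℕ) : ∀ l m : List (ℕ × ℕ), coef48 (mrg48 l m) k = coef48 l k + coef48 m k
  | [], m => by simp [mrg48_nil]
  | x :: xs, [] => by simp [mrg48_cons_nil]
  | x :: xs, y :: ys => by
    rw [mrg48_cons_cons]
    by_cases h1 : x.1 < y.1
    · have : Nat.blt x.1 y.1 = true := by simpa [Nat.blt_eq] using h1
      rw [this, cond_true, coef48_cons, coef48_mrg48 k xs (y :: ys)]
      simp only [coef48_cons]; ring
    · have e1 : Nat.blt x.1 y.1 = false := by
        rw [Bool.eq_false_iff]; intro h; exact h1 (by simpa [Nat.blt_eq] using h)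
      rw [e1, cond_false]
      by_cases h2 : x.1 = y.1
      · have : Nat.beq x.1 y.1 = true := by simp [h2]
        rw [this, cond_true, coef48_cons, coef48_mrg48 k xs ys]
        simp only [coef48_cons, ← h2]
        split_ifs <;> ring
      · have e2 : Nat.beq x.1 y.1 = false := by
          rw [Bool.eq_false_iff]; intro h; exact h2 (Nat.eq_of_beq_eq_true h)
        rw [e2, cond_false, coef48_cons, coef48_mrg48 k (x :: xs) ys]
        simp only [coef48_cons]; ring
  termination_by l m => l.length + m.length

/-- one pass of the bottom-up merge sort; the option is a pending run -/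
def pass48 (L : List (List (ℕ × ℕ))) : Option (List (ℕ × ℕ)) → List (List (ℕ × ℕ)) :=
  List.rec (motive := fun _ => Option (List (ℕ × ℕ)) → List (List (ℕ × ℕ)))
    (fun o => Option.rec [] (fun r => [r]) o)
    (fun x _ ih o => Option.rec (ih (some x)) (fun r => mrg48 r x :: ih none) o) L

/-- total coefficient of a list of runs -/
def coefs48 (L : List (List (ℕ × ℕ))) (k : ℕ) : ℕ := (L.map fun l => coef48 l k).sum

lemma coefs48_pass48 (k : ℕ) : ∀ (L : List (List (ℕ × ℕ))) (o : Option (List (ℕ × ℕ))),
    coefs48 (pass48 L o) k = coefs48 L k + (o.map fun l => coef48 l k).getD 0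
  | [], none => rfl
  | [], some r => by
    have : pass48 [] (some r) = [r] := rfl
    rw [this]; simp [coefs48]
  | x :: xs, none => by
    have : pass48 (x :: xs) none = pass48 xs (some x) := rfl
    rw [this, coefs48_pass48 k xs (some x)]
    simp [coefs48]; ring
  | x :: xs, some r => by
    have : pass48 (x :: xs) (some r) = mrg48 r x :: pass48 xs none := rfl
    rw [this]
    have h := coefs48_pass48 k xs none
    simp only [coefs48, List.map_cons, List.sum_cons, coef48_mrg48, Option.map_none,
      Option.getD_none, Option.map_some, Option.getD_some, add_zero] at h ⊢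
    rw [h]; ring

/-- `n` passes, then a final merge of all remaining runs -/
def sort48 (n : ℕ) (L : List (List (ℕ × ℕ))) : List (ℕ × ℕ) :=
  (Nat.rec (motive := fun _ => List (List (ℕ × ℕ)) → List (List (ℕ × ℕ))) (fun L => L)
    (fun _ ih L => ih (pass48 L none)) n L).foldr mrg48 []

lemma coef48_sort48 (k : ℕ) : ∀ (n : ℕ) (L : List (List (ℕ × ℕ))),
    coef48 (sort48 n L) k = coefs48 L k
  | 0, L => by
    have : sort48 0 L = L.foldr mrg48 [] := rfl
    rw [this]
    induction L with
    | nil => rfl
    | cons a L ih =>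
      have : sort48 0 L = L.foldr mrg48 [] := rfl
      simp only [List.foldr_cons, coef48_mrg48, coefs48, List.map_cons, List.sum_cons]
      rw [ih this]; rfl
  | n + 1, L => by
    have : sort48 (n + 1) L = sort48 n (pass48 L none) := rfl
    rw [this, coef48_sort48 k n, coefs48_pass48]
    simp

end Pool.Agent.P8
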