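import Pool.Agent.P8.Code
import Pool.Agent.P8.Srt48

/-!
Orientation and boundary check (helper48, P8, row T5).
-/

namespace E8Genera

open Pool.Agent.P8

/-- the sign coded by a Boolean -/
def sg48 (b : Bool) : ℤ := if b then 1 else -1

/-- the weight coded by a Boolean -/
def wt48 (b : Bool) : ℕ := bif b then 11 else 9

lemma wt48_eq (b : Bool) : (wt48 b : ℤ) = 10 + sg48 b := by cases b <;> rfl

lemma sg48_not (b : Bool) : sg48 (!b) = -sg48 b := by cases b <;> rfl

/-- The faces `m \ {v}`, `v` running through the vertices of `r` from the largest one, with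
alternating weights. -/
def peel48 (m : ℕ) (k : ℕ) : ℕ → Bool → List (ℕ × ℕ) :=
  Nat.rec (motive := fun _ => ℕ → Bool → List (ℕ × ℕ)) (fun _ _ => [])
    (fun _ ih r s => (Nat.xor m (Nat.pow 2 (Nat.log2 r)), wt48 s) ::
      ih (Nat.xor r (Nat.pow 2 (Nat.log2 r))) (!s)) k

lemma peel48_zero (m r : ℕ) (s : Bool) : peel48 m 0 r s = [] := rfl
lemma peel48_succ (m k r : ℕ) (s : Bool) : peel48 m (k + 1) r s =
    (m ^^^ 2 ^ Nat.log2 r, wt48 s) :: peel48 m k (r ^^^ 2 ^ Nat.log2 r) (!s) := rfl

/-- `r` has exactly `k` binary digits `1` -/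
def cnt48 (k : ℕ) : ℕ → Bool :=
  Nat.rec (motive := fun _ => ℕ → Bool) (fun r => Nat.beq r 0)
    (fun _ ih r => bif Nat.beq r 0 then false else ih (Nat.xor r (Nat.pow 2 (Nat.log2 r)))) k

lemma cnt48_zero (r : ℕ) : cnt48 0 r = Nat.beq r 0 := rfl
lemma cnt48_succ (k r : ℕ) : cnt48 (k + 1) r =
    bif Nat.beq r 0 then false else cnt48 k (r ^^^ 2 ^ Nat.log2 r) := rfl

lemma dec_xor_pow48 {m v : ℕ} (h : v ∈ dec m) : dec (m ^^^ 2 ^ v) = (dec m).erase v := by
  ext u
  simp only [mem_dec] at h
  simp only [mem_dec, Nat.testBit_xor, Nat.testBit_two_pow, Finset.mem_erase, ne_eq]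
  by_cases huv : v = u
  · subst huv; simp [h]
  · have : ¬ u = v := fun e => huv e.symm
    simp [huv, this]

lemma log2_mem48 {r : ℕ} (h : r ≠ 0) : Nat.log2 r ∈ dec r := by
  rw [mem_dec]; exact Nat.testBit_log2 h

lemma le_log2_48 {r u : ℕ} (h : u ∈ dec r) : u ≤ Nat.log2 r := by
  rw [mem_dec] at h
  have h1 := Nat.ge_two_pow_of_testBit h
  have h0 : r ≠ 0 := by
    rintro rfl
    simp at h
  exact (Nat.le_log2 h0).mpr h1

lemma card_of_cnt48 : ∀ (k r : ℕ), cnt48 k r = true → (dec r).card = k
  | 0, r, h => by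
    rw [cnt48_zero] at h
    have : r = 0 := Nat.eq_of_beq_eq_true h
    subst this; simp
  | k + 1, r, h => by
    rw [cnt48_succ] at h
    by_cases h0 : r = 0
    · subst h0; simp at h
    · have e : Nat.beq r 0 = false := by
        rw [Bool.eq_false_iff]; intro h'; exact h0 (Nat.eq_of_beq_eq_true h')
      rw [e, cond_false] at h
      have := card_of_cnt48 k _ h
      rw [dec_xor_pow48 (log2_mem48 h0), Finset.card_erase_of_mem (log2_mem48 h0)] at this
      have hp : 0 < (dec r).card := Finset.card_pos.mpr ⟨_, log2_mem48 h0⟩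
      omega

lemma coef_peel48 (m : ℕ) (σ : ℤ) (key : ℕ) : ∀ (k r : ℕ) (s : Bool), cnt48 k r = true →
    dec r ⊆ dec m → (∀ v ∈ dec m, v ∉ dec r → ∀ u ∈ dec r, u < v) →
    (0 < k → sg48 s = σ * (-1) ^ (k - 1)) →
    (coef48 (peel48 m k r s) key : ℤ) =
      ∑ v ∈ dec r, if (dec m).erase v = dec key then 10 + σ * sgn (dec m) v else 0
  | 0, r, s, h, _, _, _ => by
    rw [cnt48_zero] at h
    have : r = 0 := Nat.eq_of_beq_eq_true h
    subst this
    simp [peel48_zero]
  | k + 1, r, s, h, hsub, hord, hs => by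
    rw [cnt48_succ] at h
    have h0 : r ≠ 0 := by rintro rfl; simp at h
    have e : Nat.beq r 0 = false := by
      rw [Bool.eq_false_iff]; intro h'; exact h0 (Nat.eq_of_beq_eq_true h')
    rw [e, cond_false] at h
    set v := Nat.log2 r with hv
    have hvr : v ∈ dec r := log2_mem48 h0
    have hd : dec (r ^^^ 2 ^ v) = (dec r).erase v := dec_xor_pow48 hvr
    have hcard : ((dec r).erase v).card = k := by rw [← hd]; exact card_of_cnt48 k _ h
    have ih := coef_peel48 m σ key k (r ^^^ 2 ^ v) (!s) h
      (by rw [hd]; exact (Finset.erase_subset _ _).trans hsub)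
      (by
        intro w hw hwn u hu
        rw [hd, Finset.mem_erase] at hu hwn
        by_cases hwr : w ∈ dec r
        · have : w = v := by
            by_contra hne; exact hwn ⟨hne, hwr⟩
          subst this
          exact lt_of_le_of_ne (le_log2_48 hu.2) hu.1
        · exact hord w hw hwr u hu.2)
      (by
        intro hk
        rw [sg48_not, hs (Nat.succ_pos k)]
        obtain ⟨j, rfl⟩ : ∃ j, k = j + 1 := ⟨k - 1, by omega⟩
        simp only [Nat.add_sub_cancel]
        ring)
    rw [peel48_succ, coef48_cons]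
    push_cast
    rw [ih, hd, ← Finset.add_sum_erase _ _ hvr]
    congr 1
    have hsg : sgn (dec m) v = (-1) ^ k := by
      unfold sgn
      congr 1
      rw [← hcard]
      congr 1
      ext u
      simp only [Finset.mem_filter, Finset.mem_erase]
      constructor
      · rintro ⟨hu, huv⟩
        refine ⟨huv.ne, ?_⟩
        by_contra hur
        have := hord u hu hur v hvr
        omega
      · rintro ⟨hne, hu⟩
        exact ⟨hsub hu, lt_of_le_of_ne (le_log2_48 hu) hne⟩
    have hs' : sg48 s = σ * (-1) ^ k := by simpa using hs (Nat.succ_pos k)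
    have hkey : (m ^^^ 2 ^ v = key) ↔ (dec m).erase v = dec key := by
      rw [← dec_xor_pow48 (hsub hvr), dec_inj]
    by_cases hk : m ^^^ 2 ^ v = key
    · rw [if_pos hk, if_pos (hkey.mp hk), wt48_eq, hs', hsg]
    · rw [if_neg hk, if_neg (fun h => hk (hkey.mpr h))]

/-- the run of a signed facet of dimension `n` -/
def run48 (n : ℕ) (p : ℕ × Bool) : List (ℕ × ℕ) :=
  peel48 p.1 (n + 1) p.1 (Bool.xor p.2 (Nat.beq (n % 2) 1))

lemma coef_run48 (n : ℕ) (p : ℕ × Bool) (key : ℕ) (h : cnt48 (n + 1) p.1 = true) :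
    (coef48 (run48 n p) key : ℤ) =
      ∑ v ∈ dec p.1, if (dec p.1).erase v = dec key then 10 + sg48 p.2 * sgn (dec p.1) v else 0 := by
  refine coef_peel48 p.1 (sg48 p.2) key (n + 1) p.1 _ h (Finset.Subset.refl _)
    (fun v hv hn => absurd hv hn) (fun _ => ?_)
  simp only [Nat.add_sub_cancel]
  rcases Nat.even_or_odd n with he | ho
  · have e : Nat.beq (n % 2) 1 = false := by rw [Nat.even_iff.mp he]; rfl
    rw [e, he.neg_one_pow]
    simp
  · have e : Nat.beq (n % 2) 1 = true := by rw [Nat.odd_iff.mp ho]; rfl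
    rw [e, ho.neg_one_pow]
    simp [sg48_not]

/-! ### the boundary operator at a simplex -/

lemma bd_zero48 : bd (0 : Chain) = 0 := by simp [bd]

lemma bd_add48 (a b : Chain) : bd (a + b) = bd a + bd b := by
  unfold bd
  rw [Finsupp.sum_add_index']
  · intro s; simp
  · intro s m m'
    rw [← Finset.sum_add_distrib]
    refine Finset.sum_congr rfl fun v _ => ?_
    rw [add_mul, Finsupp.single_add]

lemma bd_single48 (s : Finset ℕ) (m : ℤ) :
    bd (Finsupp.single s m) = ∑ v ∈ s, Finsupp.single (s.erase v) (m * sgn s v) := by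
  unfold bd
  rw [Finsupp.sum_single_index]
  simp

/-- number (as an integer) of incidences of `t` with the facets in the list -/
def num48 (L : List (ℕ × Bool)) (t : Finset ℕ) : ℤ :=
  (L.map fun p => ∑ v ∈ dec p.1, if (dec p.1).erase v = t then (1 : ℤ) else 0).sum

/-- signed number of incidences -/
def sig48 (L : List (ℕ × Bool)) (t : Finset ℕ) : ℤ :=
  (L.map fun p => ∑ v ∈ dec p.1,
    if (dec p.1).erase v = t then sg48 p.2 * sgn (dec p.1) v else 0).sum

lemma chainOf_cons48 (p : ℕ × Bool) (L : List (ℕ × Bool)) :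
    chainOf (p :: L) = Finsupp.single (dec p.1) (sg48 p.2) + chainOf L := by
  simp [chainOf, sg48]

lemma bd_chainOf48 (L : List (ℕ × Bool)) (t : Finset ℕ) : bd (chainOf L) t = sig48 L t := by
  induction L with
  | nil => simp [chainOf, bd_zero48, sig48]
  | cons p L ih =>
    rw [chainOf_cons48, bd_add48, Finsupp.add_apply, ih, bd_single48, Finsupp.finsetSum_apply]
    simp only [sig48, List.map_cons, List.sum_cons, Finsupp.single_apply]

lemma coefs_runs48 (n : ℕ) (L : List (ℕ × Bool)) (key : ℕ)
    (h : ∀ p ∈ L, cnt48 (n + 1) p.1 = true) :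
    (coefs48 (L.map (run48 n)) key : ℤ) = 10 * num48 L (dec key) + sig48 L (dec key) := by
  induction L with
  | nil => simp [coefs48, num48, sig48]
  | cons p L ih =>
    have ih' := ih (fun q hq => h q (List.mem_cons_of_mem _ hq))
    have hp := coef_run48 n p key (h p List.mem_cons_self)
    simp only [coefs48, List.map_cons, List.sum_cons, num48, sig48] at ih' ⊢
    push_cast at ih' ⊢
    rw [ih', hp]
    have e : (∑ v ∈ dec p.1, if (dec p.1).erase v = dec key then
          10 + sg48 p.2 * sgn (dec p.1) v else 0) =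
        10 * (∑ v ∈ dec p.1, if (dec p.1).erase v = dec key then (1 : ℤ) else 0) +
        ∑ v ∈ dec p.1, if (dec p.1).erase v = dec key then sg48 p.2 * sgn (dec p.1) v else 0 := by
      rw [Finset.mul_sum, ← Finset.sum_add_distrib]
      refine Finset.sum_congr rfl fun v _ => ?_
      split_ifs <;> ring
    rw [e]; ring

lemma sgn_abs48 (s : Finset ℕ) (v : ℕ) : sgn s v = 1 ∨ sgn s v = -1 := by
  unfold sgn; exact neg_one_pow_eq_or ℤ _

lemma sig_le_num48 (L : List (ℕ × Bool)) (t : Finset ℕ) :
    sig48 L t ≤ num48 L t ∧ -num48 L t ≤ sig48 L t := by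
  induction L with
  | nil => simp [num48, sig48]
  | cons p L ih =>
    simp only [num48, sig48, List.map_cons, List.sum_cons] at ih ⊢
    have h1 : ∑ v ∈ dec p.1, (if (dec p.1).erase v = t then sg48 p.2 * sgn (dec p.1) v else 0) ≤
        ∑ v ∈ dec p.1, (if (dec p.1).erase v = t then (1 : ℤ) else 0) := by
      refine Finset.sum_le_sum fun v _ => ?_
      split_ifs
      · rcases sgn_abs48 (dec p.1) v with h | h <;> rw [h] <;> cases p.2 <;> simp [sg48]
      · exact le_refl _
    have h2 : -∑ v ∈ dec p.1, (if (dec p.1).erase v = t then (1 : ℤ) else 0) ≤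
        ∑ v ∈ dec p.1, (if (dec p.1).erase v = t then sg48 p.2 * sgn (dec p.1) v else 0) := by
      rw [← Finset.sum_neg_distrib]
      refine Finset.sum_le_sum fun v _ => ?_
      split_ifs
      · rcases sgn_abs48 (dec p.1) v with h | h <;> rw [h] <;> cases p.2 <;> simp [sg48]
      · simp
    constructor <;> linarith [ih.1, ih.2]

/-! ### strictly increasing lists -/

/-- the masks are strictly increasing and larger than the first argument -/
def incr48 (L : List (ℕ × Bool)) : ℕ → Bool :=
  List.rec (motive := fun _ => ℕ → Bool) (fun _ => true)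
    (fun p _ ih q => bif Nat.blt q p.1 then ih p.1 else false) L

lemma incr48_spec : ∀ (L : List (ℕ × Bool)) (q : ℕ), incr48 L q = true →
    (∀ p ∈ L, q < p.1) ∧ (L.map Prod.fst).Nodup
  | [], q, _ => by simp
  | p :: L, q, h => by
    have h' : (bif Nat.blt q p.1 then incr48 L p.1 else false) = true := h
    by_cases hq : Nat.blt q p.1 = true
    · rw [hq, cond_true] at h'
      have hlt : q < p.1 := by simpa [Nat.blt_eq] using hq
      obtain ⟨i1, i2⟩ := incr48_spec L p.1 h'
      refine ⟨?_, ?_⟩
      · intro r hr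
        rcases List.mem_cons.mp hr with rfl | hr
        · exact hlt
        · exact hlt.trans (i1 r hr)
      · rw [List.map_cons, List.nodup_cons]
        refine ⟨?_, i2⟩
        intro hmem
        obtain ⟨r, hr, he⟩ := List.mem_map.mp hmem
        have := i1 r hr
        omega
    · rw [Bool.not_eq_true] at hq
      rw [hq, cond_false] at h'
      exact absurd h' (by simp)

/-- final comparison of the sorted list of faces with the boundary list -/
def fin48 (l : List (ℕ × ℕ)) : ℕ → List (ℕ × Bool) → Bool :=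
  List.rec (motive := fun _ => ℕ → List (ℕ × Bool) → Bool)
    (fun _ Y => List.rec true (fun _ _ _ => false) Y)
    (fun x _ ih q Y => bif Nat.blt q x.1 then
      (bif Nat.beq x.2 20 then ih x.1 Y
        else List.rec false (fun y ys _ => bif Nat.beq x.1 y.1 then
          (bif Nat.beq x.2 (wt48 y.2) then ih x.1 ys else false) else false) Y) else false) l

/-- coefficient of the boundary list -/
def coefY48 (Y : List (ℕ × Bool)) (k : ℕ) : ℕ := (Y.map fun p => if p.1 = k then wt48 p.2 else 0).sum

lemma coef48_zero_of48 {l : List (ℕ × ℕ)} {k : ℕ} (h : ∀ x ∈ l, k < x.1) : coef48 l k = 0 := by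
  induction l with
  | nil => rfl
  | cons x l ih =>
    rw [coef48_cons, ih fun y hy => h y (List.mem_cons_of_mem _ hy), if_neg]
    have := h x List.mem_cons_self
    omega

lemma coefY48_zero_of48 {l : List (ℕ × Bool)} {k : ℕ} (h : ∀ x ∈ l, k < x.1) : coefY48 l k = 0 := by
  induction l with
  | nil => rfl
  | cons x l ih =>
    have ih' := ih fun y hy => h y (List.mem_cons_of_mem _ hy)
    simp only [coefY48, List.map_cons, List.sum_cons] at ih' ⊢
    rw [ih', if_neg]
    have := h x List.mem_cons_self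
    omega

lemma coefY48_cons (p : ℕ × Bool) (L : List (ℕ × Bool)) (k : ℕ) :
    coefY48 (p :: L) k = (if p.1 = k then wt48 p.2 else 0) + coefY48 L k := by
  simp [coefY48]

lemma fin48_spec : ∀ (l : List (ℕ × ℕ)) (q : ℕ) (Y : List (ℕ × Bool)), fin48 l q Y = true →
    (∀ x ∈ l, q < x.1) ∧ (∀ y ∈ Y, q < y.1) ∧
    ∀ k, (coef48 l k = 20 ∧ coefY48 Y k = 0) ∨ (coef48 l k = coefY48 Y k ∧ coefY48 Y k ≤ 11)
  | [], q, [], _ => ⟨by simp, by simp, fun k => Or.inr ⟨rfl, by simp [coefY48]⟩⟩
  | [], q, y :: Y, h => by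
    have : fin48 [] q (y :: Y) = false := rfl
    rw [this] at h; exact absurd h (by simp)
  | x :: l, q, Y, h => by
    have h1 : (bif Nat.blt q x.1 then
      (bif Nat.beq x.2 20 then fin48 l x.1 Y
        else List.rec (motive := fun _ => Bool) false (fun y ys _ => bif Nat.beq x.1 y.1 then
          (bif Nat.beq x.2 (wt48 y.2) then fin48 l x.1 ys else false) else false) Y)
        else false) = true := h
    by_cases hq : Nat.blt q x.1 = true
    swap
    · rw [Bool.not_eq_true] at hq
      rw [hq, cond_false] at h1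
      exact absurd h1 (by simp)
    rw [hq, cond_true] at h1
    have hlt : q < x.1 := by simpa [Nat.blt_eq] using hq
    by_cases h20 : Nat.beq x.2 20 = true
    · rw [h20, cond_true] at h1
      have e20 : x.2 = 20 := Nat.eq_of_beq_eq_true h20
      obtain ⟨i1, i2, i3⟩ := fin48_spec l x.1 Y h1
      refine ⟨?_, fun y hy => hlt.trans (i2 y hy), ?_⟩
      · intro z hz
        rcases List.mem_cons.mp hz with rfl | hz
        · exact hlt
        · exact hlt.trans (i1 z hz)
      · intro k
        rw [coef48_cons]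
        by_cases hk : x.1 = k
        · subst hk
          left
          rw [if_pos rfl, coef48_zero_of48 i1, coefY48_zero_of48 i2, e20]
          exact ⟨rfl, rfl⟩
        · rw [if_neg hk, zero_add]; exact i3 k
    · rw [Bool.not_eq_true] at h20
      rw [h20, cond_false] at h1
      cases Y with
      | nil => exact absurd h1 (by simp)
      | cons y ys =>
        have h2 : (bif Nat.beq x.1 y.1 then
          (bif Nat.beq x.2 (wt48 y.2) then fin48 l x.1 ys else false) else false) = true := h1
        by_cases e1 : Nat.beq x.1 y.1 = true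
        swap
        · rw [Bool.not_eq_true] at e1
          rw [e1, cond_false] at h2
          exact absurd h2 (by simp)
        rw [e1, cond_true] at h2
        by_cases e2 : Nat.beq x.2 (wt48 y.2) = true
        swap
        · rw [Bool.not_eq_true] at e2
          rw [e2, cond_false] at h2
          exact absurd h2 (by simp)
        rw [e2, cond_true] at h2
        have e1' : x.1 = y.1 := Nat.eq_of_beq_eq_true e1
        have e2' : x.2 = wt48 y.2 := Nat.eq_of_beq_eq_true e2
        obtain ⟨i1, i2, i3⟩ := fin48_spec l x.1 ys h2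
        refine ⟨?_, ?_, ?_⟩
        · intro z hz
          rcases List.mem_cons.mp hz with rfl | hz
          · exact hlt
          · exact hlt.trans (i1 z hz)
        · intro z hz
          rcases List.mem_cons.mp hz with rfl | hz
          · rw [← e1']; exact hlt
          · exact hlt.trans (i2 z hz)
        · intro k
          rw [coef48_cons, coefY48_cons]
          by_cases hk : x.1 = k
          · subst hk
            right
            rw [if_pos rfl, if_pos e1'.symm, coef48_zero_of48 i1, coefY48_zero_of48 i2, e2']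
            refine ⟨rfl, ?_⟩
            cases y.2 <;> simp [wt48]
          · rw [if_neg hk, if_neg (fun h => hk (e1'.trans h)), zero_add, zero_add]; exact i3 k

lemma chainOf_apply48 (L : List (ℕ × Bool)) (t : Finset ℕ) :
    chainOf L t = (L.map fun p => if dec p.1 = t then sg48 p.2 else 0).sum := by
  induction L with
  | nil => simp [chainOf]
  | cons p L ih =>
    rw [chainOf_cons48, Finsupp.add_apply, ih, Finsupp.single_apply]
    simp

lemma value48 : ∀ (L : List (ℕ × Bool)) (key : ℕ), (L.map Prod.fst).Nodup →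
    ((∀ p ∈ L, p.1 ≠ key) ∧ coefY48 L key = 0 ∧ chainOf L (dec key) = 0) ∨
    (∃ p ∈ L, p.1 = key ∧ coefY48 L key = wt48 p.2 ∧ chainOf L (dec key) = sg48 p.2)
  | [], key, _ => Or.inl ⟨by simp, by simp [coefY48], by simp [chainOf]⟩
  | p :: L, key, h => by
    rw [List.map_cons, List.nodup_cons] at h
    obtain ⟨h1, h2⟩ := h
    have ih := value48 L key h2
    rw [chainOf_cons48, Finsupp.add_apply, coefY48_cons, Finsupp.single_apply]
    simp only [dec_inj]
    by_cases hk : p.1 = key
    · right
      refine ⟨p, List.mem_cons_self, hk, ?_, ?_⟩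
      · rcases ih with ih | ⟨q, hq, hqk, _⟩
        · rw [if_pos hk, ih.2.1, add_zero]
        · exact absurd (List.mem_map.mpr ⟨q, hq, hqk.trans hk.symm⟩) h1
      · rcases ih with ih | ⟨q, hq, hqk, _⟩
        · rw [if_pos hk, ih.2.2, add_zero]
        · exact absurd (List.mem_map.mpr ⟨q, hq, hqk.trans hk.symm⟩) h1
    · rw [if_neg hk, if_neg hk, zero_add, zero_add]
      rcases ih with ih | ⟨q, hq, ih⟩
      · left
        refine ⟨?_, ih.2⟩
        intro q hq
        rcases List.mem_cons.mp hq with rfl | hq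
        · exact hk
        · exact ih.1 q hq
      · right
        exact ⟨q, List.mem_cons_of_mem _ hq, ih⟩

/-- for a facet with `n + 1` vertices and a set with `n` elements, the number of incidences is
one or zero -/
lemma inc_one48 (n : ℕ) (F t : Finset ℕ) (hF : F.card = n + 1) (ht : t.card = n) :
    (∑ v ∈ F, if F.erase v = t then (1 : ℤ) else 0) = if t ⊆ F then 1 else 0 := by
  by_cases h : t ⊆ F
  · rw [if_pos h]
    have hc : (F \ t).card = 1 := by
      rw [Finset.card_sdiff_of_subset h]; omega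
    obtain ⟨w, hw⟩ := Finset.card_eq_one.mp hc
    have hwF : w ∈ F \ t := by rw [hw]; exact Finset.mem_singleton_self w
    rw [Finset.mem_sdiff] at hwF
    have he : F.erase w = t := by
      rw [← Finset.sdiff_singleton_eq_erase, ← hw]
      exact Finset.sdiff_sdiff_eq_self h
    rw [Finset.sum_eq_single w]
    · rw [if_pos he]
    · intro v hv hne
      rw [if_neg]
      intro hev
      apply hne
      have : w ∉ F.erase v := by rw [hev]; exact hwF.2
      by_contra hvw
      exact this (Finset.mem_erase.mpr ⟨fun e => hvw e.symm, hwF.1⟩)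
    · intro hn; exact absurd hwF.1 hn
  · rw [if_neg h]
    refine Finset.sum_eq_zero fun v _ => ?_
    rw [if_neg]
    intro he
    exact h (he ▸ Finset.erase_subset v F)

lemma num48_eq_card (n : ℕ) (t : Finset ℕ) (ht : t.card = n) : ∀ (L : List (ℕ × Bool)),
    (∀ p ∈ L, (dec p.1).card = n + 1) → (L.map Prod.fst).Nodup →
    num48 L t = (((cpxOf (L.map Prod.fst)).filter fun F => t ⊆ F).card : ℤ)
  | [], _, _ => by simp [num48, cpxOf]
  | p :: L, hc, hn => by
    rw [List.map_cons, List.nodup_cons] at hn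
    have ih := num48_eq_card n t ht L (fun q hq => hc q (List.mem_cons_of_mem _ hq)) hn.2
    have e1 : num48 (p :: L) t = (∑ v ∈ dec p.1, if (dec p.1).erase v = t then (1 : ℤ) else 0) +
        num48 L t := by simp [num48]
    rw [e1, inc_one48 n _ _ (hc p List.mem_cons_self) ht, ih]
    have e2 : cpxOf ((p :: L).map Prod.fst) = insert (dec p.1) (cpxOf (L.map Prod.fst)) := by
      simp [cpxOf]
    rw [e2, Finset.filter_insert]
    by_cases h : t ⊆ dec p.1
    · rw [if_pos h, if_pos h, Finset.card_insert_of_notMem]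
      · push_cast; ring
      · rw [Finset.mem_filter]
        rintro ⟨h1, _⟩
        rw [dec_mem_cpxOf] at h1
        exact hn.1 h1
    · rw [if_neg h, if_neg h, zero_add]

/-- The Boolean check of row T5 (C0). -/
def orCheck48 (n : ℕ) (L LY : List (ℕ × Bool)) : Bool :=
  (!L.isEmpty) && incr48 L 0 && incr48 LY 0 && L.all (fun p => cnt48 (n + 1) p.1) &&
    fin48 (sort48 14 (L.map (run48 n))) 0 LY

theorem orCheck48_sound {n : ℕ} {L LY : List (ℕ × Bool)} (h : orCheck48 n L LY = true) :
    Pure n (cpxOf (L.map Prod.fst)) ∧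
    IsOrientation n (cpxOf (L.map Prod.fst)) (chainOf L) (chainOf LY) ∧
    bdry (cpxOf (L.map Prod.fst)) = cpxOf (LY.map Prod.fst) ∧
    ∀ t : Finset ℕ, t.card = n → ((cpxOf (L.map Prod.fst)).filter fun F => t ⊆ F).card ≤ 2 := by
  simp only [orCheck48, Bool.and_eq_true, Bool.not_eq_true', List.isEmpty_eq_false_iff,
    List.all_eq_true] at h
  obtain ⟨⟨⟨⟨hne, hL⟩, hY⟩, hcnt⟩, hfin⟩ := h
  obtain ⟨_, hLn⟩ := incr48_spec L 0 hL
  obtain ⟨_, hYn⟩ := incr48_spec LY 0 hY
  obtain ⟨_, _, hval⟩ := fin48_spec _ _ _ hfin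
  have hcard : ∀ p ∈ L, (dec p.1).card = n + 1 := fun p hp => card_of_cnt48 _ _ (hcnt p hp)
  have hK : ∀ F ∈ cpxOf (L.map Prod.fst), F.card = n + 1 := by
    intro F hF
    obtain ⟨m, hm, rfl⟩ := mem_cpxOf.mp hF
    obtain ⟨p, hp, rfl⟩ := List.mem_map.mp hm
    exact hcard p hp
  -- the analysis of the values
  have main : ∀ key : ℕ, (num48 L (dec key) = 2 ∧ sig48 L (dec key) = 0 ∧
        (∀ p ∈ LY, p.1 ≠ key) ∧ chainOf LY (dec key) = 0) ∨
      (num48 L (dec key) = 0 ∧ sig48 L (dec key) = 0 ∧
        (∀ p ∈ LY, p.1 ≠ key) ∧ chainOf LY (dec key) = 0) ∨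
      (num48 L (dec key) = 1 ∧ (∃ p ∈ LY, p.1 = key) ∧
        chainOf LY (dec key) = sig48 L (dec key)) := by
    intro key
    have hv := hval key
    have e := coefs_runs48 n L key hcnt
    rw [coef48_sort48] at hv
    obtain ⟨b1, b2⟩ := sig_le_num48 L (dec key)
    rcases value48 LY key hYn with ⟨u1, u2, u3⟩ | ⟨p, hp, hpk, u2, u3⟩
    · rcases hv with ⟨v1, _⟩ | ⟨v1, _⟩
      · left
        rw [v1] at e
        push_cast at e
        exact ⟨by omega, by omega, u1, u3⟩
      · right; left
        rw [v1, u2] at e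
        push_cast at e
        exact ⟨by omega, by omega, u1, u3⟩
    · rcases hv with ⟨_, v2⟩ | ⟨v1, _⟩
      · rw [u2] at v2
        exfalso
        rcases hb : p.2 <;> simp [wt48, hb] at v2
      · right; right
        rw [v1, u2, wt48_eq] at e
        have hs : sg48 p.2 = 1 ∨ sg48 p.2 = -1 := by cases p.2 <;> simp [sg48]
        refine ⟨by rcases hs with hs | hs <;> omega, ⟨p, hp, hpk⟩, ?_⟩
        rw [u3]
        rcases hs with hs | hs <;> omega
  have hpure : Pure n (cpxOf (L.map Prod.fst)) := by
    refine ⟨?_, hK⟩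
    obtain ⟨p, hp⟩ := List.exists_mem_of_ne_nil L hne
    exact ⟨dec p.1, dec_mem_cpxOf.mpr (List.mem_map.mpr ⟨p, hp, rfl⟩)⟩
  refine ⟨hpure, ⟨?_, ?_, ?_⟩, ?_, ?_⟩
  · -- chain
    intro s hs
    rw [Finsupp.mem_support_iff, chainOf_apply48] at hs
    have hex : ∃ p ∈ L, dec p.1 = s := by
      by_contra hcon
      push Not at hcon
      apply hs
      apply List.sum_eq_zero
      intro x hx
      obtain ⟨p, hp, rfl⟩ := List.mem_map.mp hx
      rw [if_neg (hcon p hp)]
    obtain ⟨p, hp, rfl⟩ := hex
    have hmem : dec p.1 ∈ cpxOf (L.map Prod.fst) :=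
      dec_mem_cpxOf.mpr (List.mem_map.mpr ⟨p, hp, rfl⟩)
    refine ⟨⟨?_, dec p.1, hmem, Finset.Subset.refl _⟩, hcard p hp⟩
    rw [← Finset.card_pos, hcard p hp]
    exact Nat.succ_pos n
  · intro F hF
    obtain ⟨m, hm, rfl⟩ := mem_cpxOf.mp hF
    obtain ⟨p, hp, rfl⟩ := List.mem_map.mp hm
    rcases value48 L p.1 hLn with ⟨u1, _, _⟩ | ⟨q, hq, hqk, _, u3⟩
    · exact absurd rfl (u1 p hp)
    · rw [u3]
      cases q.2 <;> simp [sg48]
  · ext t
    obtain ⟨key, rfl⟩ := exists_dec t
    rw [bd_chainOf48]
    rcases main key with ⟨_, h2, _, h4⟩ | ⟨_, h2, _, h4⟩ | ⟨_, _, h3⟩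
    · rw [h2, h4]
    · rw [h2, h4]
    · rw [h3]
  · ext t
    obtain ⟨key, rfl⟩ := exists_dec t
    rw [dec_mem_cpxOf]
    constructor
    · intro ht
      simp only [bdry, Finset.mem_filter, Finset.mem_biUnion, simplexBdry, Finset.mem_image] at ht
      obtain ⟨⟨F, hF, v, hv, he⟩, hc⟩ := ht
      have htc : (dec key).card = n := by
        rw [← he, Finset.card_erase_of_mem hv, hK F hF]; rfl
      have hn := num48_eq_card n (dec key) htc L hcard hLn
      rw [hc] at hn
      rcases main key with ⟨h1, _⟩ | ⟨h1, _⟩ | ⟨_, ⟨p, hp, hpk⟩, _⟩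
      · rw [h1] at hn; norm_num at hn
      · rw [h1] at hn; norm_num at hn
      · exact List.mem_map.mpr ⟨p, hp, hpk⟩
    · intro ht
      obtain ⟨p, hp, hpk⟩ := List.mem_map.mp ht
      rcases main key with ⟨_, _, h3, _⟩ | ⟨_, _, h3, _⟩ | ⟨h1, _, _⟩
      · exact absurd hpk (h3 p hp)
      · exact absurd hpk (h3 p hp)
      · -- an incidence exists
        have hex : ∃ q ∈ L, ∃ v ∈ dec q.1, (dec q.1).erase v = dec key := by
          by_contra hcon
          push Not at hcon
          have : num48 L (dec key) = 0 := by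
            unfold num48
            apply List.sum_eq_zero
            intro x hx
            obtain ⟨q, hq, rfl⟩ := List.mem_map.mp hx
            exact Finset.sum_eq_zero fun v hv => if_neg (hcon q hq v hv)
          omega
        obtain ⟨q, hq, v, hv, he⟩ := hex
        have htc : (dec key).card = n := by
          rw [← he, Finset.card_erase_of_mem hv, hcard q hq]; rfl
        have hn := num48_eq_card n (dec key) htc L hcard hLn
        rw [h1] at hn
        simp only [bdry, Finset.mem_filter, Finset.mem_biUnion, simplexBdry, Finset.mem_image]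
        refine ⟨⟨dec q.1, dec_mem_cpxOf.mpr (List.mem_map.mpr ⟨q, hq, rfl⟩), v, hv, he⟩, ?_⟩
        exact_mod_cast hn.symm
  · intro t ht
    obtain ⟨key, rfl⟩ := exists_dec t
    have hn := num48_eq_card n (dec key) ht L hcard hLn
    rcases main key with ⟨h1, _⟩ | ⟨h1, _⟩ | ⟨h1, _⟩ <;> rw [h1] at hn <;> omega

end E8Genera
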