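import Pool.Agent.P8.Data
import Pool.Agent.P8.Or48

/-! Kernel checks: orientations and boundaries. -/

namespace E8Genera

theorem orX1 : orCheck48 4 OX1 OY = true := by decide +kernel

theorem orX2 : orCheck48 4 OX2 OY = true := by decide +kernel

theorem orY : orCheck48 3 OY [] = true := by decide +kernel

end E8Genera
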