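import Pool.Agent.P8.DatX116

/-!
Certificate checks for the complex number 1.
-/

set_option maxRecDepth 100000

namespace E8Genera

theorem masks116 : leq16 (ms5 V116) (OX1.map Prod.fst) = true := by decide +kernel

theorem ok116 : lall16 F5.ok V116 = true := by decide +kernel

theorem keys116 : leq16 (TX116.keys []) (OX1.map Prod.fst) = true := by decide +kernel

theorem verts116 : lall16 (fun v : F5 => Nat.blt v.e 46) V116 = true := by decide +kernel

theorem nodeE116 : TE116.all (nodeE16 PP16 TE116 TX116) = true := by decide +kernel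

theorem covE116 : lall16 (F5.all2 fun a b => TE116.has (m2 a b)) V116 = true := by decide +kernel

theorem tree116 : chkPar16 PP16 TE116 46 = true := by decide +kernel

theorem nodeT116_ : TT116.all (nodeT16 TT116 TY16 TYf16 TX116 LL116 CR116) = true := by decide +kernel

theorem covT116 : lall16 (F5.all3 fun a b c => bor16 (TT116.has (m3 a b c)) (memY16 TY16 TYf16 (m3 a b c))) V116 = true := by decide +kernel

theorem list116 : chkL16 (OY.map Prod.fst) LL116 [] = true := by decide +kernel

theorem bound116 : TT116.all (fun _ v => bnd16 256 8 v.A) = true := by decide +kernel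

theorem boundO116 : bnd16 256 8 O116 = true := by decide +kernel

theorem digO116 : nall16 (fun i => Nat.beq (dig16 256 i O116) 64) 8 = true := by decide +kernel

theorem coc116 : lall16 (F5.all4 (coc16 TT116 O116)) V116 = true := by decide +kernel

theorem zeroY116 : lall16 (F4.all3 fun a b c => Nat.beq (pk16 TT116 O116 (m3 a b c)) O116) W16 = true := by decide +kernel

theorem zeroL116 : lall16 (fun p : T316 => Nat.beq (pk16 TT116 O116 (m3 p.a p.b p.w)) O116) LL116 = true := by decide +kernel

theorem crit116 : nall16 (fun j => force16 (pk16 TT116 O116 (CR116.getD j 0)) fun x =>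
    nall16 (fun i => Nat.beq (dig16 256 i x)
      (Bool.rec (motive := fun _ => ℕ) 64 (Nat.succ 64) (Nat.beq i j))) 8) 8 = true := by decide +kernel

theorem certE116 : CertE16 V116 (OX1.map Prod.fst) PP16 TE116 TX116 46 :=
  ⟨⟨masks116, ok116⟩, keys116, verts116, nodeE116, covE116, tree116⟩

theorem certT116 : CertT16 V116 (OX1.map Prod.fst) W16 (OY.map Prod.fst) TT116 TY16 TYf16 TX116
    LL116 CR116 8 256 64 O116 :=
  ⟨⟨masks116, ok116⟩, datY16, keys116, keysY16, nodeT116_, covT116, list116, bound116,
    boundO116, digO116, coc116, zeroY116, zeroL116, crit116, by decide +kernel, by decide +kernel⟩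

/-- The cocycles of the complex number 1. -/
noncomputable def alpha116 (i : Fin 8) : Finset ℕ → ℤ := al16 TT116 O116 256 64 i

theorem relCocycle116 (i : Fin 8) : RelCocycle (cpxOf (OX1.map Prod.fst)) (cpxOf (OY.map Prod.fst)) (alpha116 i) :=
  certT116.relCocycle i.2

theorem span116 {A : Type*} [AddCommGroup A] (a : Finset ℕ → A)
    (ha : RelCocycle (cpxOf (OX1.map Prod.fst)) (cpxOf (OY.map Prod.fst)) a) :
    ∃ m : Fin 8 → A, RelCobdry (cpxOf (OX1.map Prod.fst)) (cpxOf (OY.map Prod.fst))
      fun s => a s - ∑ i, alpha116 i s • m i :=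
  certT116.span a ha

end E8Genera
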