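import Pool.Agent.P8.DatX216

/-!
Certificate checks for the complex number 2.
-/

set_option maxRecDepth 100000

namespace E8Genera

theorem masks216 : leq16 (ms5 V216) (OX2.map Prod.fst) = true := by decide +kernel

theorem ok216 : lall16 F5.ok V216 = true := by decide +kernel

theorem keys216 : leq16 (TX216.keys []) (OX2.map Prod.fst) = true := by decide +kernel

theorem verts216 : lall16 (fun v : F5 => Nat.blt v.e 46) V216 = true := by decide +kernel

theorem nodeE216 : TE216.all (nodeE16 PP16 TE216 TX216) = true := by decide +kernel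

theorem covE216 : lall16 (F5.all2 fun a b => TE216.has (m2 a b)) V216 = true := by decide +kernel

theorem tree216 : chkPar16 PP16 TE216 46 = true := by decide +kernel

theorem nodeT216_ : TT216.all (nodeT16 TT216 TY16 TYf16 TX216 LL216 CR216) = true := by decide +kernel

theorem covT216 : lall16 (F5.all3 fun a b c => bor16 (TT216.has (m3 a b c)) (memY16 TY16 TYf16 (m3 a b c))) V216 = true := by decide +kernel

theorem list216 : chkL16 (OY.map Prod.fst) LL216 [] = true := by decide +kernel

theorem bound216 : TT216.all (fun _ v => bnd16 256 24 v.A) = true := by decide +kernel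

theorem boundO216 : bnd16 256 24 O216 = true := by decide +kernel

theorem digO216 : nall16 (fun i => Nat.beq (dig16 256 i O216) 64) 24 = true := by decide +kernel

theorem coc216 : lall16 (F5.all4 (coc16 TT216 O216)) V216 = true := by decide +kernel

theorem zeroY216 : lall16 (F4.all3 fun a b c => Nat.beq (pk16 TT216 O216 (m3 a b c)) O216) W16 = true := by decide +kernel

theorem zeroL216 : lall16 (fun p : T316 => Nat.beq (pk16 TT216 O216 (m3 p.a p.b p.w)) O216) LL216 = true := by decide +kernel

theorem crit216 : nall16 (fun j => force16 (pk16 TT216 O216 (CR216.getD j 0)) fun x =>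
    nall16 (fun i => Nat.beq (dig16 256 i x)
      (Bool.rec (motive := fun _ => ℕ) 64 (Nat.succ 64) (Nat.beq i j))) 24) 24 = true := by decide +kernel

theorem certE216 : CertE16 V216 (OX2.map Prod.fst) PP16 TE216 TX216 46 :=
  ⟨⟨masks216, ok216⟩, keys216, verts216, nodeE216, covE216, tree216⟩

theorem certT216 : CertT16 V216 (OX2.map Prod.fst) W16 (OY.map Prod.fst) TT216 TY16 TYf16 TX216
    LL216 CR216 24 256 64 O216 :=
  ⟨⟨masks216, ok216⟩, datY16, keys216, keysY16, nodeT216_, covT216, list216, bound216,
    boundO216, digO216, coc216, zeroY216, zeroL216, crit216, by decide +kernel, by decide +kernel⟩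

/-- The cocycles of the complex number 2. -/
noncomputable def alpha216 (i : Fin 24) : Finset ℕ → ℤ := al16 TT216 O216 256 64 i

theorem relCocycle216 (i : Fin 24) : RelCocycle (cpxOf (OX2.map Prod.fst)) (cpxOf (OY.map Prod.fst)) (alpha216 i) :=
  certT216.relCocycle i.2

theorem span216 {A : Type*} [AddCommGroup A] (a : Finset ℕ → A)
    (ha : RelCocycle (cpxOf (OX2.map Prod.fst)) (cpxOf (OY.map Prod.fst)) a) :
    ∃ m : Fin 24 → A, RelCobdry (cpxOf (OX2.map Prod.fst)) (cpxOf (OY.map Prod.fst))
      fun s => a s - ∑ i, alpha216 i s • m i :=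
  certT216.span a ha

end E8Genera
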