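import Pool.Agent.P8.Defs

/-!
Encoding of finite sets of naturals by naturals (bit masks), and of complexes and chains by lists.
-/

namespace E8Genera

/-- The set of the positions of the binary digits `1` of `m`. -/
def dec (m : ℕ) : Finset ℕ := m.bitIndices.toFinset

@[simp] theorem mem_dec {v m : ℕ} : v ∈ dec m ↔ m.testBit v = true := by
  simp [dec]

theorem dec_injective : Function.Injective dec := by
  intro a b h
  apply Nat.eq_of_testBit_eq
  intro i
  have : i ∈ dec a ↔ i ∈ dec b := by rw [h]
  simp only [mem_dec] at this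
  rcases ha : a.testBit i <;> rcases hb : b.testBit i <;> simp_all

@[simp] theorem dec_inj {a b : ℕ} : dec a = dec b ↔ a = b := dec_injective.eq_iff

theorem exists_dec (s : Finset ℕ) : ∃ m, dec m = s :=
  ⟨Finset.equivBitIndices.symm s, Finset.equivBitIndices.apply_symm_apply s⟩

@[simp] theorem dec_zero : dec 0 = ∅ := by
  ext v; simp

@[simp] theorem dec_eq_empty {m : ℕ} : dec m = ∅ ↔ m = 0 := by
  rw [← dec_zero, dec_inj]

theorem dec_nonempty {m : ℕ} : (dec m).Nonempty ↔ m ≠ 0 := by
  rw [Finset.nonempty_iff_ne_empty, Ne, dec_eq_empty]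

theorem dec_two_pow (v : ℕ) : dec (2 ^ v) = {v} := by
  simp [dec]

theorem dec_or (a b : ℕ) : dec (a ||| b) = dec a ∪ dec b := by
  ext v; simp

theorem dec_and (a b : ℕ) : dec (a &&& b) = dec a ∩ dec b := by
  ext v; simp

theorem dec_xor_of_subset {a b : ℕ} (h : a &&& b = b) : dec (a ^^^ b) = dec a \ dec b := by
  ext v
  have := congrArg (fun x => Nat.testBit x v) h
  simp only [Nat.testBit_and] at this
  simp only [mem_dec, Nat.testBit_xor, Finset.mem_sdiff]
  rcases ha : a.testBit v <;> rcases hb : b.testBit v <;> simp_all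

theorem dec_sdiff (a b : ℕ) : dec (a ^^^ (a &&& b)) = dec a \ dec b := by
  ext v
  simp only [mem_dec, Nat.testBit_xor, Nat.testBit_and, Finset.mem_sdiff]
  rcases ha : a.testBit v <;> rcases hb : b.testBit v <;> simp_all

theorem dec_subset {a b : ℕ} : dec a ⊆ dec b ↔ a &&& b = a := by
  rw [← dec_inj, dec_and, Finset.inter_eq_left]

theorem dec_disjoint {a b : ℕ} : Disjoint (dec a) (dec b) ↔ a &&& b = 0 := by
  rw [Finset.disjoint_iff_inter_eq_empty, ← dec_and, dec_eq_empty]

/-- The facets of a complex given by a list of masks. -/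
def cpxOf (L : List ℕ) : Cpx := (L.map dec).toFinset

theorem mem_cpxOf {L : List ℕ} {s : Finset ℕ} : s ∈ cpxOf L ↔ ∃ m ∈ L, dec m = s := by
  simp [cpxOf]

theorem dec_mem_cpxOf {L : List ℕ} {m : ℕ} : dec m ∈ cpxOf L ↔ m ∈ L := by
  simp [cpxOf]

/-- The chain with coefficients `1` (`true`) and `-1` (`false`) at the listed masks. -/
noncomputable def chainOf (L : List (ℕ × Bool)) : Chain :=
  (L.map fun p => Finsupp.single (dec p.1) (if p.2 then (1 : ℤ) else -1)).sum

end E8Genera
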