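import Pool.Agent.P8.Elim16

/-!
Vanishing of the first cohomology for all coefficient groups, and connectedness, from an
elimination table of the edges.
-/

namespace E8Genera

/-- A list as a function. -/
noncomputable def par16 (P : List ℕ) (v : ℕ) : ℕ := P.getD v 0

/-- Check of a node of the table of edges. -/
noncomputable def nodeE16 (P : List ℕ) (TE : Tr16 TE16) (TX : Tr16 Unit) (k : ℕ) (v : TE16) :
    Bool :=
  band16 (Nat.beq k (m2 v.a v.b)) (band16 (Nat.blt v.a v.b)
    (band16 (TX.has (m5 v.a v.b v.w v.y v.z))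
      (Nat.rec (motive := fun _ => Bool) (Nat.beq (par16 P v.b) v.a)
        (fun _ _ => band16 (ne316 v.a v.b v.b v.w)
          (band16 (TE.get false (fun u => Nat.blt u.rk v.rk) (m2 v.a v.w))
            (TE.get false (fun u => Nat.blt u.rk v.rk) (m2 v.b v.w)))) v.rk)))

/-- Check of the tree. -/
noncomputable def chkPar16 (P : List ℕ) (TE : Tr16 TE16) (N : ℕ) : Bool :=
  nall16 (fun v => Nat.rec (motive := fun _ => Bool) true
    (fun _ _ => force16 (par16 P v) fun u => band16 (Nat.blt u v) (TE.has (m2 u v))) v) N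

theorem exists_potential16 {A : Type*} [AddCommGroup A] (par : ℕ → ℕ) (x : ℕ → A) (N : ℕ) :
    ∃ G : ℕ → A, ∀ v < N, par v < v → G v = G (par v) + x v := by
  induction N with
  | zero => exact ⟨fun _ => 0, fun v hv => absurd hv (Nat.not_lt_zero v)⟩
  | succ N ih =>
    obtain ⟨G, hG⟩ := ih
    refine ⟨Function.update G N (G (par N) + x N), ?_⟩
    intro v hv hp
    rcases Nat.lt_succ_iff_lt_or_eq.1 hv with h | rfl
    · rw [Function.update_of_ne (by omega), Function.update_of_ne (by omega), hG v h hp]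
    · rw [Function.update_self, Function.update_of_ne (by omega)]

theorem has_mem16 {β : Type} {t : Tr16 β} {x : ℕ} (h : t.has x = true) :
    ∃ v, Tr16.Mem x v t := by
  rcases t.get_cases false (fun _ => true) x with h1 | ⟨v, hv, _⟩
  · unfold Tr16.has at h
    rw [h1] at h
    exact absurd h Bool.false_ne_true
  · exact ⟨v, hv⟩

theorem cobd_edge16 {A : Type*} [AddCommGroup A] (g : Finset ℕ → A) {u v : ℕ} (h : u < v) :
    cobd g {u, v} = g {v} - g {u} := by
  have h1 := congrArg (ev16 g) (bd_edge16 h)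
  rw [ev_bd16, ev_single16, map_sub, ev_single16, ev_single16] at h1
  simpa using h1

/-- The certificate for the edges. -/
structure CertE16 (V : List F5) (L : List ℕ) (P : List ℕ) (TE : Tr16 TE16) (TX : Tr16 Unit)
    (N : ℕ) : Prop where
  dat : Dat5 V L
  keys : leq16 (TX.keys []) L = true
  verts : lall16 (fun v => Nat.blt v.e N) V = true
  node : TE.all (nodeE16 P TE TX) = true
  cov : lall16 (F5.all2 fun a b => TE.has (m2 a b)) V = true
  tree : chkPar16 P TE N = true

theorem CertE16.face {V : List F5} {L P : List ℕ} {TE : Tr16 TE16} {TX : Tr16 Unit} {N : ℕ}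
    (C : CertE16 V L P TE TX N) {k : ℕ} {v : TE16} (h : Tr16.Mem k v TE) :
    k = m2 v.a v.b ∧ v.a < v.b ∧ FaceDim (cpxOf L) 1 {v.a, v.b} := by
  have hn := Tr16.all_iff.1 C.node k v h
  unfold nodeE16 at hn
  rw [band_iff16, band_iff16, band_iff16] at hn
  obtain ⟨h1, h2, h3, _⟩ := hn
  have h2 := lt_of_blt16 h2
  refine ⟨Nat.eq_of_beq_eq_true h1, h2, ⟨⟨v.a, by simp⟩, _,
    dec_mem_cpxOf.2 (Tr16.mem_of_has C.keys h3), ?_⟩, card_pair16 h2⟩
  rw [dec_m5]
  intro x hx
  simp only [Finset.mem_insert, Finset.mem_singleton] at hx ⊢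
  tauto

theorem CertE16.par {V : List F5} {L P : List ℕ} {TE : Tr16 TE16} {TX : Tr16 Unit} {N : ℕ}
    (C : CertE16 V L P TE TX N) {v : ℕ} (hv : v < N) (h0 : v ≠ 0) :
    par16 P v < v ∧ FaceDim (cpxOf L) 1 {par16 P v, v} := by
  have h := nall_iff16.1 C.tree v hv
  obtain ⟨w, rfl⟩ := Nat.exists_eq_succ_of_ne_zero h0
  have h' : force16 (par16 P (w + 1)) (fun u => band16 (Nat.blt u (w + 1))
    (TE.has (m2 u (w + 1)))) = true := h
  rw [force_eq16, band_iff16] at h'
  refine ⟨lt_of_blt16 h'.1, ?_⟩
  obtain ⟨u, hu⟩ := has_mem16 h'.2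
  obtain ⟨h1, _, h3⟩ := C.face hu
  have := congrArg dec h1
  rw [dec_m2, dec_m2] at this
  rw [Nat.succ_eq_add_one, this]
  exact h3

theorem CertE16.hv0 {V : List F5} {L P : List ℕ} {TE : Tr16 TE16} {TX : Tr16 Unit} {N : ℕ}
    (C : CertE16 V L P TE TX N) : HomologyVanishes (cpxOf L) 0 := by
  refine hv0_of_tree (cpxOf L) (par16 P) 0 ?_
  intro v hv
  have hN := C.dat.vert C.verts hv
  by_cases h0 : v = 0
  · exact Or.inl h0
  · right
    obtain ⟨h1, h2⟩ := C.par hN h0
    refine ⟨h1, ?_, h2⟩
    obtain ⟨⟨_, F, hF, hs⟩, _⟩ := h2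
    exact ⟨⟨_, Finset.mem_singleton_self _⟩, F, hF, fun x hx => hs (by
      rw [Finset.mem_singleton] at hx
      rw [hx]; simp)⟩

/-- The first cohomology vanishes for every coefficient group. -/
theorem CertE16.coh1 {V : List F5} {L P : List ℕ} {TE : Tr16 TE16} {TX : Tr16 Unit} {N : ℕ}
    (C : CertE16 V L P TE TX N) {A : Type*} [AddCommGroup A] (a : Finset ℕ → A)
    (ha : ∀ s, FaceDim (cpxOf L) 2 s → cobd a s = 0) :
    ∃ g : Finset ℕ → A, ∀ s, FaceDim (cpxOf L) 1 s → a s = cobd g s := by
  obtain ⟨G, hG⟩ := exists_potential16 (par16 P) (fun v => a {par16 P v, v}) N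
  let g : Finset ℕ → A := fun s => ∑ v ∈ s, G v
  have hg : ∀ v, g {v} = G v := fun v => Finset.sum_singleton _ _
  let b : Finset ℕ → A := fun s => a s - cobd g s
  have hb : ∀ s, FaceDim (cpxOf L) 2 s → cobd b s = 0 := by
    intro s hs
    rw [show cobd b s = cobd a s - cobd (cobd g) s from cobd_sub16 a (cobd g) s, ha s hs,
      cobd_cobd16, sub_zero]
  have key : ∀ n k v, Tr16.Mem k v TE → v.rk = n → b (dec k) = 0 := by
    intro n
    induction n using Nat.strong_induction_on with
    | _ n ih =>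
      intro k v hm hn
      obtain ⟨h1, h2, h3⟩ := C.face hm
      have hnode := Tr16.all_iff.1 C.node k v hm
      unfold nodeE16 at hnode
      rw [band_iff16, band_iff16, band_iff16] at hnode
      obtain ⟨_, _, h4, h5⟩ := hnode
      have hF : dec (m5 v.a v.b v.w v.y v.z) ∈ cpxOf L :=
        dec_mem_cpxOf.2 (Tr16.mem_of_has C.keys h4)
      rw [dec_m5] at hF
      rw [h1, dec_m2]
      cases hr : v.rk with
      | zero =>
        rw [hr] at h5
        have h5 : par16 P v.b = v.a := Nat.eq_of_beq_eq_true h5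
        have hvN : v.b < N := by
          refine C.dat.vert C.verts (v := v.b) ⟨⟨_, Finset.mem_singleton_self _⟩, _, hF, ?_⟩
          intro x hx
          rw [Finset.mem_singleton] at hx
          rw [hx]; simp
        have hp : par16 P v.b < v.b := by omega
        have := hG v.b hvN hp
        rw [h5] at this
        show a {v.a, v.b} - cobd g {v.a, v.b} = 0
        rw [cobd_edge16 g h2, hg, hg, this]
        abel
      | succ r =>
        have h5' : band16 (ne316 v.a v.b v.b v.w)
          (band16 (TE.get false (fun u => Nat.blt u.rk v.rk) (m2 v.a v.w))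
            (TE.get false (fun u => Nat.blt u.rk v.rk) (m2 v.b v.w))) = true := by
          have := h5
          rw [hr] at this ⊢
          exact this
        rw [band_iff16, band_iff16, ne3_iff16] at h5'
        obtain ⟨⟨n1, n2, _⟩, g1, g2⟩ := h5'
        have kn : ∀ x : ℕ, TE.get false (fun u => Nat.blt u.rk v.rk) x = true →
            b (dec x) = 0 := by
          intro x hx
          rcases TE.get_cases false (fun u => Nat.blt u.rk v.rk) x with e | ⟨u, hu, e⟩
          · rw [e] at hx
            exact absurd hx Bool.false_ne_true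
          · rw [e] at hx
            have hx' : u.rk < v.rk := lt_of_blt16 hx
            exact ih u.rk (by omega) _ u hu rfl
        have k1 := kn _ g1
        have k2 := kn _ g2
        rw [dec_m2] at k1 k2
        have ht : FaceDim (cpxOf L) 2 {v.a, v.b, v.w} := by
          refine ⟨⟨⟨v.a, by simp⟩, _, hF, ?_⟩, card_triple16 (by omega) (by omega) (by omega)⟩
          intro x hx
          simp only [Finset.mem_insert, Finset.mem_singleton] at hx ⊢
          tauto
        have e3 : ({v.a, v.b, v.w} : Finset ℕ).erase v.w = {v.a, v.b} := by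
          ext x; simp only [Finset.mem_erase, Finset.mem_insert, Finset.mem_singleton]; omega
        have e1 : ({v.a, v.b, v.w} : Finset ℕ).erase v.a = {v.b, v.w} := by
          ext x; simp only [Finset.mem_erase, Finset.mem_insert, Finset.mem_singleton]; omega
        have e2 : ({v.a, v.b, v.w} : Finset ℕ).erase v.b = {v.a, v.w} := by
          ext x; simp only [Finset.mem_erase, Finset.mem_insert, Finset.mem_singleton]; omega
        rw [← e3]
        refine kill16 (by simp) (hb _ ht) ?_
        intro x hx hne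
        simp only [Finset.mem_insert, Finset.mem_singleton] at hx
        rcases hx with rfl | rfl | rfl
        · rw [e1]; exact k2
        · rw [e2]; exact k1
        · exact absurd rfl hne
  refine ⟨g, ?_⟩
  intro s hs
  obtain ⟨x, y, rfl, _, hp⟩ := C.dat.all2 C.cov hs
  obtain ⟨v, hv⟩ := has_mem16 hp
  have := key _ _ v hv rfl
  rw [dec_m2] at this
  exact sub_eq_zero.1 this

theorem CertE16.hv1 {V : List F5} {L P : List ℕ} {TE : Tr16 TE16} {TX : Tr16 Unit} {N : ℕ}
    (C : CertE16 V L P TE TX N) : HomologyVanishes (cpxOf L) 1 :=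
  hv1_of_coh _ fun _ _ a ha => C.coh1 a ha

/-- Check of the tree in the boundary. -/
noncomputable def chkParY16 (P : List ℕ) (LY : List ℕ) (N : ℕ) : Bool :=
  nall16 (fun v => Nat.rec (motive := fun _ => Bool) true
    (fun _ _ => force16 (par16 P v) fun u => band16 (Nat.blt u v)
      (force16 (m2 u v) fun x => lany16 (fun m => Nat.beq (Nat.land x m) x) LY)) v) N

theorem hv0_Y16 {V : List F4} {L P : List ℕ} {N : ℕ} (D : Dat4 V L)
    (hv : lall16 (fun v => Nat.blt v.d N) V = true) (h : chkParY16 P L N = true) :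
    HomologyVanishes (cpxOf L) 0 := by
  refine hv0_of_tree (cpxOf L) (par16 P) 0 ?_
  intro v hv'
  have hN := D.vert hv hv'
  by_cases h0 : v = 0
  · exact Or.inl h0
  · right
    have h := nall_iff16.1 h v hN
    obtain ⟨w, rfl⟩ := Nat.exists_eq_succ_of_ne_zero h0
    have h' : force16 (par16 P (w + 1)) (fun u => band16 (Nat.blt u (w + 1))
      (force16 (m2 u (w + 1)) fun x => lany16 (fun m => Nat.beq (Nat.land x m) x) L)) = true := h
    rw [force_eq16, band_iff16, force_eq16, lany_iff16] at h'
    obtain ⟨h1, m, hm, h2⟩ := h'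
    have h1 := lt_of_blt16 h1
    have h2 : dec (m2 (par16 P (w + 1)) (w + 1)) ⊆ dec m :=
      dec_subset.2 (Nat.eq_of_beq_eq_true h2)
    rw [dec_m2] at h2
    refine ⟨h1, ⟨⟨_, Finset.mem_singleton_self _⟩, dec m, dec_mem_cpxOf.2 hm, ?_⟩,
      ⟨⟨_, Finset.mem_insert_self _ _⟩, dec m, dec_mem_cpxOf.2 hm, h2⟩, card_pair16 h1⟩
    intro x hx
    rw [Finset.mem_singleton] at hx
    exact h2 (by rw [hx]; simp)

end E8Genera
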