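import Mathlib

/-!
Finite simplicial complexes with vertices in the naturals, combinatorial (PL) manifolds with
boundary, oriented boundary, simplicial homology over the integers, intersection form and spin
condition of a compact oriented combinatorial 4-manifold, and the four genera of a homology
3-sphere.
-/

namespace E8Genera

/-- A finite simplicial complex, given by the finite set of its facets; vertices are naturals. -/
abbrev Cpx := Finset (Finset ℕ)

/-- `s` is a face (nonempty simplex) of `K`. -/
def Face (K : Cpx) (s : Finset ℕ) : Prop := s.Nonempty ∧ ∃ F ∈ K, s ⊆ F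

/-- `s` is a face of `K` of dimension `k`. -/
def FaceDim (K : Cpx) (k : ℕ) (s : Finset ℕ) : Prop := Face K s ∧ s.card = k + 1

/-- All facets of `K` are `n`-simplices, and there is at least one. -/
def Pure (n : ℕ) (K : Cpx) : Prop := K.Nonempty ∧ ∀ F ∈ K, F.card = n + 1

/-- The link of the simplex `s` in `K`; it is `{∅}` if `s` is a facet. -/
def link (K : Cpx) (s : Finset ℕ) : Cpx := (K.filter fun F => s ⊆ F).image fun F => F \ s

/-- The boundary complex of a simplex. -/
def simplexBdry (s : Finset ℕ) : Cpx := s.image fun v => s.erase v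

/-- A bistellar move (Pachner move) of `n`-dimensional complexes: the subcomplex `s * ∂t` of `K`
is replaced by `∂s * t`, where `t` is not a face of `K` and the link of `s` in `K` is `∂t`. -/
def Bistellar (n : ℕ) (K K' : Cpx) : Prop :=
  ∃ s t : Finset ℕ, s.Nonempty ∧ t.Nonempty ∧ Disjoint s t ∧ s.card + t.card = n + 2 ∧
    link K s = simplexBdry t ∧ ¬ Face K t ∧
    K' = (K.filter fun F => ¬ s ⊆ F) ∪ (simplexBdry s).image fun F => F ∪ t

/-- PL `n`-spheres: the complexes related by bistellar moves to the boundary of an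
`(n + 1)`-simplex (Pachner's theorem). -/
def IsSphere (n : ℕ) (K : Cpx) : Prop :=
  ∃ s : Finset ℕ, s.card = n + 2 ∧ Relation.EqvGen (Bistellar n) (simplexBdry s) K

/-- The boundary complex of a pure complex: the faces `F \ {v}` of facets that lie in exactly one
facet. -/
def bdry (K : Cpx) : Cpx :=
  (K.biUnion simplexBdry).filter fun s => (K.filter fun F => s ⊆ F).card = 1

/-- `K` together with the cone over its boundary with apex `p`. -/
def cap (K : Cpx) (p : ℕ) : Cpx := K ∪ (bdry K).image fun s => insert p s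

/-- Compact combinatorial (PL) `n`-manifold with (possibly empty) boundary: the link of each
vertex is a PL `(n - 1)`-sphere once the cone over its boundary is added (so it is a PL sphere for
the interior vertices and a PL ball for the vertices of the boundary); here `p` is a new vertex. -/
def IsManifold (n : ℕ) (K : Cpx) : Prop :=
  Pure n K ∧ ∃ p : ℕ, (∀ F ∈ K, p ∉ F) ∧
    ∀ v : ℕ, Face K {v} → IsSphere (n - 1) (link (cap K p) {v})

/-- Integral simplicial chains. -/
abbrev Chain := Finset ℕ →₀ ℤ

/-- The incidence sign of the face `s \ {v}` of `s`: minus one to the number of vertices of `s`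
before `v`. -/
def sgn (s : Finset ℕ) (v : ℕ) : ℤ := (-1) ^ (s.filter fun w => w < v).card

/-- The simplicial boundary operator (augmented: the boundary of a vertex is the empty simplex). -/
noncomputable def bd (c : Chain) : Chain :=
  c.sum fun s m => ∑ v ∈ s, Finsupp.single (s.erase v) (m * sgn s v)

/-- `c` is a chain of dimension `k` of `K`. -/
def IsChain (K : Cpx) (k : ℕ) (c : Chain) : Prop := ∀ s ∈ c.support, FaceDim K k s

/-- The (reduced) integral homology of `K` in degree `k` vanishes. -/
def HomologyVanishes (K : Cpx) (k : ℕ) : Prop :=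
  ∀ c, IsChain K k c → bd c = 0 → ∃ d, IsChain K (k + 1) d ∧ bd d = c

/-- `c` is an orientation (fundamental chain) of the pure `n`-dimensional complex `K`, with
oriented boundary `z`. -/
def IsOrientation (n : ℕ) (K : Cpx) (c z : Chain) : Prop :=
  IsChain K n c ∧ (∀ F ∈ K, c F = 1 ∨ c F = -1) ∧ bd c = z

/-- `Y` with the orientation `z` is a homology 3-sphere: a closed connected oriented combinatorial
3-manifold with `H₁(Y; ℤ) = 0` (so `H₂(Y; ℤ) = 0` by Poincaré duality). -/
def IsHomologySphere (Y : Cpx) (z : Chain) : Prop :=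
  IsManifold 3 Y ∧ bdry Y = ∅ ∧ IsOrientation 3 Y z 0 ∧ HomologyVanishes Y 0 ∧ HomologyVanishes Y 1

/-- `X` with the orientation `c` is a bounding of `(Y, z)`: a compact connected oriented
combinatorial 4-manifold with oriented boundary `(Y, z)` and `H₁(X; ℤ) = 0`. -/
def IsBounding (X : Cpx) (c : Chain) (Y : Cpx) (z : Chain) : Prop :=
  IsManifold 4 X ∧ bdry X = Y ∧ IsOrientation 4 X c z ∧ HomologyVanishes X 0 ∧ HomologyVanishes X 1

section Cochains

variable {A : Type*} [AddCommGroup A]

/-- The simplicial coboundary of a cochain with values in `A`. -/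
def cobd (a : Finset ℕ → A) (s : Finset ℕ) : A := ∑ v ∈ s, sgn s v • a (s.erase v)

/-- `a` is a relative 2-cocycle of `(X, Y)`. -/
def RelCocycle (X Y : Cpx) (a : Finset ℕ → A) : Prop :=
  (∀ s, FaceDim Y 2 s → a s = 0) ∧ (∀ s, FaceDim X 3 s → cobd a s = 0)

/-- `a` is (on the 2-simplices of `X`) the coboundary of a relative 1-cochain of `(X, Y)`. -/
def RelCobdry (X Y : Cpx) (a : Finset ℕ → A) : Prop :=
  ∃ b : Finset ℕ → A, (∀ s, FaceDim Y 1 s → b s = 0) ∧ (∀ s, FaceDim X 2 s → a s = cobd b s)

end Cochains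

/-- The three smallest vertices of a 4-simplex. -/
def front (s : Finset ℕ) : Finset ℕ := s.filter fun v => (s.filter fun w => w < v).card < 3

/-- The three largest vertices of a 4-simplex. -/
def back (s : Finset ℕ) : Finset ℕ := s.filter fun v => (s.filter fun w => v < w).card < 3

/-- The cup product of the 2-cochains `a`, `b`, evaluated on the 4-chain `c`. -/
noncomputable def cupEval {R : Type*} [CommRing R] (c : Chain) (a b : Finset ℕ → R) : R :=
  c.sum fun s m => m • (a (front s) * b (back s))

/-- `G` is the matrix, in some basis, of the intersection form of the 4-manifold `X` with boundary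
`Y` and orientation `c`, that is, of the cup product form on `H²(X, Y; ℤ)`. -/
def HasForm {ι : Type} [Fintype ι] (X Y : Cpx) (c : Chain) (G : Matrix ι ι ℤ) : Prop :=
  ∃ α : ι → Finset ℕ → ℤ, (∀ i, RelCocycle X Y (α i)) ∧
    (∀ a : Finset ℕ → ℤ, RelCocycle X Y a →
      ∃! m : ι → ℤ, RelCobdry X Y fun s => a s - ∑ i, m i * α i s) ∧
    (∀ i j, cupEval c (α i) (α j) = G i j)

/-- The spin condition `w₂ = v₂ = 0`: the square of every class of `H²(X, Y; ℤ/2)` vanishes. -/
def IsSpin (X Y : Cpx) (c : Chain) : Prop :=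
  ∀ a : Finset ℕ → ZMod 2, RelCocycle X Y a → cupEval c a a = 0

/-- A positive or negative definite integral matrix. -/
def IsDefinite {ι : Type} [Fintype ι] (G : Matrix ι ι ℤ) : Prop :=
  (∀ x : ι → ℤ, x ≠ 0 → 0 < x ⬝ᵥ G.mulVec x) ∨ (∀ x : ι → ℤ, x ≠ 0 → x ⬝ᵥ G.mulVec x < 0)

/-- `(Y, z)` has a definite spin bounding with second Betti number `8 k` (an even unimodular
definite form has rank divisible by 8, so the rank `8 k` is no restriction). -/
def DefiniteSpinBounds (Y : Cpx) (z : Chain) (k : ℕ) : Prop :=
  ∃ (X : Cpx) (c : Chain) (G : Matrix (Fin (8 * k)) (Fin (8 * k)) ℤ),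
    IsBounding X c Y z ∧ IsSpin X Y c ∧ HasForm X Y c G ∧ IsDefinite G

/-- The orthogonal sum of `k` copies of the (positive definite) `E₈` form. -/
def kE8 (k : ℕ) : Matrix (Fin 8 × Fin k) (Fin 8 × Fin k) ℤ :=
  Matrix.blockDiagonal fun _ : Fin k => CartanMatrix.E₈

/-- `(Y, z)` has an `E₈`-bounding with intersection form `k E₈` or `-k E₈`. -/
def E8Bounds (Y : Cpx) (z : Chain) (k : ℕ) : Prop :=
  ∃ (X : Cpx) (c : Chain), IsBounding X c Y z ∧ IsSpin X Y c ∧
    (HasForm X Y c (kE8 k) ∨ HasForm X Y c (-kE8 k))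

open Classical in
/-- The maximum of a set of naturals, `∞` if it is empty. -/
noncomputable def genusMax (S : ℕ → Prop) : ℕ∞ :=
  if ∃ k, S k then ⨆ k : {k // S k}, ((k : ℕ) : ℕ∞) else ⊤

/-- The minimum of a set of naturals, `∞` if it is empty. -/
noncomputable def genusMin (S : ℕ → Prop) : ℕ∞ := ⨅ k : {k // S k}, ((k : ℕ) : ℕ∞)

/-- The invariant `ds`. -/
noncomputable def ds (Y : Cpx) (z : Chain) : ℕ∞ := genusMax (DefiniteSpinBounds Y z)

/-- The invariant `ds` with a bar. -/
noncomputable def dsBar (Y : Cpx) (z : Chain) : ℕ∞ := genusMin (DefiniteSpinBounds Y z)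

/-- The invariant `g₈`. -/
noncomputable def g8 (Y : Cpx) (z : Chain) : ℕ∞ := genusMax (E8Bounds Y z)

/-- The invariant `g₈` with a bar. -/
noncomputable def g8Bar (Y : Cpx) (z : Chain) : ℕ∞ := genusMin (E8Bounds Y z)

/-- At least one of the three alternatives (i), (ii), (iii) of the question holds. -/
def Answer (Y : Cpx) (z : Chain) : Prop :=
  ((∃ k, E8Bounds Y z k) ∧ g8Bar Y z < g8 Y z) ∨ ds Y z ≠ g8 Y z ∨ dsBar Y z ≠ g8Bar Y z

/-- Definite spin boundings of ranks 8 and 24 give the answer. -/
theorem answer_of (Y : Cpx) (z : Chain) (h1 : DefiniteSpinBounds Y z 1)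
    (h3 : DefiniteSpinBounds Y z 3) : Answer Y z := by
  classical
  have a1 : dsBar Y z ≤ 1 := by
    have := iInf_le (fun k : {k // DefiniteSpinBounds Y z k} => ((k : ℕ) : ℕ∞)) ⟨1, h1⟩
    simpa [dsBar, genusMin] using this
  have a3 : (3 : ℕ∞) ≤ ds Y z := by
    have := le_iSup (fun k : {k // DefiniteSpinBounds Y z k} => ((k : ℕ) : ℕ∞)) ⟨3, h3⟩
    have hne : ∃ k, DefiniteSpinBounds Y z k := ⟨3, h3⟩
    simpa [ds, genusMax, hne] using this
  by_cases h : ds Y z = g8 Y z
  · by_cases h' : dsBar Y z = g8Bar Y z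
    · left
      rw [h'] at a1
      refine ⟨?_, lt_of_le_of_lt a1 (lt_of_lt_of_le (by norm_num) (h ▸ a3))⟩
      by_contra hne
      have : IsEmpty {k // E8Bounds Y z k} := ⟨fun k => hne ⟨k.1, k.2⟩⟩
      have : g8Bar Y z = ⊤ := by simp [g8Bar, genusMin]
      rw [this] at a1
      exact absurd a1 (by decide)
    · right; right; exact h'
  · right; left; exact h

end E8Genera
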