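import Pool.Agent.P8.Tree16

/-!
Subsets of an explicit set of five or four naturals, and the faces of complexes given by lists.
-/

namespace E8Genera

theorem sort_mem_sublists16 {l : List ℕ} (hl : l.Pairwise (· < ·)) {s : Finset ℕ}
    (hs : s ⊆ l.toFinset) : s.sort (· ≤ ·) ∈ List.sublistsLen s.card l := by
  rw [List.mem_sublistsLen]
  refine ⟨?_, by simp⟩
  have h1 : (s.sort (· ≤ ·)).Pairwise (· ≤ ·) := Finset.pairwise_sort s (· ≤ ·)
  have h2 : l.Pairwise (· ≤ ·) := hl.imp le_of_lt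
  refine List.sublist_of_subperm_of_pairwise ?_ h1 h2
  refine List.subperm_of_subset (Finset.sort_nodup s _) ?_
  intro x hx
  have : x ∈ s := (Finset.mem_sort _).1 hx
  exact List.mem_toFinset.1 (hs this)

theorem eq_toFinset_of_sort16 {s : Finset ℕ} {l : List ℕ} (h : s.sort (· ≤ ·) = l) :
    s = l.toFinset := by
  rw [← h, Finset.sort_toFinset]

theorem sub5_4_16 {a b c d e : ℕ} (h1 : a < b) (h2 : b < c) (h3 : c < d) (h4 : d < e)
    {s : Finset ℕ} (hs : s ⊆ {a, b, c, d, e}) (hc : s.card = 4) :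
    s = {a, b, c, d} ∨ s = {a, b, c, e} ∨ s = {a, b, d, e} ∨ s = {a, c, d, e} ∨
      s = {b, c, d, e} := by
  have hl : [a, b, c, d, e].Pairwise (· < ·) := by
    simp; omega
  have := sort_mem_sublists16 hl (s := s) (by simpa using hs)
  rw [hc] at this
  have e1 : List.sublistsLen 4 [a, b, c, d, e] = [[b, c, d, e], [a, c, d, e], [a, b, d, e],
    [a, b, c, e], [a, b, c, d]] := by
    simp [List.sublistsLen, List.sublistsLenAux]
  rw [e1] at this
  simp only [List.mem_cons, List.not_mem_nil, or_false] at this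
  rcases this with h | h | h | h | h <;> have h' := eq_toFinset_of_sort16 h <;>
    simp only [List.toFinset_cons, List.toFinset_nil, insert_empty_eq] at h' <;> simp [h']

theorem sub5_3_16 {a b c d e : ℕ} (h1 : a < b) (h2 : b < c) (h3 : c < d) (h4 : d < e)
    {s : Finset ℕ} (hs : s ⊆ {a, b, c, d, e}) (hc : s.card = 3) :
    s = {a, b, c} ∨ s = {a, b, d} ∨ s = {a, b, e} ∨ s = {a, c, d} ∨ s = {a, c, e} ∨
      s = {a, d, e} ∨ s = {b, c, d} ∨ s = {b, c, e} ∨ s = {b, d, e} ∨ s = {c, d, e} := by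
  have hl : [a, b, c, d, e].Pairwise (· < ·) := by
    simp; omega
  have := sort_mem_sublists16 hl (s := s) (by simpa using hs)
  rw [hc] at this
  have e1 : List.sublistsLen 3 [a, b, c, d, e] = [[c, d, e], [b, d, e], [b, c, e], [b, c, d],
    [a, d, e], [a, c, e], [a, c, d], [a, b, e], [a, b, d], [a, b, c]] := by
    simp [List.sublistsLen, List.sublistsLenAux]
  rw [e1] at this
  simp only [List.mem_cons, List.not_mem_nil, or_false] at this
  rcases this with h | h | h | h | h | h | h | h | h | h <;>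
    have h' := eq_toFinset_of_sort16 h <;>
    simp only [List.toFinset_cons, List.toFinset_nil, insert_empty_eq] at h' <;> simp [h']

theorem sub5_2_16 {a b c d e : ℕ} (h1 : a < b) (h2 : b < c) (h3 : c < d) (h4 : d < e)
    {s : Finset ℕ} (hs : s ⊆ {a, b, c, d, e}) (hc : s.card = 2) :
    s = {a, b} ∨ s = {a, c} ∨ s = {a, d} ∨ s = {a, e} ∨ s = {b, c} ∨
      s = {b, d} ∨ s = {b, e} ∨ s = {c, d} ∨ s = {c, e} ∨ s = {d, e} := by
  have hl : [a, b, c, d, e].Pairwise (· < ·) := by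
    simp; omega
  have := sort_mem_sublists16 hl (s := s) (by simpa using hs)
  rw [hc] at this
  have e1 : List.sublistsLen 2 [a, b, c, d, e] = [[d, e], [c, e], [c, d], [b, e], [b, d], [b, c],
    [a, e], [a, d], [a, c], [a, b]] := by
    simp [List.sublistsLen, List.sublistsLenAux]
  rw [e1] at this
  simp only [List.mem_cons, List.not_mem_nil, or_false] at this
  rcases this with h | h | h | h | h | h | h | h | h | h <;>
    have h' := eq_toFinset_of_sort16 h <;>
    simp only [List.toFinset_cons, List.toFinset_nil, insert_empty_eq] at h' <;> simp [h']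

theorem sub4_3_16 {a b c d : ℕ} (h1 : a < b) (h2 : b < c) (h3 : c < d)
    {s : Finset ℕ} (hs : s ⊆ {a, b, c, d}) (hc : s.card = 3) :
    s = {a, b, c} ∨ s = {a, b, d} ∨ s = {a, c, d} ∨ s = {b, c, d} := by
  have hl : [a, b, c, d].Pairwise (· < ·) := by
    simp; omega
  have := sort_mem_sublists16 hl (s := s) (by simpa using hs)
  rw [hc] at this
  have e1 : List.sublistsLen 3 [a, b, c, d] = [[b, c, d], [a, c, d], [a, b, d], [a, b, c]] := by
    simp [List.sublistsLen, List.sublistsLenAux]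
  rw [e1] at this
  simp only [List.mem_cons, List.not_mem_nil, or_false] at this
  rcases this with h | h | h | h <;> have h' := eq_toFinset_of_sort16 h <;>
    simp only [List.toFinset_cons, List.toFinset_nil, insert_empty_eq] at h' <;> simp [h']

/-- Masks of simplices. -/
noncomputable def m2 (a b : ℕ) : ℕ := Nat.lor (Nat.pow 2 a) (Nat.pow 2 b)
/-- Masks of simplices. -/
noncomputable def m3 (a b c : ℕ) : ℕ := Nat.lor (m2 a b) (Nat.pow 2 c)
/-- Masks of simplices. -/
noncomputable def m4 (a b c d : ℕ) : ℕ := Nat.lor (m3 a b c) (Nat.pow 2 d)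
/-- Masks of simplices. -/
noncomputable def m5 (a b c d e : ℕ) : ℕ := Nat.lor (m4 a b c d) (Nat.pow 2 e)

theorem dec_m2 (a b : ℕ) : dec (m2 a b) = {a, b} := by
  have : m2 a b = 2 ^ a ||| 2 ^ b := rfl
  rw [this, dec_or, dec_two_pow, dec_two_pow]
  rfl

theorem dec_m3 (a b c : ℕ) : dec (m3 a b c) = {a, b, c} := by
  have : m3 a b c = m2 a b ||| 2 ^ c := rfl
  rw [this, dec_or, dec_m2, dec_two_pow]
  ext x; simp only [Finset.mem_union, Finset.mem_insert, Finset.mem_singleton]; tauto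

theorem dec_m4 (a b c d : ℕ) : dec (m4 a b c d) = {a, b, c, d} := by
  have : m4 a b c d = m3 a b c ||| 2 ^ d := rfl
  rw [this, dec_or, dec_m3, dec_two_pow]
  ext x; simp only [Finset.mem_union, Finset.mem_insert, Finset.mem_singleton]; tauto

theorem dec_m5 (a b c d e : ℕ) : dec (m5 a b c d e) = {a, b, c, d, e} := by
  have : m5 a b c d e = m4 a b c d ||| 2 ^ e := rfl
  rw [this, dec_or, dec_m4, dec_two_pow]
  ext x; simp only [Finset.mem_union, Finset.mem_insert, Finset.mem_singleton]; tauto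

/-- Five vertices. -/
structure F5 where
  a : ℕ
  b : ℕ
  c : ℕ
  d : ℕ
  e : ℕ

/-- Four vertices. -/
structure F4 where
  a : ℕ
  b : ℕ
  c : ℕ
  d : ℕ

/-- The mask of a facet. -/
noncomputable def F5.m (v : F5) : ℕ := m5 v.a v.b v.c v.d v.e
/-- The mask of a facet. -/
noncomputable def F4.m (v : F4) : ℕ := m4 v.a v.b v.c v.d
/-- The vertices are increasing. -/
noncomputable def F5.ok (v : F5) : Bool :=
  band16 (Nat.blt v.a v.b) (band16 (Nat.blt v.b v.c) (band16 (Nat.blt v.c v.d) (Nat.blt v.d v.e)))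
/-- The vertices are increasing. -/
noncomputable def F4.ok (v : F4) : Bool :=
  band16 (Nat.blt v.a v.b) (band16 (Nat.blt v.b v.c) (Nat.blt v.c v.d))

theorem lt_of_blt16 {a b : ℕ} (h : Nat.blt a b = true) : a < b := by
  simpa using h

theorem F5.ok_iff {v : F5} (h : v.ok = true) : v.a < v.b ∧ v.b < v.c ∧ v.c < v.d ∧ v.d < v.e := by
  unfold F5.ok at h
  simp only [band_iff16] at h
  exact ⟨lt_of_blt16 h.1, lt_of_blt16 h.2.1, lt_of_blt16 h.2.2.1, lt_of_blt16 h.2.2.2⟩

theorem F4.ok_iff {v : F4} (h : v.ok = true) : v.a < v.b ∧ v.b < v.c ∧ v.c < v.d := by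
  unfold F4.ok at h
  simp only [band_iff16] at h
  exact ⟨lt_of_blt16 h.1, lt_of_blt16 h.2.1, lt_of_blt16 h.2.2⟩

/-- The list of masks of a list of facets. -/
noncomputable def ms5 (l : List F5) : List ℕ :=
  List.rec (motive := fun _ => List ℕ) [] (fun v _ ih => v.m :: ih) l
/-- The list of masks of a list of facets. -/
noncomputable def ms4 (l : List F4) : List ℕ :=
  List.rec (motive := fun _ => List ℕ) [] (fun v _ ih => v.m :: ih) l

theorem mem_ms5 {l : List F5} {m : ℕ} : m ∈ ms5 l ↔ ∃ v ∈ l, v.m = m := by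
  induction l with
  | nil => simp [ms5]
  | cons a l ih =>
    have : ms5 (a :: l) = a.m :: ms5 l := rfl
    rw [this, List.mem_cons, ih]
    constructor
    · rintro (h | ⟨v, hv, h⟩)
      · exact ⟨a, List.mem_cons_self, h.symm⟩
      · exact ⟨v, List.mem_cons_of_mem _ hv, h⟩
    · rintro ⟨v, hv, h⟩
      rcases List.mem_cons.1 hv with rfl | hv
      · exact Or.inl h.symm
      · exact Or.inr ⟨v, hv, h⟩

theorem mem_ms4 {l : List F4} {m : ℕ} : m ∈ ms4 l ↔ ∃ v ∈ l, v.m = m := by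
  induction l with
  | nil => simp [ms4]
  | cons a l ih =>
    have : ms4 (a :: l) = a.m :: ms4 l := rfl
    rw [this, List.mem_cons, ih]
    constructor
    · rintro (h | ⟨v, hv, h⟩)
      · exact ⟨a, List.mem_cons_self, h.symm⟩
      · exact ⟨v, List.mem_cons_of_mem _ hv, h⟩
    · rintro ⟨v, hv, h⟩
      rcases List.mem_cons.1 hv with rfl | hv
      · exact Or.inl h.symm
      · exact Or.inr ⟨v, hv, h⟩

/-- A complex of dimension 4 with its list of facets in two forms. -/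
structure Dat5 (V : List F5) (L : List ℕ) : Prop where
  masks : leq16 (ms5 V) L = true
  ok : lall16 F5.ok V = true

/-- A complex of dimension 3 with its list of facets in two forms. -/
structure Dat4 (V : List F4) (L : List ℕ) : Prop where
  masks : leq16 (ms4 V) L = true
  ok : lall16 F4.ok V = true

theorem Dat5.facet {V : List F5} {L : List ℕ} (D : Dat5 V L) {F : Finset ℕ} (h : F ∈ cpxOf L) :
    ∃ v ∈ V, F = {v.a, v.b, v.c, v.d, v.e} ∧ v.a < v.b ∧ v.b < v.c ∧ v.c < v.d ∧ v.d < v.e := by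
  obtain ⟨m, hm, rfl⟩ := mem_cpxOf.1 h
  rw [← leq_iff16 D.masks, mem_ms5] at hm
  obtain ⟨v, hv, rfl⟩ := hm
  exact ⟨v, hv, dec_m5 _ _ _ _ _, F5.ok_iff (lall_iff16.1 D.ok v hv)⟩

theorem Dat4.facet {V : List F4} {L : List ℕ} (D : Dat4 V L) {F : Finset ℕ} (h : F ∈ cpxOf L) :
    ∃ v ∈ V, F = {v.a, v.b, v.c, v.d} ∧ v.a < v.b ∧ v.b < v.c ∧ v.c < v.d := by
  obtain ⟨m, hm, rfl⟩ := mem_cpxOf.1 h
  rw [← leq_iff16 D.masks, mem_ms4] at hm
  obtain ⟨v, hv, rfl⟩ := hm
  exact ⟨v, hv, dec_m4 _ _ _ _, F4.ok_iff (lall_iff16.1 D.ok v hv)⟩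

/-- Check on all 3-dimensional faces. -/
noncomputable def F5.all4 (p : ℕ → ℕ → ℕ → ℕ → Bool) (v : F5) : Bool :=
  band16 (p v.a v.b v.c v.d) (band16 (p v.a v.b v.c v.e) (band16 (p v.a v.b v.d v.e)
    (band16 (p v.a v.c v.d v.e) (p v.b v.c v.d v.e))))

/-- Check on all 2-dimensional faces. -/
noncomputable def F5.all3 (p : ℕ → ℕ → ℕ → Bool) (v : F5) : Bool :=
  band16 (p v.a v.b v.c) (band16 (p v.a v.b v.d) (band16 (p v.a v.b v.e)
    (band16 (p v.a v.c v.d) (band16 (p v.a v.c v.e) (band16 (p v.a v.d v.e)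
    (band16 (p v.b v.c v.d) (band16 (p v.b v.c v.e) (band16 (p v.b v.d v.e)
    (p v.c v.d v.e)))))))))

/-- Check on all 1-dimensional faces. -/
noncomputable def F5.all2 (p : ℕ → ℕ → Bool) (v : F5) : Bool :=
  band16 (p v.a v.b) (band16 (p v.a v.c) (band16 (p v.a v.d)
    (band16 (p v.a v.e) (band16 (p v.b v.c) (band16 (p v.b v.d)
    (band16 (p v.b v.e) (band16 (p v.c v.d) (band16 (p v.c v.e)
    (p v.d v.e)))))))))

/-- Check on all 2-dimensional faces. -/
noncomputable def F4.all3 (p : ℕ → ℕ → ℕ → Bool) (v : F4) : Bool :=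
  band16 (p v.a v.b v.c) (band16 (p v.a v.b v.d) (band16 (p v.a v.c v.d) (p v.b v.c v.d)))

theorem Dat5.all4 {V : List F5} {L : List ℕ} (D : Dat5 V L) {p : ℕ → ℕ → ℕ → ℕ → Bool}
    (h : lall16 (F5.all4 p) V = true) {s : Finset ℕ} (hs : FaceDim (cpxOf L) 3 s) :
    ∃ a b c d, s = {a, b, c, d} ∧ a < b ∧ b < c ∧ c < d ∧ p a b c d = true := by
  obtain ⟨⟨_, F, hF, hsF⟩, hcard⟩ := hs
  obtain ⟨v, hv, rfl, h1, h2, h3, h4⟩ := D.facet hF
  have hp := lall_iff16.1 h v hv
  unfold F5.all4 at hp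
  simp only [band_iff16] at hp
  rcases sub5_4_16 h1 h2 h3 h4 hsF hcard with e | e | e | e | e
  · exact ⟨_, _, _, _, e, by omega, by omega, by omega, by tauto⟩
  · exact ⟨_, _, _, _, e, by omega, by omega, by omega, by tauto⟩
  · exact ⟨_, _, _, _, e, by omega, by omega, by omega, by tauto⟩
  · exact ⟨_, _, _, _, e, by omega, by omega, by omega, by tauto⟩
  · exact ⟨_, _, _, _, e, by omega, by omega, by omega, by tauto⟩

theorem Dat5.all3 {V : List F5} {L : List ℕ} (D : Dat5 V L) {p : ℕ → ℕ → ℕ → Bool}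
    (h : lall16 (F5.all3 p) V = true) {s : Finset ℕ} (hs : FaceDim (cpxOf L) 2 s) :
    ∃ a b c, s = {a, b, c} ∧ a < b ∧ b < c ∧ p a b c = true := by
  obtain ⟨⟨_, F, hF, hsF⟩, hcard⟩ := hs
  obtain ⟨v, hv, rfl, h1, h2, h3, h4⟩ := D.facet hF
  have hp := lall_iff16.1 h v hv
  unfold F5.all3 at hp
  simp only [band_iff16] at hp
  rcases sub5_3_16 h1 h2 h3 h4 hsF hcard with e | e | e | e | e | e | e | e | e | e
  all_goals exact ⟨_, _, _, e, by omega, by omega, by tauto⟩

theorem Dat5.all2 {V : List F5} {L : List ℕ} (D : Dat5 V L) {p : ℕ → ℕ → Bool}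
    (h : lall16 (F5.all2 p) V = true) {s : Finset ℕ} (hs : FaceDim (cpxOf L) 1 s) :
    ∃ a b, s = {a, b} ∧ a < b ∧ p a b = true := by
  obtain ⟨⟨_, F, hF, hsF⟩, hcard⟩ := hs
  obtain ⟨v, hv, rfl, h1, h2, h3, h4⟩ := D.facet hF
  have hp := lall_iff16.1 h v hv
  unfold F5.all2 at hp
  simp only [band_iff16] at hp
  rcases sub5_2_16 h1 h2 h3 h4 hsF hcard with e | e | e | e | e | e | e | e | e | e
  all_goals exact ⟨_, _, e, by omega, by tauto⟩

theorem Dat4.all3 {V : List F4} {L : List ℕ} (D : Dat4 V L) {p : ℕ → ℕ → ℕ → Bool}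
    (h : lall16 (F4.all3 p) V = true) {s : Finset ℕ} (hs : FaceDim (cpxOf L) 2 s) :
    ∃ a b c, s = {a, b, c} ∧ a < b ∧ b < c ∧ p a b c = true := by
  obtain ⟨⟨_, F, hF, hsF⟩, hcard⟩ := hs
  obtain ⟨v, hv, rfl, h1, h2, h3⟩ := D.facet hF
  have hp := lall_iff16.1 h v hv
  unfold F4.all3 at hp
  simp only [band_iff16] at hp
  rcases sub4_3_16 h1 h2 h3 hsF hcard with e | e | e | e
  all_goals exact ⟨_, _, _, e, by omega, by omega, by tauto⟩

/-- Vertices of a complex lie in a list of masks. -/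
theorem Dat5.vert {V : List F5} {L : List ℕ} (D : Dat5 V L) {N : ℕ}
    (h : lall16 (fun v => Nat.blt v.e N) V = true) {v : ℕ} (hs : Face (cpxOf L) {v}) : v < N := by
  obtain ⟨_, F, hF, hsF⟩ := hs
  obtain ⟨w, hw, rfl, h1, h2, h3, h4⟩ := D.facet hF
  have hp := lt_of_blt16 (lall_iff16.1 h w hw)
  have : v ∈ ({w.a, w.b, w.c, w.d, w.e} : Finset ℕ) := hsF (Finset.mem_singleton_self v)
  simp only [Finset.mem_insert, Finset.mem_singleton] at this
  omega

theorem Dat4.vert {V : List F4} {L : List ℕ} (D : Dat4 V L) {N : ℕ}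
    (h : lall16 (fun v => Nat.blt v.d N) V = true) {v : ℕ} (hs : Face (cpxOf L) {v}) : v < N := by
  obtain ⟨_, F, hF, hsF⟩ := hs
  obtain ⟨w, hw, rfl, h1, h2, h3⟩ := D.facet hF
  have hp := lt_of_blt16 (lall_iff16.1 h w hw)
  have : v ∈ ({w.a, w.b, w.c, w.d} : Finset ℕ) := hsF (Finset.mem_singleton_self v)
  simp only [Finset.mem_insert, Finset.mem_singleton] at this
  omega

end E8Genera
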