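import Pool.Agent.P8.Uni16
import Pool.Agent.P8.Faces16

/-!
Elimination certificates: spanning of the relative second cohomology for all coefficient groups,
relative cocycles from a table, vanishing of the first cohomology for all coefficient groups.
-/

namespace E8Genera

/-- A node of the table of interior triangles: vertices, two more vertices of a facet, rank,
packed values. -/
structure TV16 where
  a : ℕ
  b : ℕ
  c : ℕ
  w : ℕ
  y : ℕ
  rk : ℕ
  A : ℕ

/-- A node of the table of edges. -/
structure TE16 where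
  a : ℕ
  b : ℕ
  w : ℕ
  y : ℕ
  z : ℕ
  rk : ℕ

/-- Three naturals. -/
structure T316 where
  a : ℕ
  b : ℕ
  w : ℕ

/-- The mask `x` is a face of a facet in the list with tree `TYf`, found with the tree `TY`. -/
noncomputable def memY16 (TY : Tr16 ℕ) (TYf : Tr16 Unit) (x : ℕ) : Bool :=
  force16 x fun x => force16 (TY.get 0 (fun m => m) x) fun m =>
    band16 (Nat.beq (Nat.land x m) x) (TYf.has m)

theorem memY_spec16 {TY : Tr16 ℕ} {TYf : Tr16 Unit} {LY : List ℕ}
    (hT : leq16 (TYf.keys []) LY = true) {x : ℕ} (h : memY16 TY TYf x = true) :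
    ∃ F ∈ cpxOf LY, dec x ⊆ F := by
  unfold memY16 at h
  rw [force_eq16, force_eq16, band_iff16] at h
  obtain ⟨h1, h2⟩ := h
  refine ⟨dec (TY.get 0 (fun m => m) x), dec_mem_cpxOf.2 (Tr16.mem_of_has hT h2), ?_⟩
  rw [dec_subset]
  exact Nat.eq_of_beq_eq_true h1

theorem card_pair16 {a b : ℕ} (h : a < b) : ({a, b} : Finset ℕ).card = 2 :=
  Finset.card_pair (by omega)

theorem card_triple16 {a b c : ℕ} (h : a ≠ b) (h1 : a ≠ c) (h2 : b ≠ c) :
    ({a, b, c} : Finset ℕ).card = 3 := by
  rw [Finset.card_insert_of_notMem, Finset.card_pair h2]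
  simp only [Finset.mem_insert, Finset.mem_singleton]; omega

theorem card_quad16 {a b c d : ℕ} (h : a ≠ b) (h1 : a ≠ c) (h2 : b ≠ c) (h3 : a ≠ d)
    (h4 : b ≠ d) (h5 : c ≠ d) : ({a, b, c, d} : Finset ℕ).card = 4 := by
  rw [Finset.card_insert_of_notMem, card_triple16 h2 h4 h5]
  simp only [Finset.mem_insert, Finset.mem_singleton]; omega

/-- `w` is different from `a`, `b`, `c`. -/
noncomputable def ne316 (a b c w : ℕ) : Bool :=
  band16 (Bool.rec true false (Nat.beq w a)) (band16 (Bool.rec true false (Nat.beq w b))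
    (Bool.rec true false (Nat.beq w c)))

/-- Negation. -/
theorem not_iff16 {b : Bool} : Bool.rec (motive := fun _ => Bool) true false b = true ↔
    b = false := by
  cases b <;> simp

theorem beq_false_iff16 {a b : ℕ} : Nat.beq a b = false ↔ a ≠ b := by
  constructor
  · intro h e
    subst e
    rw [Nat.beq_refl] at h
    exact absurd h (by decide)
  · intro h
    cases e : Nat.beq a b with
    | false => rfl
    | true => exact absurd (Nat.eq_of_beq_eq_true e) h

theorem ne3_iff16 {a b c w : ℕ} : ne316 a b c w = true ↔ w ≠ a ∧ w ≠ b ∧ w ≠ c := by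
  unfold ne316
  rw [band_iff16, band_iff16, not_iff16, not_iff16, not_iff16, beq_false_iff16, beq_false_iff16,
    beq_false_iff16]

section Kill

/-- The triangle is in the table with smaller rank, or in `Y`. -/
noncomputable def kn16 (TT : Tr16 TV16) (TY : Tr16 ℕ) (TYf : Tr16 Unit) (r x : ℕ) : Bool :=
  force16 x fun x => bor16 (TT.get false (fun v => Nat.blt v.rk r) x) (memY16 TY TYf x)

/-- The base triangles. -/
noncomputable def base16 (LL : List T316) (CR : List ℕ) (k : ℕ) : Bool :=
  bor16 (lany16 (fun p : T316 => Nat.beq (m3 p.a p.b p.w) k) LL) (lany16 (fun m => Nat.beq m k) CR)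

/-- Check of a node of the table of triangles. -/
noncomputable def nodeT16 (TT : Tr16 TV16) (TY : Tr16 ℕ) (TYf TX : Tr16 Unit) (LL : List T316)
    (CR : List ℕ) (k : ℕ) (v : TV16) : Bool :=
  band16 (Nat.beq k (m3 v.a v.b v.c)) (band16 (Nat.blt v.a v.b) (band16 (Nat.blt v.b v.c)
    (Nat.rec (motive := fun _ => Bool) (base16 LL CR k)
      (fun _ _ => band16 (ne316 v.a v.b v.c v.w)
        (band16 (TX.has (m5 v.a v.b v.c v.w v.y))
          (band16 (kn16 TT TY TYf v.rk (m3 v.b v.c v.w))
            (band16 (kn16 TT TY TYf v.rk (m3 v.a v.c v.w))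
              (kn16 TT TY TYf v.rk (m3 v.a v.b v.w)))))) v.rk)))

variable {A : Type*} [AddCommGroup A]

theorem kill_table16 {TT : Tr16 TV16} {TY : Tr16 ℕ} {TYf TX : Tr16 Unit} {LL : List T316}
    {CR LX LY : List ℕ} (hTX : leq16 (TX.keys []) LX = true) (hTY : leq16 (TYf.keys []) LY = true)
    (hT : TT.all (nodeT16 TT TY TYf TX LL CR) = true) {b : Finset ℕ → A}
    (hbY : ∀ s, FaceDim (cpxOf LY) 2 s → b s = 0) (hbX : ∀ s, FaceDim (cpxOf LX) 3 s → cobd b s = 0)
    (hL : ∀ p ∈ LL, b {p.a, p.b, p.w} = 0) (hC : ∀ m ∈ CR, b (dec m) = 0) :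
    ∀ n k v, Tr16.Mem k v TT → v.rk = n → b (dec k) = 0 := by
  intro n
  induction n using Nat.strong_induction_on with
  | _ n ih =>
    intro k v hm hn
    have h := Tr16.all_iff.1 hT k v hm
    unfold nodeT16 at h
    rw [band_iff16, band_iff16, band_iff16] at h
    obtain ⟨h1, h2, h3, h4⟩ := h
    have h1 := Nat.eq_of_beq_eq_true h1
    have h2 := lt_of_blt16 h2
    have h3 := lt_of_blt16 h3
    have kn : ∀ x y z : ℕ, x ≠ y → x ≠ z → y ≠ z → kn16 TT TY TYf v.rk (m3 x y z) = true →
        b {x, y, z} = 0 := by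
      intro x y z hxy hxz hyz hk
      unfold kn16 at hk
      rw [force_eq16, bor_iff16] at hk
      rcases hk with hk | hk
      · rcases TT.get_cases false (fun v' => Nat.blt v'.rk v.rk) (m3 x y z) with e | ⟨v', hv', e⟩
        · rw [e] at hk
          exact absurd hk Bool.false_ne_true
        · rw [e] at hk
          have hk' : v'.rk < v.rk := lt_of_blt16 hk
          have := ih v'.rk (by omega) _ v' hv' rfl
          rwa [dec_m3] at this
      · obtain ⟨F, hF, hs⟩ := memY_spec16 hTY hk
        rw [dec_m3] at hs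
        exact hbY _ ⟨⟨⟨x, by simp⟩, F, hF, hs⟩, card_triple16 hxy hxz hyz⟩
    cases hr : v.rk with
    | zero =>
      rw [hr] at h4
      have h4 : base16 LL CR k = true := h4
      unfold base16 at h4
      rw [bor_iff16, lany_iff16, lany_iff16] at h4
      rcases h4 with ⟨p, hp, hp'⟩ | ⟨m, hm', hm''⟩
      · have := Nat.eq_of_beq_eq_true hp'
        rw [← this, dec_m3]
        exact hL p hp
      · rw [← Nat.eq_of_beq_eq_true hm'']
        exact hC m hm'
    | succ r =>
      have h4' : band16 (ne316 v.a v.b v.c v.w)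
        (band16 (TX.has (m5 v.a v.b v.c v.w v.y))
          (band16 (kn16 TT TY TYf v.rk (m3 v.b v.c v.w))
            (band16 (kn16 TT TY TYf v.rk (m3 v.a v.c v.w))
              (kn16 TT TY TYf v.rk (m3 v.a v.b v.w))))) = true := by
        have := h4
        rw [hr] at this ⊢
        exact this
      rw [band_iff16, band_iff16, band_iff16, band_iff16, ne3_iff16] at h4'
      obtain ⟨⟨n1, n2, n3⟩, g1, g2, g3, g4⟩ := h4'
      have hF : dec (m5 v.a v.b v.c v.w v.y) ∈ cpxOf LX :=
        dec_mem_cpxOf.2 (Tr16.mem_of_has hTX g1)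
      rw [dec_m5] at hF
      have ht : FaceDim (cpxOf LX) 3 {v.a, v.b, v.c, v.w} := by
        refine ⟨⟨⟨v.a, by simp⟩, _, hF, ?_⟩, card_quad16 (by omega) (by omega) (by omega)
          (by omega) (by omega) (by omega)⟩
        intro x hx
        simp only [Finset.mem_insert, Finset.mem_singleton] at hx ⊢
        tauto
      have e4 : ({v.a, v.b, v.c, v.w} : Finset ℕ).erase v.w = {v.a, v.b, v.c} := by
        ext x; simp only [Finset.mem_erase, Finset.mem_insert, Finset.mem_singleton]; omega
      have e1 : ({v.a, v.b, v.c, v.w} : Finset ℕ).erase v.a = {v.b, v.c, v.w} := by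
        ext x; simp only [Finset.mem_erase, Finset.mem_insert, Finset.mem_singleton]; omega
      have e2 : ({v.a, v.b, v.c, v.w} : Finset ℕ).erase v.b = {v.a, v.c, v.w} := by
        ext x; simp only [Finset.mem_erase, Finset.mem_insert, Finset.mem_singleton]; omega
      have e3 : ({v.a, v.b, v.c, v.w} : Finset ℕ).erase v.c = {v.a, v.b, v.w} := by
        ext x; simp only [Finset.mem_erase, Finset.mem_insert, Finset.mem_singleton]; omega
      rw [h1, dec_m3, ← e4]
      refine kill16 (by simp) (hbX _ ht) ?_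
      intro x hx hne
      simp only [Finset.mem_insert, Finset.mem_singleton] at hx
      rcases hx with rfl | rfl | rfl | rfl
      · rw [e1]; exact kn _ _ _ (by omega) (by omega) (by omega) g2
      · rw [e2]; exact kn _ _ _ (by omega) (by omega) (by omega) g3
      · rw [e3]; exact kn _ _ _ (by omega) (by omega) (by omega) g4
      · exact absurd rfl hne

end Kill

section Gamma

/-- The mask `x` is not a face of any facet of the list. -/
noncomputable def notY16 (LY : List ℕ) (x : ℕ) : Bool :=
  force16 x fun x => lall16 (fun m => Bool.rec (motive := fun _ => Bool) true false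
    (Nat.beq (Nat.land x m) x)) LY

theorem notY_spec16 {LY : List ℕ} {x : ℕ} (h : notY16 LY x = true) :
    ¬ ∃ F ∈ cpxOf LY, dec x ⊆ F := by
  unfold notY16 at h
  rw [force_eq16, lall_iff16] at h
  rintro ⟨F, hF, hs⟩
  obtain ⟨m, hm, rfl⟩ := mem_cpxOf.1 hF
  rw [dec_subset] at hs
  have h' := h m hm
  rw [not_iff16, beq_false_iff16] at h'
  exact h' hs

/-- The edge `x` is in the list or in `Y`. -/
noncomputable def knE16 (LY K : List ℕ) (x : ℕ) : Bool :=
  force16 x fun x => bor16 (lany16 (fun m => Nat.beq m x) K)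
    (lany16 (fun m => Nat.beq (Nat.land x m) x) LY)

/-- Check of the list of interior edges with their triangles. -/
noncomputable def chkL16 (LY : List ℕ) (l : List T316) (K : List ℕ) : Bool :=
  List.rec (motive := fun _ => List ℕ → Bool) (fun _ => true)
    (fun p _ ih K => band16 (notY16 LY (m2 p.a p.b))
      (band16 (lall16 (fun m => Bool.rec (motive := fun _ => Bool) true false
        (Nat.beq m (m2 p.a p.b))) K)
        (band16 (Nat.blt p.a p.b) (band16 (ne316 p.a p.b p.b p.w)
          (band16 (knE16 LY K (m2 p.a p.w)) (band16 (knE16 LY K (m2 p.b p.w))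
            (ih (m2 p.a p.b :: K)))))))) l K

variable {A : Type*} [AddCommGroup A]

theorem cobd_update16 (g : Finset ℕ → A) (e : Finset ℕ) (z : A) {t : Finset ℕ} {w : ℕ}
    (hw : w ∈ t) (he : t.erase w = e) (h0 : g e = 0) :
    cobd (Function.update g e z) t = cobd g t + sgn t w • z := by
  classical
  unfold cobd
  rw [← Finset.add_sum_erase t _ hw, ← Finset.add_sum_erase t (fun v => sgn t v • g (t.erase v)) hw]
  have h1 : ∑ v ∈ t.erase w, sgn t v • Function.update g e z (t.erase v) =
      ∑ v ∈ t.erase w, sgn t v • g (t.erase v) := by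
    refine Finset.sum_congr rfl fun v hv => ?_
    rw [Finset.mem_erase] at hv
    rw [Function.update_of_ne]
    intro h
    rw [← he] at h
    have : w ∈ t.erase v := Finset.mem_erase.2 ⟨fun hh => hv.1 hh.symm, hw⟩
    rw [h] at this
    exact Finset.notMem_erase w t this
  rw [h1, he, Function.update_self, h0, smul_zero, zero_add]
  abel

theorem cobd_congr16 {g g' : Finset ℕ → A} {t : Finset ℕ}
    (h : ∀ v ∈ t, g (t.erase v) = g' (t.erase v)) : cobd g t = cobd g' t := by
  unfold cobd
  exact Finset.sum_congr rfl fun v hv => by rw [h v hv]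

/-- Existence of a relative 1-cochain with prescribed coboundary on the listed triangles. -/
theorem gamma16 {LY : List ℕ} (a : Finset ℕ → A) (l : List T316) :
    ∀ (K : List ℕ) (g : Finset ℕ → A), chkL16 LY l K = true →
      (∀ s, g s ≠ 0 → ∃ k ∈ K, dec k = s) →
      (∀ k ∈ K, ¬ ∃ F ∈ cpxOf LY, dec k ⊆ F) →
      ∃ g' : Finset ℕ → A, (∀ s, ((∃ k ∈ K, dec k = s) ∨ ∃ F ∈ cpxOf LY, s ⊆ F) → g' s = g s) ∧
        (∀ s, g' s ≠ 0 → ¬ ∃ F ∈ cpxOf LY, s ⊆ F) ∧
        ∀ p ∈ l, cobd g' {p.a, p.b, p.w} = a {p.a, p.b, p.w} := by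
  induction l with
  | nil =>
    intro K g _ hg hK
    refine ⟨g, fun _ _ => rfl, ?_, by simp⟩
    intro s hs
    obtain ⟨k, hk, rfl⟩ := hg s hs
    exact hK k hk
  | cons p l ih =>
    intro K g hchk hg hK
    have hchk' : band16 (notY16 LY (m2 p.a p.b))
      (band16 (lall16 (fun m => Bool.rec (motive := fun _ => Bool) true false
        (Nat.beq m (m2 p.a p.b))) K)
        (band16 (Nat.blt p.a p.b) (band16 (ne316 p.a p.b p.b p.w)
          (band16 (knE16 LY K (m2 p.a p.w)) (band16 (knE16 LY K (m2 p.b p.w))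
            (chkL16 LY l (m2 p.a p.b :: K))))))) = true := hchk
    rw [band_iff16, band_iff16, band_iff16, band_iff16, band_iff16, band_iff16, ne3_iff16,
      lall_iff16] at hchk'
    obtain ⟨c1, c2, c3, ⟨c4, c5, _⟩, c6, c7, c8⟩ := hchk'
    have c1 := notY_spec16 c1
    have c3 := lt_of_blt16 c3
    have c2' : ∀ k ∈ K, dec k ≠ dec (m2 p.a p.b) := by
      intro k hk h
      have := c2 k hk
      rw [not_iff16, beq_false_iff16] at this
      exact this (dec_inj.1 h)
    have kn : ∀ x : ℕ, knE16 LY K x = true → (∃ k ∈ K, dec k = dec x) ∨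
        ∃ F ∈ cpxOf LY, dec x ⊆ F := by
      intro x hx
      unfold knE16 at hx
      rw [force_eq16, bor_iff16, lany_iff16, lany_iff16] at hx
      rcases hx with ⟨m, hm, hm'⟩ | ⟨m, hm, hm'⟩
      · left
        exact ⟨m, hm, by rw [Nat.eq_of_beq_eq_true hm']⟩
      · right
        exact ⟨dec m, dec_mem_cpxOf.2 hm, dec_subset.2 (Nat.eq_of_beq_eq_true hm')⟩
    set E := dec (m2 p.a p.b) with hE
    have hE' : E = {p.a, p.b} := dec_m2 _ _
    have hgE : g E = 0 := by
      by_contra h
      obtain ⟨k, hk, h'⟩ := hg E h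
      exact c2' k hk h'
    set t : Finset ℕ := {p.a, p.b, p.w} with ht
    have et : t.erase p.w = E := by
      rw [hE', ht]
      ext x; simp only [Finset.mem_erase, Finset.mem_insert, Finset.mem_singleton]; omega
    have ea : t.erase p.a = dec (m2 p.b p.w) := by
      rw [dec_m2, ht]
      ext x; simp only [Finset.mem_erase, Finset.mem_insert, Finset.mem_singleton]; omega
    have eb : t.erase p.b = dec (m2 p.a p.w) := by
      rw [dec_m2, ht]
      ext x; simp only [Finset.mem_erase, Finset.mem_insert, Finset.mem_singleton]; omega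
    set z : A := sgn t p.w • (a t - cobd g t) with hz
    obtain ⟨g', h1, h2, h3⟩ := ih (m2 p.a p.b :: K) (Function.update g E z) c8 (by
      intro s hs
      by_cases hsE : s = E
      · exact ⟨m2 p.a p.b, List.mem_cons_self, by rw [hsE]⟩
      · rw [Function.update_of_ne hsE] at hs
        obtain ⟨k, hk, h'⟩ := hg s hs
        exact ⟨k, List.mem_cons_of_mem _ hk, h'⟩) (by
      intro k hk
      rcases List.mem_cons.1 hk with rfl | hk
      · exact c1
      · exact hK k hk)
    have hknown : ∀ s, ((∃ k ∈ K, dec k = s) ∨ ∃ F ∈ cpxOf LY, s ⊆ F) → s ≠ E := by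
      rintro s (⟨k, hk, h'⟩ | h) he
      · exact c2' k hk (h'.trans he)
      · rw [he] at h
        exact c1 h
    refine ⟨g', ?_, h2, ?_⟩
    · intro s hs
      rw [h1 s (hs.imp (fun ⟨k, hk, h'⟩ => ⟨k, List.mem_cons_of_mem _ hk, h'⟩) id),
        Function.update_of_ne (hknown s hs)]
    · intro q hq
      rcases List.mem_cons.1 hq with rfl | hq
      · have e1 : cobd g' t = cobd (Function.update g E z) t := by
          refine cobd_congr16 fun v hv => ?_
          rw [ht] at hv
          simp only [Finset.mem_insert, Finset.mem_singleton] at hv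
          refine h1 _ ?_
          rcases hv with rfl | rfl | rfl
          · rw [ea]
            exact (kn _ c7).imp (fun ⟨k, hk, h'⟩ => ⟨k, List.mem_cons_of_mem _ hk, h'⟩) id
          · rw [eb]
            exact (kn _ c6).imp (fun ⟨k, hk, h'⟩ => ⟨k, List.mem_cons_of_mem _ hk, h'⟩) id
          · rw [et]
            exact Or.inl ⟨m2 q.a q.b, List.mem_cons_self, rfl⟩
        rw [← ht, e1, cobd_update16 g E z (by rw [ht]; simp) et hgE, hz, smul_smul,
          sgn_mul_self16, one_smul]
        abel
      · exact h3 q hq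

end Gamma

end E8Genera
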