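import Pool.Agent.P8.GramV48
import Pool.Agent.P8.ChkX116

/-!
Gram matrix of the complex number 1: data and checks (helper48, P8).
-/

set_option maxRecDepth 100000
set_option maxHeartbeats 4000000

namespace E8Genera

open Pool.Agent.P8

/-- data: Gram matrix -/
def GL148 : List (List ℤ) := [[-2, -1, 1, -1, 0, 0, 0, 1], [-1, -2, 0, -1, 0, -1, 0, 1], [1, 0, -2, 0, 0, 0, 0, 0], [-1, -1,
0, -2, 1, 0, 0, 0], [0, 0, 0, 1, -2, 0, 0, 0], [0, -1, 0, 0, 0, -2, -1, 0], [0, 0, 0, 0, 0, -1,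
-2, 0], [1, 1, 0, 0, 0, 0, 0, -2]]

/-- data: inverse of the Gram matrix -/
def HL148 : List (List ℤ) := [[-6, -6, -3, 8, 4, 4, -2, -6], [-6, -12, -3, 12, 6, 8, -4, -9], [-3, -3, -2, 4, 2, 2, -1, -3],
[8, 12, 4, -14, -7, -8, 4, 10], [4, 6, 2, -7, -4, -4, 2, 5], [4, 8, 2, -8, -4, -6, 3, 6], [-2,
-4, -1, 4, 2, 3, -2, -3], [-6, -9, -3, 10, 5, 6, -3, -8]]

/-- data: triangular certificate -/
def DL148 : List (ℤ × List ℤ) := [(420, [2, 1, -1, 1, 0, 0, 0, -1]), (140, [0, 3, 1, 1, 0, 2, 0, -1]), (70, [0, 0, 4, 1, 0, -1,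
0, -1]), (42, [0, 0, 0, 5, -4, -1, 0, 3]), (28, [0, 0, 0, 0, 6, -1, 0, 3]), (20, [0, 0, 0, 0, 0,
7, 6, 3]), (15, [0, 0, 0, 0, 0, 0, 8, -3]), (105, [0, 0, 0, 0, 0, 0, 0, 1])]

theorem gchk148 : decide (gV48 TT116 8 64 8 O116 V116 OX1 = GL148) = true := by
  decide +kernel

/-- The Gram matrix of the complex number 1. -/
def G148 : Matrix (Fin 8) (Fin 8) ℤ := matL48 8 GL148

theorem gram148 (i j : Fin 8) :
    cupEval (chainOf OX1) (alpha116 i) (alpha116 j) = G148 i j :=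
  gram_cert48 certT116 (w := 8) (by norm_num) gchk148 i j

theorem isDefinite148 : IsDefinite G148 :=
  isDefinite_of_neg48 (K := 840) (dv := DL148) (by decide +kernel)

theorem symm148 (i j : Fin 8) : G148 i j = G148 j i :=
  symCheck48_sound (by decide +kernel) i j

theorem even148 (i : Fin 8) : (2 : ℤ) ∣ G148 i i :=
  two_dvd_of_evenCheck48 (by decide +kernel) i

/-- The inverse of the Gram matrix. -/
def H148 : Matrix (Fin 8) (Fin 8) ℤ := matL48 8 HL148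

theorem inv148 : H148 * G148 = 1 := invCheck48_sound (by decide +kernel)

end E8Genera
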