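import Pool.Agent.P8.GramX148

/-!
The rank 8 form is minus the `E₈` form: explicit isometry (helper48; matrices found with the
program of helper43).
-/

namespace E8Genera

open Pool.Agent.P8

/-- the change of basis -/
def isoP48 : Matrix (Fin 8) (Fin 8) ℤ :=
  !![-1, -1, -1, 1, 1, 0, 0, -1; -1, -1, 0, 1, 0, 0, 0, -1; -1, 1, 0, 0, 0, 0, 0, 0;
    2, 0, 1, -1, 0, 0, 0, 1; -1, 0, -1, 1, 0, 0, 0, 0; 0, 0, 0, 0, 0, 0, 0, -1;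
    0, -1, 0, 0, 0, 1, 0, 0; 0, 0, 0, 0, 0, 0, -1, 0]

/-- its inverse -/
def isoQ48 : Matrix (Fin 8) (Fin 8) ℤ :=
  !![0, 0, 0, 1, 1, 1, 0, 0; 0, 0, 1, 1, 1, 1, 0, 0; 0, 1, 1, 1, 0, 0, 0, 0;
    0, 1, 1, 2, 2, 1, 0, 0; 1, 0, 1, 1, 0, 0, 0, 0; 0, 0, 1, 1, 1, 1, 1, 0;
    0, 0, 0, 0, 0, 0, 0, -1; 0, 0, 0, 0, 0, -1, 0, 0]

theorem isoPQ48 : isoP48 * isoQ48 = 1 := by decide +kernel

theorem isoQP48 : isoQ48 * isoP48 = 1 := by decide +kernel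

theorem iso48 : isoP48 * G148 * isoP48.transpose = CartanMatrix.E₈ ∨
    isoP48 * G148 * isoP48.transpose = -CartanMatrix.E₈ := by
  right
  decide +kernel

end E8Genera
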