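import Pool.Agent.P8.LinksA30
import Pool.Agent.P8.LinksB30
import Pool.Agent.P8.LinksY30

/-! The complexes are combinatorial manifolds (T2, helper30). -/

namespace E8Genera

namespace B30

theorem pure_X1r_chk : chkPure 5 (nat_lit 70368744177664) X1r = true := by decide +kernel

theorem pure_X1r : Pure 4 (cpxOf X1r) :=
  pure_of pure_X1r_chk (by unfold X1r; exact List.cons_ne_nil _ _)

theorem lt_X1r (m : Nat) (hm : m ∈ X1r) : m < 2 ^ 46 := by
  have h2 : (nat_lit 70368744177664 : Nat) = 2 ^ 46 := by decide +kernel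
  rw [← h2]
  exact (chkPure_sound pure_X1r_chk m hm).2

theorem pure_X2r_chk : chkPure 5 (nat_lit 70368744177664) X2r = true := by decide +kernel

theorem pure_X2r : Pure 4 (cpxOf X2r) :=
  pure_of pure_X2r_chk (by unfold X2r; exact List.cons_ne_nil _ _)

theorem lt_X2r (m : Nat) (hm : m ∈ X2r) : m < 2 ^ 46 := by
  have h2 : (nat_lit 70368744177664 : Nat) = 2 ^ 46 := by decide +kernel
  rw [← h2]
  exact (chkPure_sound pure_X2r_chk m hm).2

theorem pure_Yr_chk : chkPure 4 (nat_lit 70368744177664) Yr = true := by decide +kernel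

theorem pure_Yr : Pure 3 (cpxOf Yr) :=
  pure_of pure_Yr_chk (by unfold Yr; exact List.cons_ne_nil _ _)

theorem lt_Yr (m : Nat) (hm : m ∈ Yr) : m < 2 ^ 46 := by
  have h2 : (nat_lit 70368744177664 : Nat) = 2 ^ 46 := by decide +kernel
  rw [← h2]
  exact (chkPure_sound pure_Yr_chk m hm).2

theorem man_X1 (h : bdry (cpxOf (OX1.map Prod.fst)) = cpxOf (OY.map Prod.fst)) :
    IsManifold 4 (cpxOf (OX1.map Prod.fst)) := by
  rw [X1r_eq, Yr_eq] at h
  rw [X1r_eq]
  exact isManifold_of (d := 3) pure_X1r h lt_X1r (le_refl 46) linksA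

theorem man_X2 (h : bdry (cpxOf (OX2.map Prod.fst)) = cpxOf (OY.map Prod.fst)) :
    IsManifold 4 (cpxOf (OX2.map Prod.fst)) := by
  rw [X2r_eq, Yr_eq] at h
  rw [X2r_eq]
  exact isManifold_of (d := 3) pure_X2r h lt_X2r (le_refl 46) linksB

theorem man_Y (h : bdry (cpxOf (OY.map Prod.fst)) = ∅) :
    IsManifold 3 (cpxOf (OY.map Prod.fst)) := by
  rw [Yr_eq] at h
  rw [Yr_eq]
  exact isManifold_of (d := 2) (LY := []) pure_Yr h lt_Yr (le_refl 46) linksY

end B30

end E8Genera
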