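import Pool.Agent.P8.Main
import Pool.Agent.P8.Man30
import Pool.Agent.P8.ChkOr
import Pool.Agent.P8.GramX148
import Pool.Agent.P8.GramX248
import Pool.Agent.P8.Iso48

/-! The final statement for the explicit data. -/

namespace E8Genera

theorem final77 : ∃ (Y : Cpx) (z : Chain), IsHomologySphere Y z ∧ E8Bounds Y z 1 ∧
    DefiniteSpinBounds Y z 1 ∧ DefiniteSpinBounds Y z 3 ∧ Answer Y z := by
  obtain ⟨_, hO₁, hB₁, _⟩ := orCheck48_sound orX1
  obtain ⟨_, hO₂, hB₂, _⟩ := orCheck48_sound orX2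
  obtain ⟨_, hO, hB, _⟩ := orCheck48_sound orY
  have hO' : IsOrientation 3 (cpxOf (OY.map Prod.fst)) (chainOf OY) 0 := by
    simpa [chainOf] using hO
  have hB' : bdry (cpxOf (OY.map Prod.fst)) = ∅ := by
    simpa [cpxOf] using hB
  exact final_of (B30.man_X1 hB₁) (B30.man_X2 hB₂) (B30.man_Y hB') hB₁ hB₂ hB' hO₁ hO₂ hO'
    certE116.hv0 certE216.hv0 hv0Y16 (fun A _ a ha => certE116.coh1 a ha)
    (fun A _ a ha => certE216.coh1 a ha) relCocycle116 relCocycle216
    (fun A _ a ha => span116 a ha) (fun A _ a ha => span216 a ha) gram148 gram248 symm148 symm248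
    even148 even248 isDefinite148 isDefinite248 inv148 isoP48 isoQ48 isoPQ48 isoQP48 iso48

end E8Genera
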