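import Pool.Agent.P8.Defs

/-!
Bilinearity of the cup product evaluation and change of basis for intersection forms.
-/

namespace E8Genera

section Cup

variable {R : Type*} [CommRing R]

theorem cupEval_add_left (c : Chain) (a a' b : Finset ℕ → R) :
    cupEval c (fun s => a s + a' s) b = cupEval c a b + cupEval c a' b := by
  unfold cupEval Finsupp.sum
  rw [← Finset.sum_add_distrib]
  refine Finset.sum_congr rfl fun s _ => ?_
  beta_reduce
  rw [add_mul, smul_add]

theorem cupEval_add_right (c : Chain) (a b b' : Finset ℕ → R) :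
    cupEval c a (fun s => b s + b' s) = cupEval c a b + cupEval c a b' := by
  unfold cupEval Finsupp.sum
  rw [← Finset.sum_add_distrib]
  refine Finset.sum_congr rfl fun s _ => ?_
  beta_reduce
  rw [mul_add, smul_add]

theorem cupEval_smul_left (c : Chain) (r : R) (a b : Finset ℕ → R) :
    cupEval c (fun s => r * a s) b = r * cupEval c a b := by
  unfold cupEval Finsupp.sum
  rw [Finset.mul_sum]
  refine Finset.sum_congr rfl fun s _ => ?_
  beta_reduce
  rw [mul_assoc, mul_smul_comm]

theorem cupEval_smul_right (c : Chain) (r : R) (a b : Finset ℕ → R) :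
    cupEval c a (fun s => r * b s) = r * cupEval c a b := by
  unfold cupEval Finsupp.sum
  rw [Finset.mul_sum]
  refine Finset.sum_congr rfl fun s _ => ?_
  beta_reduce
  rw [mul_left_comm, mul_smul_comm]

theorem cupEval_zero_left (c : Chain) (b : Finset ℕ → R) : cupEval c (fun _ => 0) b = 0 := by
  unfold cupEval Finsupp.sum
  simp

theorem cupEval_zero_right (c : Chain) (a : Finset ℕ → R) : cupEval c a (fun _ => 0) = 0 := by
  unfold cupEval Finsupp.sum
  simp

theorem cupEval_sum_left {ι : Type*} (t : Finset ι) (c : Chain) (f : ι → Finset ℕ → R)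
    (b : Finset ℕ → R) : cupEval c (fun s => ∑ i ∈ t, f i s) b = ∑ i ∈ t, cupEval c (f i) b := by
  classical
  induction t using Finset.induction_on with
  | empty => simpa using cupEval_zero_left c b
  | insert i t hi ih =>
    simp only [Finset.sum_insert hi]
    rw [cupEval_add_left, ih]

theorem cupEval_sum_right {ι : Type*} (t : Finset ι) (c : Chain) (f : ι → Finset ℕ → R)
    (a : Finset ℕ → R) : cupEval c a (fun s => ∑ i ∈ t, f i s) = ∑ i ∈ t, cupEval c a (f i) := by
  classical
  induction t using Finset.induction_on with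
  | empty => simpa using cupEval_zero_right c a
  | insert i t hi ih =>
    simp only [Finset.sum_insert hi]
    rw [cupEval_add_right, ih]

/-- The cup product evaluation of two linear combinations. -/
theorem cupEval_lin {ι : Type*} [Fintype ι] (c : Chain) (α : ι → Finset ℕ → R) (x y : ι → R) :
    cupEval c (fun s => ∑ i, x i * α i s) (fun s => ∑ j, y j * α j s) =
      ∑ i, ∑ j, x i * y j * cupEval c (α i) (α j) := by
  rw [cupEval_sum_left]
  refine Finset.sum_congr rfl fun i _ => ?_
  rw [cupEval_smul_left, cupEval_sum_right, Finset.mul_sum]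
  refine Finset.sum_congr rfl fun j _ => ?_
  rw [cupEval_smul_right, mul_assoc]

end Cup

section Cocycles

variable {A : Type*} [AddCommGroup A]

theorem cobd_add (a b : Finset ℕ → A) (s : Finset ℕ) :
    cobd (fun t => a t + b t) s = cobd a s + cobd b s := by
  unfold cobd
  rw [← Finset.sum_add_distrib]
  exact Finset.sum_congr rfl fun v _ => smul_add _ _ _

theorem cobd_sub (a b : Finset ℕ → A) (s : Finset ℕ) :
    cobd (fun t => a t - b t) s = cobd a s - cobd b s := by
  unfold cobd
  rw [← Finset.sum_sub_distrib]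
  exact Finset.sum_congr rfl fun v _ => smul_sub _ _ _

theorem cobd_zero (s : Finset ℕ) : cobd (fun _ => (0 : A)) s = 0 := by
  unfold cobd
  simp

theorem cobd_finset_sum {ι : Type*} (t : Finset ι) (f : ι → Finset ℕ → A) (s : Finset ℕ) :
    cobd (fun u => ∑ i ∈ t, f i u) s = ∑ i ∈ t, cobd (f i) s := by
  classical
  induction t using Finset.induction_on with
  | empty => simpa using cobd_zero s
  | insert i t hi ih =>
    simp only [Finset.sum_insert hi]
    rw [cobd_add, ih]

theorem cobd_mul_left (m : ℤ) (a : Finset ℕ → ℤ) (s : Finset ℕ) :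
    cobd (fun t => m * a t) s = m * cobd a s := by
  unfold cobd
  rw [Finset.mul_sum]
  refine Finset.sum_congr rfl fun v _ => ?_
  simp only [smul_eq_mul]
  ring

theorem RelCocycle.lin {ι : Type*} [Fintype ι] {X Y : Cpx} {α : ι → Finset ℕ → ℤ}
    (h : ∀ i, RelCocycle X Y (α i)) (x : ι → ℤ) : RelCocycle X Y fun s => ∑ i, x i * α i s := by
  constructor
  · intro s hs
    exact Finset.sum_eq_zero fun i _ => by rw [(h i).1 s hs, mul_zero]
  · intro s hs
    rw [cobd_finset_sum]
    exact Finset.sum_eq_zero fun i _ => by rw [cobd_mul_left, (h i).2 s hs, mul_zero]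

end Cocycles

/-- Change of basis. -/
theorem HasForm.change {ι κ : Type} [Fintype ι] [Fintype κ] [DecidableEq ι] [DecidableEq κ]
    {X Y : Cpx} {c : Chain}
    {G : Matrix ι ι ℤ} (h : HasForm X Y c G) (P : Matrix κ ι ℤ) (Q : Matrix ι κ ℤ)
    (hPQ : P * Q = 1) (hQP : Q * P = 1) : HasForm X Y c (P * G * P.transpose) := by
  obtain ⟨α, h1, h2, h3⟩ := h
  refine ⟨fun k s => ∑ i, P k i * α i s, fun k => RelCocycle.lin h1 _, ?_, ?_⟩
  · intro a ha
    have key : ∀ (m : κ → ℤ) (s : Finset ℕ),
        ∑ k, m k * ∑ i, P k i * α i s = ∑ i, (Matrix.vecMul m P) i * α i s := by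
      intro m s
      simp only [Matrix.vecMul, dotProduct, Finset.mul_sum, Finset.sum_mul]
      rw [Finset.sum_comm]
      refine Finset.sum_congr rfl fun i _ => Finset.sum_congr rfl fun k _ => by ring
    obtain ⟨m, hm, hu⟩ := h2 a ha
    refine ⟨Matrix.vecMul m Q, ?_, ?_⟩
    · have : Matrix.vecMul (Matrix.vecMul m Q) P = m := by
        rw [Matrix.vecMul_vecMul, hQP, Matrix.vecMul_one]
      simp only [key, this]
      exact hm
    · intro m' hm'
      simp only [key] at hm'
      have := hu _ hm'
      rw [← this, Matrix.vecMul_vecMul, hPQ, Matrix.vecMul_one]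
  · intro k l
    show cupEval c (fun s => ∑ i, P k i * α i s) (fun s => ∑ i, P l i * α i s) = _
    rw [cupEval_lin]
    simp only [Matrix.mul_apply, Matrix.transpose_apply, Finset.sum_mul, h3]
    rw [Finset.sum_comm]
    refine Finset.sum_congr rfl fun i _ => Finset.sum_congr rfl fun j _ => by ring

end E8Genera
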