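import Mathlib

/-!
Certificates for integer matrices given as lists (helper48, P8): positive definiteness by a scaled
`L D L^T` decomposition, unimodularity by an explicit inverse, evenness, symmetry.
-/

namespace Pool.Agent.P8

open Matrix

/-- positive definiteness from `K G = sum_k d_k L_k^T L_k` with `L` upper triangular -/
theorem posDef_of_ldl48 {n : ℕ} (G : Matrix (Fin n) (Fin n) ℤ) (K : ℤ) (hK : 0 < K)
    (d : Fin n → ℤ) (hd : ∀ i, 0 < d i) (L : Matrix (Fin n) (Fin n) ℤ) (hL : ∀ i, L i i ≠ 0)
    (htri : ∀ i j, j < i → L i j = 0)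
    (h : ∀ i j, K * G i j = ∑ k, d k * L k i * L k j) (x : Fin n → ℤ) (hx : x ≠ 0) :
    0 < x ⬝ᵥ G *ᵥ x := by
  have key : K * (x ⬝ᵥ G *ᵥ x) = ∑ k, d k * (∑ i, L k i * x i) ^ 2 := by
    have e1 : K * (x ⬝ᵥ G *ᵥ x) = ∑ i, ∑ j, (K * G i j) * (x i * x j) := by
      simp only [dotProduct, mulVec, Finset.mul_sum]
      refine Finset.sum_congr rfl fun i _ => Finset.sum_congr rfl fun j _ => ?_
      ring
    have e2 : ∀ k, d k * (∑ i, L k i * x i) ^ 2
        = ∑ i, ∑ j, d k * L k i * L k j * (x i * x j) := by
      intro k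
      rw [sq, Finset.sum_mul_sum, Finset.mul_sum]
      refine Finset.sum_congr rfl fun i _ => ?_
      rw [Finset.mul_sum]
      refine Finset.sum_congr rfl fun j _ => ?_
      ring
    rw [e1]
    simp_rw [e2, h, Finset.sum_mul]
    conv_rhs => rw [Finset.sum_comm]
    refine Finset.sum_congr rfl fun i _ => ?_
    exact Finset.sum_comm
  have nonneg : ∀ k, 0 ≤ d k * (∑ i, L k i * x i) ^ 2 := fun k =>
    mul_nonneg (hd k).le (sq_nonneg _)
  have hne : ∃ k, (∑ i, L k i * x i) ≠ 0 := by
    by_contra hcon
    push Not at hcon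
    apply hx
    funext i
    simp only [Pi.zero_apply]
    -- downward induction on i
    have main : ∀ m : ℕ, ∀ i : Fin n, n ≤ i.1 + m → x i = 0 := by
      intro m
      induction m with
      | zero => intro i hi; omega
      | succ m ih =>
        intro i hi
        have h0 := hcon i
        rw [Finset.sum_eq_single i] at h0
        · exact (mul_eq_zero.mp h0).resolve_left (hL i)
        · intro j _ hji
          rcases lt_or_gt_of_ne hji with hlt | hgt
          · rw [htri i j hlt, zero_mul]
          · rw [ih j (by have : i.1 < j.1 := hgt; omega), mul_zero]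
        · intro hi'; exact absurd (Finset.mem_univ i) hi'
    exact main n i (by omega)
  obtain ⟨k, hk⟩ := hne
  have hpos : 0 < ∑ k, d k * (∑ i, L k i * x i) ^ 2 :=
    Finset.sum_pos' (fun k _ => nonneg k)
      ⟨k, Finset.mem_univ k, mul_pos (hd k) (lt_of_le_of_ne (sq_nonneg _) (Ne.symm (pow_ne_zero 2 hk)))⟩
  rw [← key] at hpos
  exact (pos_iff_pos_of_mul_pos hpos).mp hK

/-! ### lists of lists -/

/-- entry of a list of rows -/
def ent48 (M : List (List ℤ)) (i j : ℕ) : ℤ := (M.getD i []).getD j 0

/-- the matrix given by a list of rows -/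
def matL48 (n : ℕ) (M : List (List ℤ)) : Matrix (Fin n) (Fin n) ℤ := fun i j => ent48 M i j

/-- addition of vectors of arbitrary lengths -/
def vadd48 : List ℤ → List ℤ → List ℤ
  | [], m => m
  | a :: l, [] => a :: l
  | a :: l, b :: m => (a + b) :: vadd48 l m

lemma getD_vadd48 : ∀ (l m : List ℤ) (i : ℕ), (vadd48 l m).getD i 0 = l.getD i 0 + m.getD i 0
  | [], m, i => by simp [vadd48]
  | a :: l, [], i => by simp [vadd48]
  | a :: l, b :: m, 0 => by simp [vadd48]
  | a :: l, b :: m, i + 1 => by
    have := getD_vadd48 l m i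
    simpa [vadd48] using this

/-- addition of matrices of arbitrary sizes -/
def madd48 : List (List ℤ) → List (List ℤ) → List (List ℤ)
  | [], m => m
  | a :: l, [] => a :: l
  | a :: l, b :: m => vadd48 a b :: madd48 l m

lemma ent_madd48 : ∀ (l m : List (List ℤ)) (i j : ℕ),
    ent48 (madd48 l m) i j = ent48 l i j + ent48 m i j
  | [], m, i, j => by simp [madd48, ent48]
  | a :: l, [], i, j => by simp [madd48, ent48]
  | a :: l, b :: m, 0, j => getD_vadd48 a b j
  | a :: l, b :: m, i + 1, j => by
    have := ent_madd48 l m i j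
    simpa [madd48, ent48] using this

lemma getD_map_zero48 (f : ℤ → ℤ) (hf : f 0 = 0) (l : List ℤ) (i : ℕ) :
    (l.map f).getD i 0 = f (l.getD i 0) := by
  by_cases h : i < l.length
  · simp [h]
  · rw [List.getD_eq_default _ _ (by simpa using h), List.getD_eq_default _ _ (by omega), hf]

/-- `c v v^T` -/
def rank148 (c : ℤ) (v : List ℤ) : List (List ℤ) := v.map fun a => v.map fun b => c * a * b

lemma ent_rank148 (c : ℤ) (v : List ℤ) (i j : ℕ) :
    ent48 (rank148 c v) i j = c * v.getD i 0 * v.getD j 0 := by
  unfold ent48 rank148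
  by_cases h : i < v.length
  · have e : (v.map fun a => v.map fun b => c * a * b).getD i [] = v.map fun b => c * v[i] * b := by
      rw [List.getD_eq_getElem _ _ (by simpa using h), List.getElem_map]
    rw [e, getD_map_zero48 _ (by simp), List.getD_eq_getElem _ _ h]
  · have e : (v.map fun a => v.map fun b => c * a * b).getD i [] = [] :=
      List.getD_eq_default _ _ (by simpa using h)
    have e' : v.getD i 0 = 0 := List.getD_eq_default _ _ (by omega)
    rw [e, e']
    simp

/-- `sum_k d_k v_k v_k^T` -/
def gramSum48 (dv : List (ℤ × List ℤ)) : List (List ℤ) :=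
  dv.foldr (fun p acc => madd48 (rank148 p.1 p.2) acc) []

lemma ent_gramSum48 (dv : List (ℤ × List ℤ)) (i j : ℕ) :
    ent48 (gramSum48 dv) i j = (dv.map fun p => p.1 * p.2.getD i 0 * p.2.getD j 0).sum := by
  induction dv with
  | nil => simp [gramSum48, ent48]
  | cons p dv ih =>
    have : gramSum48 (p :: dv) = madd48 (rank148 p.1 p.2) (gramSum48 dv) := rfl
    rw [this, ent_madd48, ent_rank148, ih]
    simp

/-- `K M` -/
def mscale48 (K : ℤ) (M : List (List ℤ)) : List (List ℤ) := M.map fun r => r.map fun a => K * a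

lemma ent_mscale48 (K : ℤ) (M : List (List ℤ)) (i j : ℕ) :
    ent48 (mscale48 K M) i j = K * ent48 M i j := by
  unfold ent48 mscale48
  by_cases h : i < M.length
  · have e : (M.map fun r => r.map fun a => K * a).getD i [] = M[i].map fun a => K * a := by
      rw [List.getD_eq_getElem _ _ (by simpa using h), List.getElem_map]
    rw [e, getD_map_zero48 _ (by simp), List.getD_eq_getElem _ _ h]
  · have e : (M.map fun r => r.map fun a => K * a).getD i [] = [] :=
      List.getD_eq_default _ _ (by simpa using h)
    have e' : M.getD i [] = [] := List.getD_eq_default _ _ (by omega)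
    rw [e, e']
    simp

/-- the shape of the triangular certificate, starting with row number `k` -/
def tri48 : ℕ → List (ℤ × List ℤ) → Bool
  | _, [] => true
  | k, p :: dv => decide (0 < p.1) && (p.2.take k).all (fun a => decide (a = 0)) &&
      decide (p.2.getD k 0 ≠ 0) && tri48 (k + 1) dv

lemma tri48_spec : ∀ (dv : List (ℤ × List ℤ)) (k : ℕ), tri48 k dv = true → ∀ i (hi : i < dv.length),
    0 < (dv[i]).1 ∧ (∀ j, j < k + i → (dv[i]).2.getD j 0 = 0) ∧ (dv[i]).2.getD (k + i) 0 ≠ 0
  | [], _, _, i, hi => by simp at hi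
  | p :: dv, k, h, 0, _ => by
    simp only [tri48, Bool.and_eq_true, decide_eq_true_eq, List.all_eq_true] at h
    obtain ⟨⟨⟨h1, h2⟩, h3⟩, _⟩ := h
    refine ⟨h1, ?_, by simpa using h3⟩
    intro j hj
    simp only [List.getElem_cons_zero]
    by_cases hjl : j < p.2.length
    · rw [List.getD_eq_getElem _ _ hjl]
      apply h2
      rw [List.mem_take_iff_getElem]
      exact ⟨j, by simp; omega, rfl⟩
    · exact List.getD_eq_default _ _ (by omega)
  | p :: dv, k, h, i + 1, hi => by
    simp only [tri48, Bool.and_eq_true] at h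
    have := tri48_spec dv (k + 1) h.2 i (by simpa using hi)
    simp only [List.getElem_cons_succ]
    have e : k + 1 + i = k + (i + 1) := by ring
    rw [e] at this
    exact this

/-- Bool check: `G` (a list of `n` rows) is positive definite, certificate `K, dv` -/
def posCheck48 (n : ℕ) (G : List (List ℤ)) (K : ℤ) (dv : List (ℤ × List ℤ)) : Bool :=
  decide (0 < K) && decide (dv.length = n) && tri48 0 dv && decide (mscale48 K G = gramSum48 dv)

theorem posCheck48_sound {n : ℕ} {G : List (List ℤ)} {K : ℤ} {dv : List (ℤ × List ℤ)}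
    (h : posCheck48 n G K dv = true) (x : Fin n → ℤ) (hx : x ≠ 0) :
    0 < x ⬝ᵥ matL48 n G *ᵥ x := by
  simp only [posCheck48, Bool.and_eq_true, decide_eq_true_eq] at h
  obtain ⟨⟨⟨hK, hlen⟩, htri⟩, hG⟩ := h
  subst hlen
  have T := tri48_spec dv 0 htri
  refine posDef_of_ldl48 _ K hK (fun k => (dv[k.1]).1) (fun k => (T k.1 k.2).1)
    (fun k i => (dv[k.1]).2.getD i.1 0) (fun k => by simpa using (T k.1 k.2).2.2)
    (fun k j hj => (T k.1 k.2).2.1 j.1 (by simpa using hj)) ?_ x hx
  intro i j
  have e : ent48 (mscale48 K G) i j = ent48 (gramSum48 dv) i j := by rw [hG]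
  rw [ent_mscale48, ent_gramSum48] at e
  have e3 : (K * matL48 dv.length G i j) = K * ent48 G i j := rfl
  rw [e3, e, ← Fin.sum_univ_getElem]
  simp only [List.getElem_map]
  refine Fintype.sum_equiv (finCongr (by simp)) _ _ ?_
  intro a
  rfl

/-! ### product of two matrices -/

/-- `sum_k w_k r_k` for coefficients `w` and rows `r` -/
def lin48 : List ℤ → List (List ℤ) → List ℤ
  | [], _ => []
  | _ :: _, [] => []
  | a :: w, r :: R => vadd48 (r.map fun b => a * b) (lin48 w R)

lemma getD_lin48 : ∀ (w : List ℤ) (R : List (List ℤ)) (n j : ℕ), w.length ≤ n →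
    (lin48 w R).getD j 0 = ∑ k : Fin n, w.getD k 0 * ent48 R k j
  | [], R, n, j, _ => by simp [lin48]
  | a :: w, [], n, j, _ => by simp [lin48, ent48]
  | a :: w, r :: R, 0, j, h => by simp at h
  | a :: w, r :: R, n + 1, j, h => by
    have ih := getD_lin48 w R n j (by simpa using h)
    rw [Fin.sum_univ_succ]
    simp only [lin48, getD_vadd48, getD_map_zero48 (fun b => a * b) (by simp), ih]
    simp [ent48]

/-- product of matrices -/
def mmul48 (A B : List (List ℤ)) : List (List ℤ) := A.map fun r => lin48 r B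

lemma ent_mmul48 (A B : List (List ℤ)) (n : ℕ) (hA : ∀ r ∈ A, r.length ≤ n) (i j : ℕ) :
    ent48 (mmul48 A B) i j = ∑ k : Fin n, ent48 A i k * ent48 B k j := by
  unfold mmul48
  by_cases h : i < A.length
  · have e : (A.map fun r => lin48 r B).getD i [] = lin48 A[i] B := by
      rw [List.getD_eq_getElem _ _ (by simpa using h), List.getElem_map]
    have e' : A.getD i [] = A[i] := List.getD_eq_getElem _ _ h
    simp only [ent48, e, e']
    exact getD_lin48 _ _ n j (hA _ (List.getElem_mem h))
  · have e : (A.map fun r => lin48 r B).getD i [] = [] :=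
      List.getD_eq_default _ _ (by simpa using h)
    have e' : A.getD i [] = [] := List.getD_eq_default _ _ (by omega)
    simp only [ent48, e, e']
    simp

/-- the identity matrix -/
def idL48 (n : ℕ) : List (List ℤ) :=
  (List.range n).map fun i => (List.range n).map fun j => if i = j then 1 else 0

lemma ent_idL48 (n : ℕ) (i j : Fin n) : ent48 (idL48 n) i j = (1 : Matrix (Fin n) (Fin n) ℤ) i j := by
  unfold ent48 idL48
  have e : ((List.range n).map fun i => (List.range n).map fun j => if i = j then (1 : ℤ) else 0).getD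
      i.1 [] = (List.range n).map fun j => if i.1 = j then (1 : ℤ) else 0 := by
    rw [List.getD_eq_getElem _ _ (by simp)]
    simp
  rw [e, List.getD_eq_getElem _ _ (by simp)]
  simp [Matrix.one_apply, Fin.ext_iff]

/-- Bool check: `A * B = 1` for `n × n` matrices -/
def invCheck48 (n : ℕ) (A B : List (List ℤ)) : Bool :=
  A.all (fun r => Nat.ble r.length n) && decide (mmul48 A B = idL48 n)

theorem invCheck48_sound {n : ℕ} {A B : List (List ℤ)} (h : invCheck48 n A B = true) :
    matL48 n A * matL48 n B = 1 := by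
  simp only [invCheck48, Bool.and_eq_true, decide_eq_true_eq, List.all_eq_true, Nat.ble_eq] at h
  obtain ⟨hA, hE⟩ := h
  ext i j
  rw [← ent_idL48, ← hE, ent_mmul48 A B n hA, Matrix.mul_apply]
  rfl

/-- Bool check: all diagonal entries are even -/
def evenCheck48 (n : ℕ) (G : List (List ℤ)) : Bool :=
  (List.range n).all fun i => decide (ent48 G i i % 2 = 0)

theorem evenCheck48_sound {n : ℕ} {G : List (List ℤ)} (h : evenCheck48 n G = true) (i : Fin n) :
    Even (matL48 n G i i) := by
  simp only [evenCheck48, List.all_eq_true, decide_eq_true_eq, List.mem_range] at h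
  exact Int.even_iff.mpr (h i.1 i.2)

end Pool.Agent.P8
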