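import Pool.Agent.P8.Or48
import Pool.Agent.P8.Ldl48

/-!
Gram matrix of the cup product form (helper48, P8, row T5, C4).
-/

namespace E8Genera

open Pool.Agent.P8

/-! ### front and back faces -/

lemma front_five48 {a b c d e : ℕ} (h1 : a < b) (h2 : b < c) (h3 : c < d) (h4 : d < e) :
    front {a, b, c, d, e} = {a, b, c} := by
  have fa : ({a, b, c, d, e} : Finset ℕ).filter (fun w => w < a) = ∅ := by
    ext w; simp; omega
  have fb : ({a, b, c, d, e} : Finset ℕ).filter (fun w => w < b) = {a} := by
    ext w; simp; omega
  have fc : ({a, b, c, d, e} : Finset ℕ).filter (fun w => w < c) = {a, b} := by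
    ext w; simp; omega
  have fd : ({a, b, c, d, e} : Finset ℕ).filter (fun w => w < d) = {a, b, c} := by
    ext w; simp; omega
  have fe : ({a, b, c, d, e} : Finset ℕ).filter (fun w => w < e) = {a, b, c, d} := by
    ext w; simp; omega
  have ca : (∅ : Finset ℕ).card = 0 := rfl
  have cb : ({a} : Finset ℕ).card = 1 := by simp
  have cc : ({a, b} : Finset ℕ).card = 2 := Finset.card_pair (by omega)
  have cd : ({a, b, c} : Finset ℕ).card = 3 := by
    rw [Finset.card_insert_of_notMem (by simp; omega), Finset.card_pair (by omega)]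
  have ce : ({a, b, c, d} : Finset ℕ).card = 4 := by
    rw [Finset.card_insert_of_notMem (by simp; omega),
      Finset.card_insert_of_notMem (by simp; omega), Finset.card_pair (by omega)]
  ext v
  simp only [front, Finset.mem_filter, Finset.mem_insert, Finset.mem_singleton]
  constructor
  · rintro ⟨rfl | rfl | rfl | rfl | rfl, hv⟩
    · left; rfl
    · right; left; rfl
    · right; right; rfl
    · rw [fd, cd] at hv; omega
    · rw [fe, ce] at hv; omega
  · rintro (rfl | rfl | rfl)
    · exact ⟨Or.inl rfl, by rw [fa, ca]; omega⟩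
    · exact ⟨Or.inr (Or.inl rfl), by rw [fb, cb]; omega⟩
    · exact ⟨Or.inr (Or.inr (Or.inl rfl)), by rw [fc, cc]; omega⟩

lemma back_five48 {a b c d e : ℕ} (h1 : a < b) (h2 : b < c) (h3 : c < d) (h4 : d < e) :
    back {a, b, c, d, e} = {c, d, e} := by
  have fe : ({a, b, c, d, e} : Finset ℕ).filter (fun w => e < w) = ∅ := by
    ext w; simp; omega
  have fd : ({a, b, c, d, e} : Finset ℕ).filter (fun w => d < w) = {e} := by
    ext w; simp; omega
  have fc : ({a, b, c, d, e} : Finset ℕ).filter (fun w => c < w) = {d, e} := by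
    ext w; simp; omega
  have fb : ({a, b, c, d, e} : Finset ℕ).filter (fun w => b < w) = {c, d, e} := by
    ext w; simp; omega
  have fa : ({a, b, c, d, e} : Finset ℕ).filter (fun w => a < w) = {b, c, d, e} := by
    ext w; simp; omega
  have ce : (∅ : Finset ℕ).card = 0 := rfl
  have cd : ({e} : Finset ℕ).card = 1 := by simp
  have cc : ({d, e} : Finset ℕ).card = 2 := Finset.card_pair (by omega)
  have cb : ({c, d, e} : Finset ℕ).card = 3 := by
    rw [Finset.card_insert_of_notMem (by simp; omega), Finset.card_pair (by omega)]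
  have ca : ({b, c, d, e} : Finset ℕ).card = 4 := by
    rw [Finset.card_insert_of_notMem (by simp; omega),
      Finset.card_insert_of_notMem (by simp; omega), Finset.card_pair (by omega)]
  ext v
  simp only [back, Finset.mem_filter, Finset.mem_insert, Finset.mem_singleton]
  constructor
  · rintro ⟨rfl | rfl | rfl | rfl | rfl, hv⟩
    · rw [fa, ca] at hv; omega
    · rw [fb, cb] at hv; omega
    · left; rfl
    · right; left; rfl
    · right; right; rfl
  · rintro (rfl | rfl | rfl)
    · exact ⟨by simp, by rw [fc, cc]; omega⟩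
    · exact ⟨by simp, by rw [fd, cd]; omega⟩
    · exact ⟨by simp, by rw [fe, ce]; omega⟩

/-! ### evaluation of the cup product on a listed chain -/

lemma cupEval_zero48 {R : Type*} [CommRing R] (a b : Finset ℕ → R) :
    cupEval (0 : Chain) a b = 0 := by simp [cupEval]

lemma cupEval_add48 {R : Type*} [CommRing R] (c c' : Chain) (a b : Finset ℕ → R) :
    cupEval (c + c') a b = cupEval c a b + cupEval c' a b := by
  unfold cupEval
  rw [Finsupp.sum_add_index']
  · intro s; simp
  · intro s m m'; exact add_smul _ _ _

lemma cupEval_single48 {R : Type*} [CommRing R] (s : Finset ℕ) (m : ℤ) (a b : Finset ℕ → R) :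
    cupEval (Finsupp.single s m) a b = m • (a (front s) * b (back s)) := by
  unfold cupEval
  rw [Finsupp.sum_single_index]
  simp

lemma cupEval_chainOf48 (L : List (ℕ × Bool)) (a b : Finset ℕ → ℤ) :
    cupEval (chainOf L) a b =
      (L.map fun p => sg48 p.2 * (a (front (dec p.1)) * b (back (dec p.1)))).sum := by
  induction L with
  | nil => simp [chainOf, cupEval_zero48]
  | cons p L ih =>
    rw [chainOf_cons48, cupEval_add48, cupEval_single48, ih]
    simp

/-! ### the Gram matrix -/

/-- `± u v^T`, rows with zero coefficient left empty -/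
def outer48 (o : Bool) (u v : List ℤ) : List (List ℤ) :=
  u.map fun a => if a = 0 then [] else v.map fun b => if o then a * b else -(a * b)

lemma ent_outer48 (o : Bool) (u v : List ℤ) (i j : ℕ) :
    ent48 (outer48 o u v) i j = sg48 o * (u.getD i 0 * v.getD j 0) := by
  unfold ent48 outer48
  by_cases h : i < u.length
  · have e : (u.map fun a => if a = 0 then [] else v.map fun b =>
        if o then a * b else -(a * b)).getD i [] = if u[i] = 0 then [] else v.map fun b =>
        if o then u[i] * b else -(u[i] * b) := by
      rw [List.getD_eq_getElem _ _ (by simpa using h), List.getElem_map]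
    rw [e, List.getD_eq_getElem _ _ h]
    by_cases h0 : u[i] = 0
    · rw [if_pos h0, h0]; simp
    · rw [if_neg h0, getD_map_zero48 _ (by simp)]
      cases o <;> simp [sg48]
  · have e : (u.map fun a => if a = 0 then [] else v.map fun b =>
        if o then a * b else -(a * b)).getD i [] = [] :=
      List.getD_eq_default _ _ (by simpa using h)
    have e' : u.getD i 0 = 0 := List.getD_eq_default _ _ (by omega)
    rw [e, e']
    simp

/-- `sum_q o(q) F(q) B(q)^T`, `q` the position in the list counted from `q0` -/
def gramSumQ48 (F B : ℕ → List ℤ) : List (ℕ × Bool) → ℕ → List (List ℤ)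
  | [], _ => []
  | p :: L, q => madd48 (outer48 p.2 (F q) (B q)) (gramSumQ48 F B L (q + 1))

theorem gram48 {n : ℕ} (α : Fin n → Finset ℕ → ℤ) (F B : ℕ → List ℤ) :
    ∀ (L : List (ℕ × Bool)) (q : ℕ),
    (∀ k (hk : k < L.length) (i : Fin n),
      α i (front (dec (L[k]).1)) = (F (q + k)).getD i 0) →
    (∀ k (hk : k < L.length) (i : Fin n),
      α i (back (dec (L[k]).1)) = (B (q + k)).getD i 0) →
    ∀ i j : Fin n, cupEval (chainOf L) (α i) (α j) = ent48 (gramSumQ48 F B L q) i j
  | [], q, _, _, i, j => by simp [chainOf, cupEval_zero48, gramSumQ48, ent48]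
  | p :: L, q, hF, hB, i, j => by
    have ih := gram48 α F B L (q + 1)
      (fun k hk i => by
        have := hF (k + 1) (by simpa using hk) i
        rw [List.getElem_cons_succ] at this
        rw [this]; congr 2; ring)
      (fun k hk i => by
        have := hB (k + 1) (by simpa using hk) i
        rw [List.getElem_cons_succ] at this
        rw [this]; congr 2; ring) i j
    have h1 := hF 0 (by simp) i
    have h2 := hB 0 (by simp) j
    simp only [List.getElem_cons_zero, add_zero] at h1 h2
    rw [chainOf_cons48, cupEval_add48, cupEval_single48, ih, gramSumQ48, ent_madd48, ent_outer48,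
      h1, h2]
    simp

/-- Bool check: the Gram matrix is `G` -/
def gramCheck48 (F B : ℕ → List ℤ) (L : List (ℕ × Bool)) (G : List (List ℤ)) : Bool :=
  decide (gramSumQ48 F B L 0 = G)

theorem gramCheck48_sound {n : ℕ} {α : Fin n → Finset ℕ → ℤ} {F B : ℕ → List ℤ}
    {L : List (ℕ × Bool)} {G : List (List ℤ)}
    (hF : ∀ k (hk : k < L.length) (i : Fin n), α i (front (dec (L[k]).1)) = (F k).getD i 0)
    (hB : ∀ k (hk : k < L.length) (i : Fin n), α i (back (dec (L[k]).1)) = (B k).getD i 0)
    (h : gramCheck48 F B L G = true) (i j : Fin n) :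
    cupEval (chainOf L) (α i) (α j) = matL48 n G i j := by
  have e : gramSumQ48 F B L 0 = G := by simpa [gramCheck48] using h
  rw [gram48 α F B L 0 (by simpa using hF) (by simpa using hB) i j, e]
  rfl

/-- the vector of the first `n` digits (base `2 ^ w`) of `c`, each diminished by `off` -/
def vec48 (w off n : ℕ) : ℕ → List ℤ :=
  Nat.rec (motive := fun _ => ℕ → List ℤ) (fun _ => [])
    (fun _ ih c => Int.subNatNat (Nat.mod c (Nat.pow 2 w)) off :: ih (Nat.shiftRight c w)) n

theorem getD_vec48 (w off : ℕ) : ∀ (n i c : ℕ), i < n →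
    (vec48 w off n c).getD i 0 = ((c / 2 ^ (w * i) % 2 ^ w : ℕ) : ℤ) - off
  | 0, i, c, h => absurd h (Nat.not_lt_zero i)
  | n + 1, 0, c, _ => by
    have : vec48 w off (n + 1) c =
        Int.subNatNat (c % 2 ^ w) off :: vec48 w off n (c >>> w) := rfl
    rw [this]
    simp [Int.subNatNat_eq_coe]
  | n + 1, i + 1, c, h => by
    have : vec48 w off (n + 1) c =
        Int.subNatNat (c % 2 ^ w) off :: vec48 w off n (c >>> w) := rfl
    rw [this, List.getD_cons_succ, getD_vec48 w off n i _ (by omega), Nat.shiftRight_eq_div_pow,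
      Nat.div_div_eq_div_mul, ← pow_add]
    congr 5
    ring

end E8Genera
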