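import Pool.Agent.P8.Span16
import Pool.Agent.P8.Gram48

/-!
The Gram matrix of the cocycles `al16`, by one pass over the facets.
-/

namespace E8Genera

open Pool.Agent.P8

/-- The packed values at the front and the back face of a facet, as vectors. -/
noncomputable def fvec77 (TT : Tr16 TV16) (O w off n : ℕ) (v : F5) : List ℤ :=
  vec48 w off n (pk16 TT O (m3 v.a v.b v.c))

/-- The packed values at the back face. -/
noncomputable def bvec77 (TT : Tr16 TV16) (O w off n : ℕ) (v : F5) : List ℤ :=
  vec48 w off n (pk16 TT O (m3 v.c v.d v.e))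

/-- The sum over the facets. -/
noncomputable def gram77 (TT : Tr16 TV16) (O w off n : ℕ) : List F5 → List (ℕ × Bool) →
    List (List ℤ)
  | [], _ => []
  | _ :: _, [] => []
  | v :: V, p :: L =>
    madd48 (outer48 p.2 (fvec77 TT O w off n v) (bvec77 TT O w off n v)) (gram77 TT O w off n V L)

theorem getD_fvec77 (TT : Tr16 TV16) (O w off n : ℕ) {i : ℕ} (hi : i < n) (m : ℕ) :
    (vec48 w off n (pk16 TT O m)).getD i 0 = al16 TT O (2 ^ w) off i (dec m) := by
  rw [getD_vec48 w off n i _ hi, al_dec16, dig_def16, pow_mul]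

theorem gram77_sound {TT : Tr16 TV16} {O w off n : ℕ} :
    ∀ (V : List F5) (L : List (ℕ × Bool)), leq16 (ms5 V) (L.map Prod.fst) = true →
      lall16 F5.ok V = true → ∀ i j : Fin n,
      cupEval (chainOf L) (al16 TT O (2 ^ w) off i) (al16 TT O (2 ^ w) off j) =
        ent48 (gram77 TT O w off n V L) i j
  | [], [], _, _, i, j => by simp [chainOf, cupEval_zero48, gram77, ent48]
  | [], p :: L, h, _, i, j => by
    have := leq_iff16 h
    simp [ms5] at this
  | v :: V, [], h, _, i, j => by
    have := leq_iff16 h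
    simp [ms5] at this
  | v :: V, p :: L, h, hok, i, j => by
    have h' : leq16 (v.m :: ms5 V) (p.1 :: L.map Prod.fst) = true := h
    have e : leq16 (v.m :: ms5 V) (p.1 :: L.map Prod.fst) =
      band16 (Nat.beq v.m p.1) (leq16 (ms5 V) (L.map Prod.fst)) := rfl
    rw [e, band_iff16] at h'
    have hm : v.m = p.1 := Nat.eq_of_beq_eq_true h'.1
    have hok' : lall16 F5.ok (v :: V) = band16 v.ok (lall16 F5.ok V) := rfl
    rw [hok', band_iff16] at hok
    obtain ⟨h1, h2, h3, h4⟩ := F5.ok_iff hok.1
    have ih := gram77_sound (TT := TT) (O := O) (w := w) (off := off) (n := n) V L h'.2 hok.2 i j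
    have hd : dec p.1 = {v.a, v.b, v.c, v.d, v.e} := by
      rw [← hm]
      exact dec_m5 _ _ _ _ _
    rw [chainOf_cons48, cupEval_add48, cupEval_single48, ih, hd, front_five48 h1 h2 h3 h4,
      back_five48 h1 h2 h3 h4, gram77, ent_madd48, ent_outer48, fvec77, bvec77,
      getD_fvec77 TT O w off n i.2, getD_fvec77 TT O w off n j.2, dec_m3, dec_m3]
    rfl

end E8Genera
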