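import Pool.Agent.P8.Elim16

/-!
The relative cocycles given by a table of packed values, and the spanning theorem.
-/

namespace E8Genera

/-- The mask of a finite set. -/
noncomputable def enc16 (s : Finset ℕ) : ℕ := Finset.equivBitIndices.symm s

theorem enc_dec16 (m : ℕ) : enc16 (dec m) = m := Finset.equivBitIndices.symm_apply_apply m

theorem dec_enc16 (s : Finset ℕ) : dec (enc16 s) = s := Finset.equivBitIndices.apply_symm_apply s

/-- Packed values. -/
noncomputable def pk16 (TT : Tr16 TV16) (O x : ℕ) : ℕ :=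
  force16 x fun x => TT.get O (fun v => v.A) x

/-- The digit of index `i` in base `B`. -/
noncomputable def dig16 (B i A : ℕ) : ℕ := Nat.mod (Nat.div A (Nat.pow B i)) B

theorem dig_def16 (B i A : ℕ) : dig16 B i A = A / B ^ i % B := rfl

/-- All digits of index below `n` are less than half of the base. -/
noncomputable def bnd16 (B n A : ℕ) : Bool :=
  nall16 (fun i => Nat.blt (Nat.mul 2 (dig16 B i A)) B) n

theorem bnd_spec16 {B n A : ℕ} (h : bnd16 B n A = true) : ∀ i < n, 2 * dig16 B i A < B :=
  fun i hi => lt_of_blt16 (nall_iff16.1 h i hi)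

theorem div_add16 {B n x y : ℕ} (hB : 0 < B) (hx : ∀ i < n, 2 * dig16 B i x < B)
    (hy : ∀ i < n, 2 * dig16 B i y < B) : ∀ i ≤ n, (x + y) / B ^ i = x / B ^ i + y / B ^ i := by
  intro i
  induction i with
  | zero => intro _; simp
  | succ i ih =>
    intro hi
    have h1 := hx i (by omega)
    have h2 := hy i (by omega)
    rw [dig_def16] at h1 h2
    rw [pow_succ, ← Nat.div_div_eq_div_mul, ← Nat.div_div_eq_div_mul, ← Nat.div_div_eq_div_mul,
      ih (by omega), Nat.add_div hB, if_neg (by omega), add_zero]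

theorem dig_add16 {B n x y : ℕ} (hB : 0 < B) (hx : ∀ i < n, 2 * dig16 B i x < B)
    (hy : ∀ i < n, 2 * dig16 B i y < B) {i : ℕ} (hi : i < n) :
    dig16 B i (x + y) = dig16 B i x + dig16 B i y := by
  have h1 := hx i hi
  have h2 := hy i hi
  rw [dig_def16] at h1 h2 ⊢
  rw [dig_def16, dig_def16, div_add16 hB hx hy i hi.le, Nat.add_mod, Nat.mod_eq_of_lt]
  omega

/-- The cochains given by the table. -/
noncomputable def al16 (TT : Tr16 TV16) (O B off i : ℕ) (s : Finset ℕ) : ℤ :=
  (dig16 B i (pk16 TT O (enc16 s)) : ℤ) - off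

theorem al_dec16 (TT : Tr16 TV16) (O B off i m : ℕ) :
    al16 TT O B off i (dec m) = (dig16 B i (pk16 TT O m) : ℤ) - off := by
  unfold al16
  rw [enc_dec16]

/-- Cocycle check on a tetrahedron. -/
noncomputable def coc16 (TT : Tr16 TV16) (O a b c d : ℕ) : Bool :=
  Nat.beq (Nat.add (pk16 TT O (m3 b c d)) (pk16 TT O (m3 a b d)))
    (Nat.add (pk16 TT O (m3 a c d)) (pk16 TT O (m3 a b c)))

/-- The certificate for the triangles. -/
structure CertT16 (V : List F5) (L : List ℕ) (W : List F4) (LY : List ℕ) (TT : Tr16 TV16)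
    (TY : Tr16 ℕ) (TYf TX : Tr16 Unit) (LL : List T316) (CR : List ℕ) (n B off O : ℕ) : Prop where
  dat : Dat5 V L
  datY : Dat4 W LY
  keys : leq16 (TX.keys []) L = true
  keysY : leq16 (TYf.keys []) LY = true
  node : TT.all (nodeT16 TT TY TYf TX LL CR) = true
  cov : lall16 (F5.all3 fun a b c => bor16 (TT.has (m3 a b c)) (memY16 TY TYf (m3 a b c))) V = true
  list : chkL16 LY LL [] = true
  bound : TT.all (fun _ v => bnd16 B n v.A) = true
  boundO : bnd16 B n O = true
  digO : nall16 (fun i => Nat.beq (dig16 B i O) off) n = true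
  coc : lall16 (F5.all4 (coc16 TT O)) V = true
  zeroY : lall16 (F4.all3 fun a b c => Nat.beq (pk16 TT O (m3 a b c)) O) W = true
  zeroL : lall16 (fun p : T316 => Nat.beq (pk16 TT O (m3 p.a p.b p.w)) O) LL = true
  crit : nall16 (fun j => force16 (pk16 TT O (CR.getD j 0)) fun x =>
    nall16 (fun i => Nat.beq (dig16 B i x)
      (Bool.rec (motive := fun _ => ℕ) off (Nat.succ off) (Nat.beq i j))) n) n = true
  len : Nat.beq CR.length n = true
  pos : Nat.blt 0 B = true

variable {V : List F5} {L : List ℕ} {W : List F4} {LY : List ℕ} {TT : Tr16 TV16}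
  {TY : Tr16 ℕ} {TYf TX : Tr16 Unit} {LL : List T316} {CR : List ℕ} {n B off O : ℕ}

theorem CertT16.pk_bound (C : CertT16 V L W LY TT TY TYf TX LL CR n B off O) (x : ℕ) :
    ∀ i < n, 2 * dig16 B i (pk16 TT O x) < B := by
  unfold pk16
  rw [force_eq16]
  rcases TT.get_cases O (fun v => v.A) x with e | ⟨v, hv, e⟩
  · rw [e]
    exact bnd_spec16 C.boundO
  · rw [e]
    exact bnd_spec16 (Tr16.all_iff.1 C.bound _ _ hv)

theorem CertT16.al_of_pk (C : CertT16 V L W LY TT TY TYf TX LL CR n B off O) {m : ℕ}
    (h : Nat.beq (pk16 TT O m) O = true) {i : ℕ} (hi : i < n) :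
    al16 TT O B off i (dec m) = 0 := by
  rw [al_dec16, Nat.eq_of_beq_eq_true h, Nat.eq_of_beq_eq_true (nall_iff16.1 C.digO i hi)]
  simp

theorem sgn4_16 {a b c d : ℕ} (h1 : a < b) (h2 : b < c) (h3 : c < d) {A : Type*} [AddCommGroup A]
    (x : Finset ℕ → A) :
    cobd x {a, b, c, d} = x {b, c, d} - x {a, c, d} + x {a, b, d} - x {a, b, c} := by
  have f1 : (({a, b, c, d} : Finset ℕ).filter fun w => w < a) = ∅ := by
    ext x; simp only [Finset.mem_filter, Finset.mem_insert, Finset.mem_singleton,
      Finset.notMem_empty, iff_false]; omega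
  have f2 : (({a, b, c, d} : Finset ℕ).filter fun w => w < b) = {a} := by
    ext x; simp only [Finset.mem_filter, Finset.mem_insert, Finset.mem_singleton]; omega
  have f3 : (({a, b, c, d} : Finset ℕ).filter fun w => w < c) = {a, b} := by
    ext x; simp only [Finset.mem_filter, Finset.mem_insert, Finset.mem_singleton]; omega
  have f4 : (({a, b, c, d} : Finset ℕ).filter fun w => w < d) = {a, b, c} := by
    ext x; simp only [Finset.mem_filter, Finset.mem_insert, Finset.mem_singleton]; omega
  have e1 : ({a, b, c, d} : Finset ℕ).erase a = {b, c, d} := by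
    ext x; simp only [Finset.mem_erase, Finset.mem_insert, Finset.mem_singleton]; omega
  have e2 : ({a, b, c, d} : Finset ℕ).erase b = {a, c, d} := by
    ext x; simp only [Finset.mem_erase, Finset.mem_insert, Finset.mem_singleton]; omega
  have e3 : ({a, b, c, d} : Finset ℕ).erase c = {a, b, d} := by
    ext x; simp only [Finset.mem_erase, Finset.mem_insert, Finset.mem_singleton]; omega
  have e4 : ({a, b, c, d} : Finset ℕ).erase d = {a, b, c} := by
    ext x; simp only [Finset.mem_erase, Finset.mem_insert, Finset.mem_singleton]; omega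
  unfold cobd
  rw [Finset.sum_insert (by simp only [Finset.mem_insert, Finset.mem_singleton]; omega),
    Finset.sum_insert (by simp only [Finset.mem_insert, Finset.mem_singleton]; omega),
    Finset.sum_insert (by simp only [Finset.mem_singleton]; omega), Finset.sum_singleton,
    e1, e2, e3, e4]
  unfold sgn
  rw [f1, f2, f3, f4, Finset.card_empty, Finset.card_singleton, card_pair16 h1,
    card_triple16 (by omega) (by omega) (by omega)]
  simp only [pow_zero, one_smul, pow_one, neg_smul]
  norm_num
  abel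

/-- The cochains of the table are relative cocycles. -/
theorem CertT16.relCocycle (C : CertT16 V L W LY TT TY TYf TX LL CR n B off O) {i : ℕ}
    (hi : i < n) : RelCocycle (cpxOf L) (cpxOf LY) (al16 TT O B off i) := by
  constructor
  · intro s hs
    obtain ⟨a, b, c, rfl, _, _, hp⟩ := C.datY.all3 C.zeroY hs
    have := C.al_of_pk hp hi
    rwa [dec_m3] at this
  · intro s hs
    obtain ⟨a, b, c, d, rfl, h1, h2, h3, hp⟩ := C.dat.all4 C.coc hs
    rw [sgn4_16 h1 h2 h3]
    have hB : 0 < B := lt_of_blt16 C.pos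
    have e : pk16 TT O (m3 b c d) + pk16 TT O (m3 a b d) =
        pk16 TT O (m3 a c d) + pk16 TT O (m3 a b c) := Nat.eq_of_beq_eq_true hp
    have e' := congrArg (dig16 B i) e
    rw [dig_add16 hB (C.pk_bound _) (C.pk_bound _) hi,
      dig_add16 hB (C.pk_bound _) (C.pk_bound _) hi] at e'
    rw [← dec_m3, ← dec_m3, ← dec_m3, ← dec_m3, al_dec16, al_dec16, al_dec16, al_dec16]
    have e'' : (dig16 B i (pk16 TT O (m3 b c d)) : ℤ) + dig16 B i (pk16 TT O (m3 a b d)) =
        dig16 B i (pk16 TT O (m3 a c d)) + dig16 B i (pk16 TT O (m3 a b c)) := by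
      exact_mod_cast e'
    linarith

/-- Every relative cocycle, with coefficients in any abelian group, is a combination of the
cocycles of the table up to a relative coboundary. -/
theorem CertT16.span (C : CertT16 V L W LY TT TY TYf TX LL CR n B off O) {A : Type*}
    [AddCommGroup A] (a : Finset ℕ → A) (ha : RelCocycle (cpxOf L) (cpxOf LY) a) :
    ∃ m : Fin n → A, RelCobdry (cpxOf L) (cpxOf LY)
      fun s => a s - ∑ i : Fin n, al16 TT O B off i s • m i := by
  obtain ⟨g, _, hgY, hg⟩ := gamma16 (LY := LY) a LL [] (fun _ => 0) C.list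
    (fun s hs => absurd rfl hs) (by simp)
  let m : Fin n → A := fun i => a (dec (CR.getD i 0)) - cobd g (dec (CR.getD i 0))
  have hlen : CR.length = n := Nat.eq_of_beq_eq_true C.len
  have hgY' : ∀ s, (∃ F ∈ cpxOf LY, s ⊆ F) → g s = 0 := by
    intro s hs
    by_contra h
    exact hgY s h hs
  let b : Finset ℕ → A := fun s => a s - cobd g s - ∑ i : Fin n, al16 TT O B off i s • m i
  have hcobY : ∀ s, FaceDim (cpxOf LY) 2 s → cobd g s = 0 := by
    rintro s ⟨⟨_, F, hF, hs⟩, _⟩
    unfold cobd
    refine Finset.sum_eq_zero fun v _ => ?_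
    rw [hgY' _ ⟨F, hF, (Finset.erase_subset _ _).trans hs⟩, smul_zero]
  have hbY : ∀ s, FaceDim (cpxOf LY) 2 s → b s = 0 := by
    intro s hs
    show a s - cobd g s - ∑ i : Fin n, al16 TT O B off i s • m i = 0
    rw [ha.1 s hs, hcobY s hs, Finset.sum_eq_zero]
    · simp
    · intro i _
      rw [(C.relCocycle i.2).1 s hs, zero_smul]
  have hbX : ∀ s, FaceDim (cpxOf L) 3 s → cobd b s = 0 := by
    intro s hs
    have e1 : cobd b s = cobd (fun t => a t - cobd g t) s -
        cobd (fun t => ∑ i : Fin n, al16 TT O B off i t • m i) s :=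
      cobd_sub16 (fun t => a t - cobd g t) (fun t => ∑ i : Fin n, al16 TT O B off i t • m i) s
    have e2 : cobd (fun t => a t - cobd g t) s = cobd a s - cobd (cobd g) s :=
      cobd_sub16 a (cobd g) s
    rw [e1, e2, ha.2 s hs, cobd_cobd16, cobd_smul16 (fun i : Fin n => al16 TT O B off i) m s,
      Finset.sum_eq_zero]
    · simp
    · intro i _
      rw [(C.relCocycle i.2).2 s hs, zero_smul]
  have hbL : ∀ p ∈ LL, b {p.a, p.b, p.w} = 0 := by
    intro p hp
    show a {p.a, p.b, p.w} - cobd g {p.a, p.b, p.w} -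
      ∑ i : Fin n, al16 TT O B off i {p.a, p.b, p.w} • m i = 0
    rw [hg p hp, sub_self, zero_sub, neg_eq_zero]
    refine Finset.sum_eq_zero fun i _ => ?_
    have := C.al_of_pk (lall_iff16.1 C.zeroL p hp) i.2
    rw [dec_m3] at this
    rw [this, zero_smul]
  have hbC : ∀ k ∈ CR, b (dec k) = 0 := by
    intro k hk
    obtain ⟨j, hj, rfl⟩ := List.mem_iff_getElem.1 hk
    have hjn : j < n := by omega
    have hget : CR.getD j 0 = CR[j] := by
      rw [List.getD_eq_getElem?_getD, List.getElem?_eq_getElem hj]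
      rfl
    have hd : ∀ i : Fin n, al16 TT O B off i (dec CR[j]) = if i = ⟨j, hjn⟩ then 1 else 0 := by
      intro i
      have h1 := nall_iff16.1 C.crit j hjn
      have h1' := h1
      rw [force_eq16] at h1'
      have h2 := nall_iff16.1 h1' i i.2
      rw [hget] at h2
      rw [al_dec16, Nat.eq_of_beq_eq_true h2]
      by_cases hij : i = ⟨j, hjn⟩
      · rw [if_pos hij]
        have : Nat.beq (i : ℕ) j = true := by
          rw [hij]
          exact Nat.beq_refl j
        rw [this]
        show ((Nat.succ off : ℕ) : ℤ) - off = 1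
        push_cast
        ring
      · rw [if_neg hij]
        have : Nat.beq (i : ℕ) j = false := beq_false_iff16.2 fun h => hij (Fin.ext h)
        rw [this]
        show ((off : ℕ) : ℤ) - off = 0
        ring
    show a (dec CR[j]) - cobd g (dec CR[j]) - ∑ i : Fin n, al16 TT O B off i (dec CR[j]) • m i = 0
    rw [Finset.sum_eq_single (⟨j, hjn⟩ : Fin n)]
    · rw [hd, if_pos rfl, one_smul]
      show _ - (a (dec (CR.getD j 0)) - cobd g (dec (CR.getD j 0))) = 0
      rw [hget]
      abel
    · intro i _ hne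
      rw [hd, if_neg hne, zero_smul]
    · intro h
      exact absurd (Finset.mem_univ _) h
  have hk := kill_table16 C.keys C.keysY C.node hbY hbX hbL hbC
  refine ⟨m, g, ?_, ?_⟩
  · rintro s ⟨⟨_, F, hF, hs⟩, _⟩
    exact hgY' s ⟨F, hF, hs⟩
  · intro s hs
    have hs0 : b s = 0 := by
      obtain ⟨x, y, z, rfl, _, _, hp⟩ := C.dat.all3 C.cov hs
      rw [bor_iff16] at hp
      rcases hp with hp | hp
      · rcases TT.get_cases false (fun _ => true) (m3 x y z) with e | ⟨v, hv, _⟩
        · unfold Tr16.has at hp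
          rw [e] at hp
          exact absurd hp Bool.false_ne_true
        · have := hk _ _ v hv rfl
          rwa [dec_m3] at this
      · obtain ⟨F, hF, hsF⟩ := memY_spec16 C.keysY hp
        rw [dec_m3] at hsF
        exact hbY _ ⟨⟨hs.1.1, F, hF, hsF⟩, hs.2⟩
    have hs1 : a s - cobd g s - ∑ i : Fin n, al16 TT O B off i s • m i = 0 := hs0
    show a s - ∑ i : Fin n, al16 TT O B off i s • m i = cobd g s
    rw [sub_eq_zero] at hs1
    rw [← hs1]
    abel

end E8Genera
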