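import Pool.Agent.P8.Gram48
import Pool.Agent.P8.Span16

/-!
Gram matrix of the tabulated cocycles (helper48, P8).
-/

namespace E8Genera

open Pool.Agent.P8

/-- the vector of values given by a packed value -/
noncomputable def vO48 (w off n O x : ℕ) : List ℤ :=
  force16 x fun x => bif Nat.beq x O then [] else vec48 w off n x

/-- `sum ± u_q v_q^T` over the facets -/
noncomputable def gV48 (TT : Tr16 TV16) (w off n O : ℕ) : List F5 → List (ℕ × Bool) →
    List (List ℤ)
  | v :: V, p :: L => madd48 (outer48 p.2 (vO48 w off n O (pk16 TT O (m3 v.a v.b v.c)))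
      (vO48 w off n O (pk16 TT O (m3 v.c v.d v.e)))) (gV48 TT w off n O V L)
  | _, _ => []

lemma getD_vO48 {w off n O B : ℕ} (hB : B = 2 ^ w) (hO : ∀ i < n, dig16 B i O = off) (x : ℕ)
    {i : ℕ} (hi : i < n) : (vO48 w off n O x).getD i 0 = (dig16 B i x : ℤ) - off := by
  unfold vO48
  rw [force_eq16]
  by_cases h : Nat.beq x O = true
  · have hx : x = O := Nat.eq_of_beq_eq_true h
    rw [h, cond_true, hx, hO i hi]
    simp
  · rw [Bool.not_eq_true] at h
    rw [h, cond_false, getD_vec48 w off n i x hi, dig_def16, hB, ← pow_mul]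

lemma gV_spec48 {TT : Tr16 TV16} {w off n O B : ℕ} (hB : B = 2 ^ w)
    (hO : ∀ i < n, dig16 B i O = off) {i j : ℕ} (hi : i < n) (hj : j < n) :
    ∀ (V : List F5) (L : List (ℕ × Bool)), ms5 V = L.map Prod.fst → (∀ v ∈ V, F5.ok v = true) →
    cupEval (chainOf L) (al16 TT O B off i) (al16 TT O B off j) = ent48 (gV48 TT w off n O V L) i j
  | [], [], _, _ => by simp [chainOf, cupEval_zero48, gV48, ent48]
  | [], p :: L, h, _ => by
    have : ms5 [] = [] := rfl
    rw [this] at h
    simp at h
  | v :: V, [], h, _ => by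
    have : ms5 (v :: V) = v.m :: ms5 V := rfl
    rw [this] at h
    simp at h
  | v :: V, p :: L, h, hok => by
    have hm : ms5 (v :: V) = v.m :: ms5 V := rfl
    rw [hm, List.map_cons, List.cons.injEq] at h
    obtain ⟨h1, h2⟩ := h
    have ih := gV_spec48 (TT := TT) hB hO hi hj V L h2 (fun u hu => hok u (List.mem_cons_of_mem _ hu))
    obtain ⟨o1, o2, o3, o4⟩ := F5.ok_iff (hok v List.mem_cons_self)
    have hd : dec p.1 = {v.a, v.b, v.c, v.d, v.e} := by
      rw [← h1]; exact dec_m5 _ _ _ _ _
    rw [chainOf_cons48, cupEval_add48, cupEval_single48, ih, gV48, ent_madd48, ent_outer48,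
      getD_vO48 hB hO _ hi, getD_vO48 hB hO _ hj, hd, front_five48 o1 o2 o3 o4,
      back_five48 o1 o2 o3 o4, ← dec_m3, ← dec_m3, al_dec16, al_dec16]
    simp

theorem gram_cert48 {V : List F5} {L : List (ℕ × Bool)} {W : List F4} {LY : List ℕ}
    {TT : Tr16 TV16} {TY : Tr16 ℕ} {TYf TX : Tr16 Unit} {LL : List T316} {CR : List ℕ}
    {n B off O w : ℕ} (C : CertT16 V (L.map Prod.fst) W LY TT TY TYf TX LL CR n B off O)
    (hB : B = 2 ^ w) {G : List (List ℤ)} (h : decide (gV48 TT w off n O V L = G) = true)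
    (i j : Fin n) :
    cupEval (chainOf L) (al16 TT O B off i) (al16 TT O B off j) = matL48 n G i j := by
  have e : gV48 TT w off n O V L = G := by simpa using h
  rw [gV_spec48 hB (fun k hk => Nat.eq_of_beq_eq_true (nall_iff16.1 C.digO k hk)) i.2 j.2 V L
    (leq_iff16 C.dat.masks) (fun v hv => lall_iff16.1 C.dat.ok v hv), e]
  rfl

/-! ### definiteness, symmetry, evenness -/

theorem isDefinite_of_pos48 {n : ℕ} {G : List (List ℤ)} {K : ℤ} {dv : List (ℤ × List ℤ)}
    (h : posCheck48 n G K dv = true) : IsDefinite (matL48 n G) :=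
  Or.inl fun x hx => posCheck48_sound h x hx

theorem isDefinite_of_neg48 {n : ℕ} {G : List (List ℤ)} {K : ℤ} {dv : List (ℤ × List ℤ)}
    (h : posCheck48 n (mscale48 (-1) G) K dv = true) : IsDefinite (matL48 n G) := by
  refine Or.inr fun x hx => ?_
  have h1 := posCheck48_sound h x hx
  have e : matL48 n (mscale48 (-1) G) = -matL48 n G := by
    ext i j
    show ent48 (mscale48 (-1) G) i j = -ent48 G i j
    rw [ent_mscale48]; ring
  rw [e, Matrix.neg_mulVec, dotProduct_neg] at h1
  linarith

/-- Bool check: the matrix is symmetric -/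
def symCheck48 (n : ℕ) (G : List (List ℤ)) : Bool :=
  (List.range n).all fun i => (List.range n).all fun j => decide (ent48 G i j = ent48 G j i)

theorem symCheck48_sound {n : ℕ} {G : List (List ℤ)} (h : symCheck48 n G = true) (i j : Fin n) :
    matL48 n G i j = matL48 n G j i := by
  simp only [symCheck48, List.all_eq_true, decide_eq_true_eq, List.mem_range] at h
  exact h i.1 i.2 j.1 j.2

theorem two_dvd_of_evenCheck48 {n : ℕ} {G : List (List ℤ)} (h : evenCheck48 n G = true)
    (i : Fin n) : (2 : ℤ) ∣ matL48 n G i i :=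
  (evenCheck48_sound h i).two_dvd

end E8Genera
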