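import Pool.Agent.P8.Ldl48

/-!
The intersection form of rank 8 in the basis of the certificates is isometric to the negative of
the Cartan matrix `E₈`.
-/

namespace E8Genera

open Pool.Agent.P8

/-- The Gram matrix of the 8 cocycles. -/
def g1L43 : List (List ℤ) :=
  [[-2, -1, 1, -1, 0, 0, 0, 1],
   [-1, -2, 0, -1, 0, -1, 0, 1],
   [1, 0, -2, 0, 0, 0, 0, 0],
   [-1, -1, 0, -2, 1, 0, 0, 0],
   [0, 0, 0, 1, -2, 0, 0, 0],
   [0, -1, 0, 0, 0, -2, -1, 0],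
   [0, 0, 0, 0, 0, -1, -2, 0],
   [1, 1, 0, 0, 0, 0, 0, -2]]

/-- The rows are simple roots (for the negative form) in the order of the Cartan matrix. -/
def p1L43 : List (List ℤ) :=
  [[-1, -1, -1, 1, 1, 0, 0, -1],
   [-1, -1, 0, 1, 0, 0, 0, -1],
   [-1, 1, 0, 0, 0, 0, 0, 0],
   [2, 0, 1, -1, 0, 0, 0, 1],
   [-1, 0, -1, 1, 0, 0, 0, 0],
   [0, 0, 0, 0, 0, 0, 0, -1],
   [0, -1, 0, 0, 0, 1, 0, 0],
   [0, 0, 0, 0, 0, 0, -1, 0]]

/-- The inverse of the matrix of simple roots. -/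
def q1L43 : List (List ℤ) :=
  [[0, 0, 0, 1, 1, 1, 0, 0],
   [0, 0, 1, 1, 1, 1, 0, 0],
   [0, 1, 1, 1, 0, 0, 0, 0],
   [0, 1, 1, 2, 2, 1, 0, 0],
   [1, 0, 1, 1, 0, 0, 0, 0],
   [0, 0, 1, 1, 1, 1, 1, 0],
   [0, 0, 0, 0, 0, 0, 0, -1],
   [0, 0, 0, 0, 0, -1, 0, 0]]

theorem pq43 : matL48 8 p1L43 * matL48 8 q1L43 = 1 := by decide +kernel

theorem qp43 : matL48 8 q1L43 * matL48 8 p1L43 = 1 := by decide +kernel

theorem iso43 : matL48 8 p1L43 * matL48 8 g1L43 * (matL48 8 p1L43).transpose =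
    -CartanMatrix.E₈ := by decide +kernel

theorem symm43 : ∀ i j, matL48 8 g1L43 i j = matL48 8 g1L43 j i := by decide +kernel

theorem even43 : ∀ i, (2 : ℤ) ∣ matL48 8 g1L43 i i := by decide +kernel

/-- The inverse of the Gram matrix. -/
def h1L43 : List (List ℤ) :=
  [[-6, -6, -3, 8, 4, 4, -2, -6],
   [-6, -12, -3, 12, 6, 8, -4, -9],
   [-3, -3, -2, 4, 2, 2, -1, -3],
   [8, 12, 4, -14, -7, -8, 4, 10],
   [4, 6, 2, -7, -4, -4, 2, 5],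
   [4, 8, 2, -8, -4, -6, 3, 6],
   [-2, -4, -1, 4, 2, 3, -2, -3],
   [-6, -9, -3, 10, 5, 6, -3, -8]]

theorem inv43 : matL48 8 h1L43 * matL48 8 g1L43 = 1 := by decide +kernel

end E8Genera
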