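import Pool.Agent.P8.Defs

/-!
Cup products and Stokes' theorem on finite ordered simplicial complexes (in the degrees needed for
the intersection form of a 4-manifold with boundary).
-/

set_option autoImplicit false

namespace E8Genera

open Finset

section Eval

variable {A : Type*} [AddCommGroup A]

/-- evaluation of a cochain on a chain -/
noncomputable def ev (φ : Finset ℕ → A) (c : Chain) : A := c.sum fun s m => m • φ s

theorem ev_add (φ : Finset ℕ → A) (c d : Chain) : ev φ (c + d) = ev φ c + ev φ d := by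
  unfold ev
  exact Finsupp.sum_add_index' (fun _ => zero_smul _ _) (fun _ _ _ => add_smul _ _ _)

theorem ev_single (φ : Finset ℕ → A) (s : Finset ℕ) (m : ℤ) :
    ev φ (Finsupp.single s m) = m • φ s := by
  unfold ev
  exact Finsupp.sum_single_index (zero_smul _ _)

theorem ev_zero (φ : Finset ℕ → A) : ev φ 0 = 0 := by simp [ev]

theorem ev_sum {ι : Type*} (φ : Finset ℕ → A) (t : Finset ι) (f : ι → Chain) :
    ev φ (∑ i ∈ t, f i) = ∑ i ∈ t, ev φ (f i) := by
  classical
  induction t using Finset.induction_on with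
  | empty => simp [ev_zero]
  | insert i t hi ih => rw [Finset.sum_insert hi, Finset.sum_insert hi, ev_add, ih]

theorem ev_bd (φ : Finset ℕ → A) (c : Chain) : ev φ (bd c) = ev (cobd φ) c := by
  unfold bd
  rw [Finsupp.sum, ev_sum]
  rw [ev, Finsupp.sum]
  refine Finset.sum_congr rfl fun s _ => ?_
  rw [ev_sum, cobd, Finset.smul_sum]
  refine Finset.sum_congr rfl fun v _ => ?_
  rw [ev_single, mul_smul]

theorem ev_eq_zero (φ : Finset ℕ → A) (c : Chain) (h : ∀ s ∈ c.support, φ s = 0) : ev φ c = 0 := by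
  unfold ev
  refine Finset.sum_eq_zero fun s hs => ?_
  simp only [h s hs, smul_zero]

theorem ev_congr (φ ψ : Finset ℕ → A) (c : Chain) (h : ∀ s ∈ c.support, φ s = ψ s) :
    ev φ c = ev ψ c := by
  unfold ev
  exact Finset.sum_congr rfl fun s hs => by simp only [h s hs]

theorem ev_add_left (φ ψ : Finset ℕ → A) (c : Chain) :
    ev (fun s => φ s + ψ s) c = ev φ c + ev ψ c := by
  unfold ev
  rw [← Finsupp.sum_add]
  exact Finset.sum_congr rfl fun s _ => smul_add _ _ _

end Eval

section Explicit

variable {A : Type*} [AddCommGroup A]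

theorem cobd_pair (φ : Finset ℕ → A) {a b : ℕ} (hab : a < b) :
    cobd φ {a, b} = φ {b} - φ {a} := by
  have e0 : ({a, b} : Finset ℕ).erase a = {b} := by ext x; simp; omega
  have e1 : ({a, b} : Finset ℕ).erase b = {a} := by ext x; simp; omega
  have c0 : (({a, b} : Finset ℕ).filter fun w => w < a).card = 0 := by
    rw [Finset.card_eq_zero]; ext x; simp; omega
  have c1 : (({a, b} : Finset ℕ).filter fun w => w < b).card = 1 := by
    have : (({a, b} : Finset ℕ).filter fun w => w < b) = {a} := by ext x; simp; omega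
    rw [this]; simp
  unfold cobd sgn
  rw [Finset.sum_pair (by omega), e0, e1, c0, c1]
  simp
  abel

theorem cobd_triple (φ : Finset ℕ → A) {a b c : ℕ} (hab : a < b) (hbc : b < c) :
    cobd φ {a, b, c} = φ {b, c} - φ {a, c} + φ {a, b} := by
  have e0 : ({a, b, c} : Finset ℕ).erase a = {b, c} := by ext x; simp; omega
  have e1 : ({a, b, c} : Finset ℕ).erase b = {a, c} := by ext x; simp; omega
  have e2 : ({a, b, c} : Finset ℕ).erase c = {a, b} := by ext x; simp; omega
  have c0 : (({a, b, c} : Finset ℕ).filter fun w => w < a).card = 0 := by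
    rw [Finset.card_eq_zero]; ext x; simp; omega
  have c1 : (({a, b, c} : Finset ℕ).filter fun w => w < b).card = 1 := by
    have : (({a, b, c} : Finset ℕ).filter fun w => w < b) = {a} := by ext x; simp; omega
    rw [this]; simp
  have c2 : (({a, b, c} : Finset ℕ).filter fun w => w < c).card = 2 := by
    have : (({a, b, c} : Finset ℕ).filter fun w => w < c) = {a, b} := by ext x; simp; omega
    rw [this, Finset.card_pair (by omega)]
  unfold cobd sgn
  rw [Finset.sum_insert (by simp; omega), Finset.sum_pair (by omega), e0, e1, e2, c0, c1, c2]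
  simp
  abel

theorem cobd_four (φ : Finset ℕ → A) {a b c d : ℕ} (hab : a < b) (hbc : b < c) (hcd : c < d) :
    cobd φ {a, b, c, d} = φ {b, c, d} - φ {a, c, d} + φ {a, b, d} - φ {a, b, c} := by
  have e0 : ({a, b, c, d} : Finset ℕ).erase a = {b, c, d} := by ext x; simp; omega
  have e1 : ({a, b, c, d} : Finset ℕ).erase b = {a, c, d} := by ext x; simp; omega
  have e2 : ({a, b, c, d} : Finset ℕ).erase c = {a, b, d} := by ext x; simp; omega
  have e3 : ({a, b, c, d} : Finset ℕ).erase d = {a, b, c} := by ext x; simp; omega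
  have c0 : (({a, b, c, d} : Finset ℕ).filter fun w => w < a).card = 0 := by
    rw [Finset.card_eq_zero]; ext x; simp; omega
  have c1 : (({a, b, c, d} : Finset ℕ).filter fun w => w < b).card = 1 := by
    have : (({a, b, c, d} : Finset ℕ).filter fun w => w < b) = {a} := by ext x; simp; omega
    rw [this]; simp
  have c2 : (({a, b, c, d} : Finset ℕ).filter fun w => w < c).card = 2 := by
    have : (({a, b, c, d} : Finset ℕ).filter fun w => w < c) = {a, b} := by ext x; simp; omega
    rw [this, Finset.card_pair (by omega)]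
  have c3 : (({a, b, c, d} : Finset ℕ).filter fun w => w < d).card = 3 := by
    have : (({a, b, c, d} : Finset ℕ).filter fun w => w < d) = {a, b, c} := by ext x; simp; omega
    rw [this, Finset.card_eq_three.mpr ⟨a, b, c, by omega, by omega, by omega, rfl⟩]
  unfold cobd sgn
  rw [Finset.sum_insert (by simp; omega), Finset.sum_insert (by simp; omega),
    Finset.sum_pair (by omega), e0, e1, e2, e3, c0, c1, c2, c3]
  simp
  abel

theorem cobd_five (φ : Finset ℕ → A) {a b c d e : ℕ} (hab : a < b) (hbc : b < c) (hcd : c < d)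
    (hde : d < e) : cobd φ {a, b, c, d, e}
      = φ {b, c, d, e} - φ {a, c, d, e} + φ {a, b, d, e} - φ {a, b, c, e} + φ {a, b, c, d} := by
  have e0 : ({a, b, c, d, e} : Finset ℕ).erase a = {b, c, d, e} := by ext x; simp; omega
  have e1 : ({a, b, c, d, e} : Finset ℕ).erase b = {a, c, d, e} := by ext x; simp; omega
  have e2 : ({a, b, c, d, e} : Finset ℕ).erase c = {a, b, d, e} := by ext x; simp; omega
  have e3 : ({a, b, c, d, e} : Finset ℕ).erase d = {a, b, c, e} := by ext x; simp; omega
  have e4 : ({a, b, c, d, e} : Finset ℕ).erase e = {a, b, c, d} := by ext x; simp; omega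
  have c0 : (({a, b, c, d, e} : Finset ℕ).filter fun w => w < a).card = 0 := by
    rw [Finset.card_eq_zero]; ext x; simp; omega
  have c1 : (({a, b, c, d, e} : Finset ℕ).filter fun w => w < b).card = 1 := by
    have : (({a, b, c, d, e} : Finset ℕ).filter fun w => w < b) = {a} := by ext x; simp; omega
    rw [this]; simp
  have c2 : (({a, b, c, d, e} : Finset ℕ).filter fun w => w < c).card = 2 := by
    have : (({a, b, c, d, e} : Finset ℕ).filter fun w => w < c) = {a, b} := by ext x; simp; omega
    rw [this, Finset.card_pair (by omega)]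
  have c3 : (({a, b, c, d, e} : Finset ℕ).filter fun w => w < d).card = 3 := by
    have : (({a, b, c, d, e} : Finset ℕ).filter fun w => w < d) = {a, b, c} := by ext x; simp; omega
    rw [this, Finset.card_eq_three.mpr ⟨a, b, c, by omega, by omega, by omega, rfl⟩]
  have c4 : (({a, b, c, d, e} : Finset ℕ).filter fun w => w < e).card = 4 := by
    have : (({a, b, c, d, e} : Finset ℕ).filter fun w => w < e) = {a, b, c, d} := by
      ext x; simp; omega
    rw [this, Finset.card_insert_of_notMem (by simp; omega),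
      Finset.card_eq_three.mpr ⟨b, c, d, by omega, by omega, by omega, rfl⟩]
  unfold cobd sgn
  rw [Finset.sum_insert (by simp; omega), Finset.sum_insert (by simp; omega),
    Finset.sum_insert (by simp; omega), Finset.sum_pair (by omega), e0, e1, e2, e3, e4,
    c0, c1, c2, c3, c4]
  simp
  abel

theorem front_five {a b c d e : ℕ} (hab : a < b) (hbc : b < c) (hcd : c < d) (hde : d < e) :
    front {a, b, c, d, e} = {a, b, c} := by
  have c0 : (({a, b, c, d, e} : Finset ℕ).filter fun w => w < a).card = 0 := by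
    rw [Finset.card_eq_zero]; ext x; simp; omega
  have c1 : (({a, b, c, d, e} : Finset ℕ).filter fun w => w < b).card = 1 := by
    have : (({a, b, c, d, e} : Finset ℕ).filter fun w => w < b) = {a} := by ext x; simp; omega
    rw [this]; simp
  have c2 : (({a, b, c, d, e} : Finset ℕ).filter fun w => w < c).card = 2 := by
    have : (({a, b, c, d, e} : Finset ℕ).filter fun w => w < c) = {a, b} := by ext x; simp; omega
    rw [this, Finset.card_pair (by omega)]
  have c3 : (({a, b, c, d, e} : Finset ℕ).filter fun w => w < d).card = 3 := by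
    have : (({a, b, c, d, e} : Finset ℕ).filter fun w => w < d) = {a, b, c} := by ext x; simp; omega
    rw [this, Finset.card_eq_three.mpr ⟨a, b, c, by omega, by omega, by omega, rfl⟩]
  have c4 : (({a, b, c, d, e} : Finset ℕ).filter fun w => w < e).card = 4 := by
    have : (({a, b, c, d, e} : Finset ℕ).filter fun w => w < e) = {a, b, c, d} := by
      ext x; simp; omega
    rw [this, Finset.card_insert_of_notMem (by simp; omega),
      Finset.card_eq_three.mpr ⟨b, c, d, by omega, by omega, by omega, rfl⟩]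
  unfold front
  ext x
  rw [Finset.mem_filter]
  constructor
  · rintro ⟨hx, hlt⟩
    simp only [Finset.mem_insert, Finset.mem_singleton] at hx ⊢
    rcases hx with rfl | rfl | rfl | rfl | rfl
    · simp
    · simp
    · simp
    · rw [c3] at hlt; omega
    · rw [c4] at hlt; omega
  · intro hx
    simp only [Finset.mem_insert, Finset.mem_singleton] at hx
    rcases hx with rfl | rfl | rfl
    · exact ⟨by simp, by rw [c0]; omega⟩
    · exact ⟨by simp, by rw [c1]; omega⟩
    · exact ⟨by simp, by rw [c2]; omega⟩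

theorem back_five {a b c d e : ℕ} (hab : a < b) (hbc : b < c) (hcd : c < d) (hde : d < e) :
    back {a, b, c, d, e} = {c, d, e} := by
  have c0 : (({a, b, c, d, e} : Finset ℕ).filter fun w => e < w).card = 0 := by
    rw [Finset.card_eq_zero]; ext x; simp; omega
  have c1 : (({a, b, c, d, e} : Finset ℕ).filter fun w => d < w).card = 1 := by
    have : (({a, b, c, d, e} : Finset ℕ).filter fun w => d < w) = {e} := by ext x; simp; omega
    rw [this]; simp
  have c2 : (({a, b, c, d, e} : Finset ℕ).filter fun w => c < w).card = 2 := by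
    have : (({a, b, c, d, e} : Finset ℕ).filter fun w => c < w) = {d, e} := by ext x; simp; omega
    rw [this, Finset.card_pair (by omega)]
  have c3 : (({a, b, c, d, e} : Finset ℕ).filter fun w => b < w).card = 3 := by
    have : (({a, b, c, d, e} : Finset ℕ).filter fun w => b < w) = {c, d, e} := by ext x; simp; omega
    rw [this, Finset.card_eq_three.mpr ⟨c, d, e, by omega, by omega, by omega, rfl⟩]
  have c4 : (({a, b, c, d, e} : Finset ℕ).filter fun w => a < w).card = 4 := by
    have : (({a, b, c, d, e} : Finset ℕ).filter fun w => a < w) = {b, c, d, e} := by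
      ext x; simp; omega
    rw [this, Finset.card_insert_of_notMem (by simp; omega),
      Finset.card_eq_three.mpr ⟨c, d, e, by omega, by omega, by omega, rfl⟩]
  unfold back
  ext x
  rw [Finset.mem_filter]
  constructor
  · rintro ⟨hx, hlt⟩
    simp only [Finset.mem_insert, Finset.mem_singleton] at hx ⊢
    rcases hx with rfl | rfl | rfl | rfl | rfl
    · rw [c4] at hlt; omega
    · rw [c3] at hlt; omega
    · simp
    · simp
    · simp
  · intro hx
    simp only [Finset.mem_insert, Finset.mem_singleton] at hx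
    rcases hx with rfl | rfl | rfl
    · exact ⟨by simp, by rw [c2]; omega⟩
    · exact ⟨by simp, by rw [c1]; omega⟩
    · exact ⟨by simp, by rw [c0]; omega⟩

theorem mem_iff_orderEmb {s : Finset ℕ} {k : ℕ} (h : s.card = k) (x : ℕ) :
    x ∈ s ↔ ∃ i, s.orderEmbOfFin h i = x := by
  have := Finset.range_orderEmbOfFin s h
  rw [← Finset.mem_coe, ← this, Set.mem_range]

/-- a finite set of five naturals in increasing order -/
theorem exists_five {s : Finset ℕ} (h : s.card = 5) :
    ∃ a b c d e : ℕ, a < b ∧ b < c ∧ c < d ∧ d < e ∧ s = {a, b, c, d, e} := by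
  have hm := (s.orderEmbOfFin h).strictMono
  refine ⟨s.orderEmbOfFin h 0, s.orderEmbOfFin h 1, s.orderEmbOfFin h 2, s.orderEmbOfFin h 3,
    s.orderEmbOfFin h 4, hm (by decide), hm (by decide), hm (by decide), hm (by decide), ?_⟩
  ext x
  rw [mem_iff_orderEmb h]
  simp only [Finset.mem_insert, Finset.mem_singleton]
  constructor
  · rintro ⟨i, rfl⟩
    fin_cases i <;> simp
  · rintro (h | h | h | h | h) <;> exact ⟨_, h.symm⟩

theorem exists_four {s : Finset ℕ} (h : s.card = 4) :
    ∃ a b c d : ℕ, a < b ∧ b < c ∧ c < d ∧ s = {a, b, c, d} := by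
  have hm := (s.orderEmbOfFin h).strictMono
  refine ⟨s.orderEmbOfFin h 0, s.orderEmbOfFin h 1, s.orderEmbOfFin h 2, s.orderEmbOfFin h 3,
    hm (by decide), hm (by decide), hm (by decide), ?_⟩
  ext x
  rw [mem_iff_orderEmb h]
  simp only [Finset.mem_insert, Finset.mem_singleton]
  constructor
  · rintro ⟨i, rfl⟩
    fin_cases i <;> simp
  · rintro (h | h | h | h) <;> exact ⟨_, h.symm⟩

theorem exists_three {s : Finset ℕ} (h : s.card = 3) :
    ∃ a b c : ℕ, a < b ∧ b < c ∧ s = {a, b, c} := by
  have hm := (s.orderEmbOfFin h).strictMono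
  refine ⟨s.orderEmbOfFin h 0, s.orderEmbOfFin h 1, s.orderEmbOfFin h 2,
    hm (by decide), hm (by decide), ?_⟩
  ext x
  rw [mem_iff_orderEmb h]
  simp only [Finset.mem_insert, Finset.mem_singleton]
  constructor
  · rintro ⟨i, rfl⟩
    fin_cases i <;> simp
  · rintro (h | h | h) <;> exact ⟨_, h.symm⟩

theorem cobd_cobd_four (φ : Finset ℕ → A) {s : Finset ℕ} (h : s.card = 4) :
    cobd (cobd φ) s = 0 := by
  obtain ⟨a, b, c, d, hab, hbc, hcd, rfl⟩ := exists_four h
  rw [cobd_four _ hab hbc hcd, cobd_triple _ hbc hcd, cobd_triple _ (hab.trans hbc) hcd,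
    cobd_triple _ hab (hbc.trans hcd), cobd_triple _ hab hbc]
  abel

/-- the `k` smallest vertices -/
def fr (k : ℕ) (s : Finset ℕ) : Finset ℕ := s.filter fun v => (s.filter fun w => w < v).card < k

/-- the `k` largest vertices -/
def bk (k : ℕ) (s : Finset ℕ) : Finset ℕ := s.filter fun v => (s.filter fun w => v < w).card < k

theorem fr_four_two {a b c d : ℕ} (hab : a < b) (hbc : b < c) (hcd : c < d) :
    fr 2 {a, b, c, d} = {a, b} := by
  have c0 : (({a, b, c, d} : Finset ℕ).filter fun w => w < a).card = 0 := by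
    rw [Finset.card_eq_zero]; ext x; simp; omega
  have c1 : (({a, b, c, d} : Finset ℕ).filter fun w => w < b).card = 1 := by
    have : (({a, b, c, d} : Finset ℕ).filter fun w => w < b) = {a} := by ext x; simp; omega
    rw [this]; simp
  have c2 : (({a, b, c, d} : Finset ℕ).filter fun w => w < c).card = 2 := by
    have : (({a, b, c, d} : Finset ℕ).filter fun w => w < c) = {a, b} := by ext x; simp; omega
    rw [this, Finset.card_pair (by omega)]
  have c3 : (({a, b, c, d} : Finset ℕ).filter fun w => w < d).card = 3 := by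
    have : (({a, b, c, d} : Finset ℕ).filter fun w => w < d) = {a, b, c} := by ext x; simp; omega
    rw [this, Finset.card_eq_three.mpr ⟨a, b, c, by omega, by omega, by omega, rfl⟩]
  unfold fr
  ext x
  rw [Finset.mem_filter]
  constructor
  · rintro ⟨hx, hlt⟩
    simp only [Finset.mem_insert, Finset.mem_singleton] at hx ⊢
    rcases hx with rfl | rfl | rfl | rfl
    · simp
    · simp
    · rw [c2] at hlt; omega
    · rw [c3] at hlt; omega
  · intro hx
    simp only [Finset.mem_insert, Finset.mem_singleton] at hx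
    rcases hx with rfl | rfl
    · exact ⟨by simp, by rw [c0]; omega⟩
    · exact ⟨by simp, by rw [c1]; omega⟩

theorem fr_four_three {a b c d : ℕ} (hab : a < b) (hbc : b < c) (hcd : c < d) :
    fr 3 {a, b, c, d} = {a, b, c} := by
  have c0 : (({a, b, c, d} : Finset ℕ).filter fun w => w < a).card = 0 := by
    rw [Finset.card_eq_zero]; ext x; simp; omega
  have c1 : (({a, b, c, d} : Finset ℕ).filter fun w => w < b).card = 1 := by
    have : (({a, b, c, d} : Finset ℕ).filter fun w => w < b) = {a} := by ext x; simp; omega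
    rw [this]; simp
  have c2 : (({a, b, c, d} : Finset ℕ).filter fun w => w < c).card = 2 := by
    have : (({a, b, c, d} : Finset ℕ).filter fun w => w < c) = {a, b} := by ext x; simp; omega
    rw [this, Finset.card_pair (by omega)]
  have c3 : (({a, b, c, d} : Finset ℕ).filter fun w => w < d).card = 3 := by
    have : (({a, b, c, d} : Finset ℕ).filter fun w => w < d) = {a, b, c} := by ext x; simp; omega
    rw [this, Finset.card_eq_three.mpr ⟨a, b, c, by omega, by omega, by omega, rfl⟩]
  unfold fr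
  ext x
  rw [Finset.mem_filter]
  constructor
  · rintro ⟨hx, hlt⟩
    simp only [Finset.mem_insert, Finset.mem_singleton] at hx ⊢
    rcases hx with rfl | rfl | rfl | rfl
    · simp
    · simp
    · simp
    · rw [c3] at hlt; omega
  · intro hx
    simp only [Finset.mem_insert, Finset.mem_singleton] at hx
    rcases hx with rfl | rfl | rfl
    · exact ⟨by simp, by rw [c0]; omega⟩
    · exact ⟨by simp, by rw [c1]; omega⟩
    · exact ⟨by simp, by rw [c2]; omega⟩

theorem bk_four_two {a b c d : ℕ} (hab : a < b) (hbc : b < c) (hcd : c < d) :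
    bk 2 {a, b, c, d} = {c, d} := by
  have c0 : (({a, b, c, d} : Finset ℕ).filter fun w => d < w).card = 0 := by
    rw [Finset.card_eq_zero]; ext x; simp; omega
  have c1 : (({a, b, c, d} : Finset ℕ).filter fun w => c < w).card = 1 := by
    have : (({a, b, c, d} : Finset ℕ).filter fun w => c < w) = {d} := by ext x; simp; omega
    rw [this]; simp
  have c2 : (({a, b, c, d} : Finset ℕ).filter fun w => b < w).card = 2 := by
    have : (({a, b, c, d} : Finset ℕ).filter fun w => b < w) = {c, d} := by ext x; simp; omega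
    rw [this, Finset.card_pair (by omega)]
  have c3 : (({a, b, c, d} : Finset ℕ).filter fun w => a < w).card = 3 := by
    have : (({a, b, c, d} : Finset ℕ).filter fun w => a < w) = {b, c, d} := by ext x; simp; omega
    rw [this, Finset.card_eq_three.mpr ⟨b, c, d, by omega, by omega, by omega, rfl⟩]
  unfold bk
  ext x
  rw [Finset.mem_filter]
  constructor
  · rintro ⟨hx, hlt⟩
    simp only [Finset.mem_insert, Finset.mem_singleton] at hx ⊢
    rcases hx with rfl | rfl | rfl | rfl
    · rw [c3] at hlt; omega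
    · rw [c2] at hlt; omega
    · simp
    · simp
  · intro hx
    simp only [Finset.mem_insert, Finset.mem_singleton] at hx
    rcases hx with rfl | rfl
    · exact ⟨by simp, by rw [c1]; omega⟩
    · exact ⟨by simp, by rw [c0]; omega⟩

theorem bk_four_three {a b c d : ℕ} (hab : a < b) (hbc : b < c) (hcd : c < d) :
    bk 3 {a, b, c, d} = {b, c, d} := by
  have c0 : (({a, b, c, d} : Finset ℕ).filter fun w => d < w).card = 0 := by
    rw [Finset.card_eq_zero]; ext x; simp; omega
  have c1 : (({a, b, c, d} : Finset ℕ).filter fun w => c < w).card = 1 := by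
    have : (({a, b, c, d} : Finset ℕ).filter fun w => c < w) = {d} := by ext x; simp; omega
    rw [this]; simp
  have c2 : (({a, b, c, d} : Finset ℕ).filter fun w => b < w).card = 2 := by
    have : (({a, b, c, d} : Finset ℕ).filter fun w => b < w) = {c, d} := by ext x; simp; omega
    rw [this, Finset.card_pair (by omega)]
  have c3 : (({a, b, c, d} : Finset ℕ).filter fun w => a < w).card = 3 := by
    have : (({a, b, c, d} : Finset ℕ).filter fun w => a < w) = {b, c, d} := by ext x; simp; omega
    rw [this, Finset.card_eq_three.mpr ⟨b, c, d, by omega, by omega, by omega, rfl⟩]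
  unfold bk
  ext x
  rw [Finset.mem_filter]
  constructor
  · rintro ⟨hx, hlt⟩
    simp only [Finset.mem_insert, Finset.mem_singleton] at hx ⊢
    rcases hx with rfl | rfl | rfl | rfl
    · rw [c3] at hlt; omega
    · simp
    · simp
    · simp
  · intro hx
    simp only [Finset.mem_insert, Finset.mem_singleton] at hx
    rcases hx with rfl | rfl | rfl
    · exact ⟨by simp, by rw [c2]; omega⟩
    · exact ⟨by simp, by rw [c1]; omega⟩
    · exact ⟨by simp, by rw [c0]; omega⟩

end Explicit

section Faces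

theorem face_subset {K : Cpx} {s t : Finset ℕ} (h : Face K s) (hts : t ⊆ s) (ht : t.Nonempty) :
    Face K t := by
  obtain ⟨_, F, hF, hs⟩ := h
  exact ⟨ht, F, hF, hts.trans hs⟩

theorem fd_subset {K : Cpx} {k j : ℕ} {s t : Finset ℕ} (h : FaceDim K k s) (hts : t ⊆ s)
    (ht : t.card = j + 1) : FaceDim K j t :=
  ⟨face_subset h.1 hts (Finset.card_pos.mp (by omega)), ht⟩

theorem front_fd {K : Cpx} {s : Finset ℕ} (h : FaceDim K 4 s) : FaceDim K 2 (front s) := by
  obtain ⟨a, b, c, d, e, hab, hbc, hcd, hde, rfl⟩ := exists_five h.2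
  rw [front_five hab hbc hcd hde]
  refine fd_subset h (by intro x; simp; tauto) ?_
  exact Finset.card_eq_three.mpr ⟨a, b, c, by omega, by omega, by omega, rfl⟩

theorem back_fd {K : Cpx} {s : Finset ℕ} (h : FaceDim K 4 s) : FaceDim K 2 (back s) := by
  obtain ⟨a, b, c, d, e, hab, hbc, hcd, hde, rfl⟩ := exists_five h.2
  rw [back_five hab hbc hcd hde]
  refine fd_subset h (by intro x; simp; tauto) ?_
  exact Finset.card_eq_three.mpr ⟨c, d, e, by omega, by omega, by omega, rfl⟩

theorem erase_fd {K : Cpx} {k : ℕ} {s : Finset ℕ} (h : FaceDim K (k + 1) s) {v : ℕ} (hv : v ∈ s) :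
    FaceDim K k (s.erase v) :=
  fd_subset h (Finset.erase_subset _ _) (by rw [Finset.card_erase_of_mem hv, h.2]; omega)

/-- the coboundary only sees the faces -/
theorem cobd_congr {A : Type*} [AddCommGroup A] {K : Cpx} {k : ℕ} {f g : Finset ℕ → A}
    (hfg : ∀ s, FaceDim K k s → f s = g s) {s : Finset ℕ} (hs : FaceDim K (k + 1) s) :
    cobd f s = cobd g s := by
  unfold cobd
  exact Finset.sum_congr rfl fun v hv => by rw [hfg _ (erase_fd hs hv)]

end Faces

section Cup

variable {A B C : Type*} [AddCommGroup A] [AddCommGroup B] [AddCommGroup C]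

/-- the cup product of two 2-cochains for the pairing `μ`, evaluated on a 4-chain -/
noncomputable def cupG (μ : A →+ B →+ C) (c : Chain) (a : Finset ℕ → A) (b : Finset ℕ → B) : C :=
  c.sum fun s m => m • μ (a (front s)) (b (back s))

theorem cupEval_eq {R : Type*} [CommRing R] (c : Chain) (a b : Finset ℕ → R) :
    cupEval c a b = cupG (AddMonoidHom.mul : R →+ R →+ R) c a b := rfl

theorem cupG_eq_ev (μ : A →+ B →+ C) (c : Chain) (a : Finset ℕ → A) (b : Finset ℕ → B) :
    cupG μ c a b = ev (fun s => μ (a (front s)) (b (back s))) c := rfl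

theorem cupG_congr (μ : A →+ B →+ C) {X : Cpx} {c : Chain} (hc : IsChain X 4 c)
    {a a' : Finset ℕ → A} {b b' : Finset ℕ → B} (ha : ∀ s, FaceDim X 2 s → a s = a' s)
    (hb : ∀ s, FaceDim X 2 s → b s = b' s) : cupG μ c a b = cupG μ c a' b' := by
  rw [cupG_eq_ev, cupG_eq_ev]
  refine ev_congr _ _ _ fun s hs => ?_
  rw [ha _ (front_fd (hc s hs)), hb _ (back_fd (hc s hs))]

theorem cupG_add_left (μ : A →+ B →+ C) (c : Chain) (a a' : Finset ℕ → A) (b : Finset ℕ → B) :
    cupG μ c (fun s => a s + a' s) b = cupG μ c a b + cupG μ c a' b := by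
  rw [cupG_eq_ev, cupG_eq_ev, cupG_eq_ev, ← ev_add_left]
  refine ev_congr _ _ _ fun s _ => ?_
  simp

theorem cupG_add_right (μ : A →+ B →+ C) (c : Chain) (a : Finset ℕ → A) (b b' : Finset ℕ → B) :
    cupG μ c a (fun s => b s + b' s) = cupG μ c a b + cupG μ c a b' := by
  rw [cupG_eq_ev, cupG_eq_ev, cupG_eq_ev, ← ev_add_left]
  refine ev_congr _ _ _ fun s _ => ?_
  simp

theorem cupG_zero_left (μ : A →+ B →+ C) (c : Chain) (b : Finset ℕ → B) :
    cupG μ c (fun _ => 0) b = 0 := by
  rw [cupG_eq_ev]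
  exact ev_eq_zero _ _ fun s _ => by simp

theorem cupG_zero_right (μ : A →+ B →+ C) (c : Chain) (a : Finset ℕ → A) :
    cupG μ c a (fun _ => 0) = 0 := by
  rw [cupG_eq_ev]
  exact ev_eq_zero _ _ fun s _ => by simp

theorem cupG_sum_left {ι : Type*} (μ : A →+ B →+ C) (c : Chain) (t : Finset ι)
    (a : ι → Finset ℕ → A) (b : Finset ℕ → B) :
    cupG μ c (fun s => ∑ i ∈ t, a i s) b = ∑ i ∈ t, cupG μ c (a i) b := by
  classical
  induction t using Finset.induction_on with
  | empty => simpa using cupG_zero_left μ c b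
  | insert i t hi ih =>
    rw [Finset.sum_insert hi, ← ih, ← cupG_add_left]
    simp only [Finset.sum_insert hi]

theorem cupG_sum_right {ι : Type*} (μ : A →+ B →+ C) (c : Chain) (t : Finset ι)
    (a : Finset ℕ → A) (b : ι → Finset ℕ → B) :
    cupG μ c a (fun s => ∑ i ∈ t, b i s) = ∑ i ∈ t, cupG μ c a (b i) := by
  classical
  induction t using Finset.induction_on with
  | empty => simpa using cupG_zero_right μ c a
  | insert i t hi ih =>
    rw [Finset.sum_insert hi, ← ih, ← cupG_add_right]
    simp only [Finset.sum_insert hi]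

/-- the cup product of a 1-cochain and a 2-cochain -/
def cup12 (μ : B →+ A →+ C) (b : Finset ℕ → B) (a : Finset ℕ → A) (s : Finset ℕ) : C :=
  μ (b (fr 2 s)) (a (bk 3 s))

/-- the cup product of a 2-cochain and a 1-cochain -/
def cup21 (μ : A →+ B →+ C) (a : Finset ℕ → A) (b : Finset ℕ → B) (s : Finset ℕ) : C :=
  μ (a (fr 3 s)) (b (bk 2 s))

/-- Leibniz formula for `b ∪ a` on a 4-simplex -/
theorem leibniz12 (μ : B →+ A →+ C) (b : Finset ℕ → B) (a : Finset ℕ → A) {v0 v1 v2 v3 v4 : ℕ}
    (h0 : v0 < v1) (h1 : v1 < v2) (h2 : v2 < v3) (h3 : v3 < v4) :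
    cobd (cup12 μ b a) {v0, v1, v2, v3, v4}
      = μ (cobd b {v0, v1, v2}) (a {v2, v3, v4}) - μ (b {v0, v1}) (cobd a {v1, v2, v3, v4}) := by
  rw [cobd_five _ h0 h1 h2 h3, cobd_triple _ h0 h1, cobd_four _ h1 h2 h3]
  unfold cup12
  rw [fr_four_two h1 h2 h3, bk_four_three h1 h2 h3,
    fr_four_two (h0.trans h1) h2 h3, bk_four_three (h0.trans h1) h2 h3,
    fr_four_two h0 (h1.trans h2) h3, bk_four_three h0 (h1.trans h2) h3,
    fr_four_two h0 h1 (h2.trans h3), bk_four_three h0 h1 (h2.trans h3),
    fr_four_two h0 h1 h2, bk_four_three h0 h1 h2]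
  simp only [map_add, map_sub, AddMonoidHom.add_apply, AddMonoidHom.sub_apply]
  abel

/-- Leibniz formula for `a ∪ b` on a 4-simplex -/
theorem leibniz21 (μ : A →+ B →+ C) (a : Finset ℕ → A) (b : Finset ℕ → B) {v0 v1 v2 v3 v4 : ℕ}
    (h0 : v0 < v1) (h1 : v1 < v2) (h2 : v2 < v3) (h3 : v3 < v4) :
    cobd (cup21 μ a b) {v0, v1, v2, v3, v4}
      = μ (cobd a {v0, v1, v2, v3}) (b {v3, v4}) + μ (a {v0, v1, v2}) (cobd b {v2, v3, v4}) := by
  rw [cobd_five _ h0 h1 h2 h3, cobd_triple _ h2 h3, cobd_four _ h0 h1 h2]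
  unfold cup21
  rw [fr_four_three h1 h2 h3, bk_four_two h1 h2 h3,
    fr_four_three (h0.trans h1) h2 h3, bk_four_two (h0.trans h1) h2 h3,
    fr_four_three h0 (h1.trans h2) h3, bk_four_two h0 (h1.trans h2) h3,
    fr_four_three h0 h1 (h2.trans h3), bk_four_two h0 h1 (h2.trans h3),
    fr_four_three h0 h1 h2, bk_four_two h0 h1 h2]
  simp only [map_add, map_sub, AddMonoidHom.add_apply, AddMonoidHom.sub_apply]
  abel

theorem fr2_fd {K : Cpx} {s : Finset ℕ} (h : FaceDim K 3 s) : FaceDim K 1 (fr 2 s) := by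
  obtain ⟨a, b, c, d, hab, hbc, hcd, rfl⟩ := exists_four h.2
  rw [fr_four_two hab hbc hcd]
  exact fd_subset h (by intro x; simp; tauto) (Finset.card_pair (by omega))

theorem bk2_fd {K : Cpx} {s : Finset ℕ} (h : FaceDim K 3 s) : FaceDim K 1 (bk 2 s) := by
  obtain ⟨a, b, c, d, hab, hbc, hcd, rfl⟩ := exists_four h.2
  rw [bk_four_two hab hbc hcd]
  exact fd_subset h (by intro x; simp; tauto) (Finset.card_pair (by omega))

theorem fr3_fd {K : Cpx} {s : Finset ℕ} (h : FaceDim K 3 s) : FaceDim K 2 (fr 3 s) := by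
  obtain ⟨a, b, c, d, hab, hbc, hcd, rfl⟩ := exists_four h.2
  rw [fr_four_three hab hbc hcd]
  exact fd_subset h (by intro x; simp; tauto)
    (Finset.card_eq_three.mpr ⟨a, b, c, by omega, by omega, by omega, rfl⟩)

theorem bk3_fd {K : Cpx} {s : Finset ℕ} (h : FaceDim K 3 s) : FaceDim K 2 (bk 3 s) := by
  obtain ⟨a, b, c, d, hab, hbc, hcd, rfl⟩ := exists_four h.2
  rw [bk_four_three hab hbc hcd]
  exact fd_subset h (by intro x; simp; tauto)
    (Finset.card_eq_three.mpr ⟨b, c, d, by omega, by omega, by omega, rfl⟩)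

/-- Stokes, coboundary on the left -/
theorem stokes_left (μ : B →+ A →+ C) {X Y : Cpx} {c z : Chain} (hc : IsChain X 4 c)
    (hz : bd c = z) (hzY : IsChain Y 3 z) {b : Finset ℕ → B} {a : Finset ℕ → A}
    (ha : ∀ s, FaceDim X 3 s → cobd a s = 0)
    (hab : (∀ s, FaceDim Y 1 s → b s = 0) ∨ (∀ s, FaceDim Y 2 s → a s = 0)) :
    cupG μ c (cobd b) a = 0 := by
  have e1 : cupG μ c (cobd b) a = ev (cobd (cup12 μ b a)) c := by
    rw [cupG_eq_ev]
    refine ev_congr _ _ _ fun s hs => ?_
    have hX := hc s hs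
    obtain ⟨v0, v1, v2, v3, v4, h0, h1, h2, h3, rfl⟩ := exists_five hX.2
    rw [front_five h0 h1 h2 h3, back_five h0 h1 h2 h3, leibniz12 μ b a h0 h1 h2 h3,
      ha {v1, v2, v3, v4} (fd_subset hX (by intro x; simp; tauto) (by
        rw [Finset.card_insert_of_notMem (by simp; omega),
          Finset.card_eq_three.mpr ⟨v2, v3, v4, by omega, by omega, by omega, rfl⟩])),
      map_zero, sub_zero]
  rw [e1, ← ev_bd, hz]
  refine ev_eq_zero _ _ fun s hs => ?_
  have hY := hzY s hs
  unfold cup12
  rcases hab with h | h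
  · rw [h _ (fr2_fd hY)]; simp
  · rw [h _ (bk3_fd hY)]; simp

/-- Stokes, coboundary on the right -/
theorem stokes_right (μ : A →+ B →+ C) {X Y : Cpx} {c z : Chain} (hc : IsChain X 4 c)
    (hz : bd c = z) (hzY : IsChain Y 3 z) {b : Finset ℕ → B} {a : Finset ℕ → A}
    (ha : ∀ s, FaceDim X 3 s → cobd a s = 0)
    (hab : (∀ s, FaceDim Y 1 s → b s = 0) ∨ (∀ s, FaceDim Y 2 s → a s = 0)) :
    cupG μ c a (cobd b) = 0 := by
  have e1 : cupG μ c a (cobd b) = ev (cobd (cup21 μ a b)) c := by
    rw [cupG_eq_ev]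
    refine ev_congr _ _ _ fun s hs => ?_
    have hX := hc s hs
    obtain ⟨v0, v1, v2, v3, v4, h0, h1, h2, h3, rfl⟩ := exists_five hX.2
    rw [front_five h0 h1 h2 h3, back_five h0 h1 h2 h3, leibniz21 μ a b h0 h1 h2 h3,
      ha {v0, v1, v2, v3} (fd_subset hX (by intro x; simp; tauto) (by
        rw [Finset.card_insert_of_notMem (by simp; omega),
          Finset.card_eq_three.mpr ⟨v1, v2, v3, by omega, by omega, by omega, rfl⟩])),
      map_zero, AddMonoidHom.zero_apply, zero_add]
  rw [e1, ← ev_bd, hz]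
  refine ev_eq_zero _ _ fun s hs => ?_
  have hY := hzY s hs
  unfold cup21
  rcases hab with h | h
  · rw [h _ (bk2_fd hY)]; simp
  · rw [h _ (fr3_fd hY)]; simp

/-- a relative coboundary is orthogonal to all cocycles (left argument) -/
theorem cupG_relCobdry_left (μ : A →+ B →+ C) {X Y : Cpx} {c z : Chain} (hc : IsChain X 4 c)
    (hz : bd c = z) (hzY : IsChain Y 3 z) {a : Finset ℕ → A} {b : Finset ℕ → B}
    (ha : RelCobdry X Y a) (hb : ∀ s, FaceDim X 3 s → cobd b s = 0) : cupG μ c a b = 0 := by
  obtain ⟨f, hf0, hf⟩ := ha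
  rw [cupG_congr μ hc hf (fun s _ => rfl)]
  exact stokes_left μ hc hz hzY hb (Or.inl hf0)

/-- a relative coboundary is orthogonal to all cocycles (right argument) -/
theorem cupG_relCobdry_right (μ : A →+ B →+ C) {X Y : Cpx} {c z : Chain} (hc : IsChain X 4 c)
    (hz : bd c = z) (hzY : IsChain Y 3 z) {a : Finset ℕ → A} {b : Finset ℕ → B}
    (ha : ∀ s, FaceDim X 3 s → cobd a s = 0) (hb : RelCobdry X Y b) : cupG μ c a b = 0 := by
  obtain ⟨f, hf0, hf⟩ := hb
  rw [cupG_congr μ hc (fun s _ => rfl) hf]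
  exact stokes_right μ hc hz hzY ha (Or.inl hf0)

end Cup

section Lin

variable {A : Type*} [AddCommGroup A]

theorem cobd_add8 (f g : Finset ℕ → A) (s : Finset ℕ) :
    cobd (fun t => f t + g t) s = cobd f s + cobd g s := by
  unfold cobd
  rw [← Finset.sum_add_distrib]
  exact Finset.sum_congr rfl fun v _ => smul_add _ _ _

theorem cobd_sub8 (f g : Finset ℕ → A) (s : Finset ℕ) :
    cobd (fun t => f t - g t) s = cobd f s - cobd g s := by
  unfold cobd
  rw [← Finset.sum_sub_distrib]
  exact Finset.sum_congr rfl fun v _ => smul_sub _ _ _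

theorem cobd_sum {ι : Type*} (t : Finset ι) (f : ι → Finset ℕ → A) (s : Finset ℕ) :
    cobd (fun u => ∑ i ∈ t, f i u) s = ∑ i ∈ t, cobd (f i) s := by
  unfold cobd
  rw [Finset.sum_comm]
  exact Finset.sum_congr rfl fun v _ => Finset.smul_sum

theorem cobd_smul_const (f : Finset ℕ → ℤ) (x : A) (s : Finset ℕ) :
    cobd (fun t => f t • x) s = cobd f s • x := by
  unfold cobd
  rw [Finset.sum_smul]
  refine Finset.sum_congr rfl fun v _ => ?_
  rw [smul_eq_mul, mul_smul]

/-- an integral relative cocycle times an element of the coefficient group -/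
theorem relCocycle_sum_smul {ι : Type*} [Fintype ι] {X Y : Cpx} {α : ι → Finset ℕ → ℤ}
    (hα : ∀ i, RelCocycle X Y (α i)) (m : ι → A) :
    RelCocycle X Y fun s => ∑ i, α i s • m i := by
  refine ⟨fun s hs => ?_, fun s hs => ?_⟩
  · exact Finset.sum_eq_zero fun i _ => by rw [(hα i).1 s hs, zero_smul]
  · rw [cobd_sum]
    refine Finset.sum_eq_zero fun i _ => ?_
    rw [cobd_smul_const, (hα i).2 s hs, zero_smul]

end Lin

section Forms

theorem cupEval_add_left8 {R : Type*} [CommRing R] (c : Chain) (a a' b : Finset ℕ → R) :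
    cupEval c (fun s => a s + a' s) b = cupEval c a b + cupEval c a' b :=
  cupG_add_left (AddMonoidHom.mul : R →+ R →+ R) c a a' b

theorem cupEval_add_right8 {R : Type*} [CommRing R] (c : Chain) (a b b' : Finset ℕ → R) :
    cupEval c a (fun s => b s + b' s) = cupEval c a b + cupEval c a b' :=
  cupG_add_right (AddMonoidHom.mul : R →+ R →+ R) c a b b'

theorem cupEval_sum_left8 {R : Type*} [CommRing R] {ι : Type*} (c : Chain) (t : Finset ι)
    (a : ι → Finset ℕ → R) (b : Finset ℕ → R) :
    cupEval c (fun s => ∑ i ∈ t, a i s) b = ∑ i ∈ t, cupEval c (a i) b :=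
  cupG_sum_left (AddMonoidHom.mul : R →+ R →+ R) c t a b

theorem cupEval_sum_right8 {R : Type*} [CommRing R] {ι : Type*} (c : Chain) (t : Finset ι)
    (a : Finset ℕ → R) (b : ι → Finset ℕ → R) :
    cupEval c a (fun s => ∑ i ∈ t, b i s) = ∑ i ∈ t, cupEval c a (b i) :=
  cupG_sum_right (AddMonoidHom.mul : R →+ R →+ R) c t a b

theorem cupEval_mul_left {R : Type*} [CommRing R] (c : Chain) (r : R) (a b : Finset ℕ → R) :
    cupEval c (fun s => r * a s) b = r * cupEval c a b := by
  unfold cupEval
  rw [Finsupp.mul_sum]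
  refine Finsupp.sum_congr fun s _ => ?_
  rw [mul_smul_comm, mul_assoc]

theorem cupEval_mul_right {R : Type*} [CommRing R] (c : Chain) (r : R) (a b : Finset ℕ → R) :
    cupEval c a (fun s => r * b s) = r * cupEval c a b := by
  unfold cupEval
  rw [Finsupp.mul_sum]
  refine Finsupp.sum_congr fun s _ => ?_
  rw [mul_smul_comm]
  congr 1
  ring

/-- the form on linear combinations -/
theorem cupEval_comb {R : Type*} [CommRing R] {ι κ : Type*} [Fintype ι] [Fintype κ] (c : Chain)
    (m : ι → R) (n : κ → R) (a : ι → Finset ℕ → R) (b : κ → Finset ℕ → R) :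
    cupEval c (fun s => ∑ i, m i * a i s) (fun s => ∑ j, n j * b j s)
      = ∑ i, ∑ j, m i * n j * cupEval c (a i) (b j) := by
  rw [cupEval_sum_left8]
  refine Finset.sum_congr rfl fun i _ => ?_
  rw [cupEval_mul_left, cupEval_sum_right8, Finset.mul_sum]
  refine Finset.sum_congr rfl fun j _ => ?_
  rw [cupEval_mul_right]
  ring

/-- change of coefficients -/
theorem cupEval_map {R S : Type*} [CommRing R] [CommRing S] (φ : R →+* S) (c : Chain)
    (a b : Finset ℕ → R) :
    cupEval c (fun s => φ (a s)) (fun s => φ (b s)) = φ (cupEval c a b) := by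
  unfold cupEval Finsupp.sum
  rw [map_sum]
  refine Finset.sum_congr rfl fun s _ => ?_
  rw [map_zsmul, map_mul]

/-- independence of the representatives -/
theorem cupEval_cong {R : Type*} [CommRing R] {X Y : Cpx} {c z : Chain} (hc : IsChain X 4 c)
    (hz : bd c = z) (hzY : IsChain Y 3 z) {a a' b b' : Finset ℕ → R}
    (ha : ∀ s, FaceDim X 3 s → cobd a s = 0) (hb' : ∀ s, FaceDim X 3 s → cobd b' s = 0)
    (haa : RelCobdry X Y fun s => a s - a' s) (hbb : RelCobdry X Y fun s => b s - b' s) :
    cupEval c a b = cupEval c a' b' := by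
  have e1 : cupEval c a b = cupEval c a b' := by
    have h0 := cupG_relCobdry_right (AddMonoidHom.mul : R →+ R →+ R) hc hz hzY ha hbb
    have h1 : cupEval c a b = cupEval c a (fun s => (b s - b' s) + b' s) := by
      congr 1
      funext s
      abel
    rw [h1, cupEval_add_right8, cupEval_eq c a fun s => b s - b' s, h0, zero_add]
  have e2 : cupEval c a b' = cupEval c a' b' := by
    have h0 := cupG_relCobdry_left (AddMonoidHom.mul : R →+ R →+ R) hc hz hzY haa hb'
    have h1 : cupEval c a b' = cupEval c (fun s => (a s - a' s) + a' s) b' := by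
      congr 1
      funext s
      abel
    rw [h1, cupEval_add_left8, cupEval_eq c (fun s => a s - a' s) b', h0, zero_add]
  rw [e1, e2]

variable {ι : Type*} [Fintype ι] {X Y : Cpx} {c z : Chain} {α : ι → Finset ℕ → ℤ}
  {G : Matrix ι ι ℤ}

theorem cupEval_gram (hG : ∀ i j, cupEval c (α i) (α j) = G i j) (m n : ι → ℤ) :
    cupEval c (fun s => ∑ i, m i * α i s) (fun s => ∑ j, n j * α j s) = m ⬝ᵥ G.mulVec n := by
  rw [cupEval_comb]
  unfold dotProduct Matrix.mulVec dotProduct
  refine Finset.sum_congr rfl fun i _ => ?_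
  rw [Finset.mul_sum]
  refine Finset.sum_congr rfl fun j _ => ?_
  rw [hG]
  ring

theorem relCocycle_comb (hα : ∀ i, RelCocycle X Y (α i)) (m : ι → ℤ) :
    RelCocycle X Y fun s => ∑ i, m i * α i s := by
  have h := relCocycle_sum_smul hα m
  have e : (fun s => ∑ i, m i * α i s) = fun s => ∑ i, α i s • m i := by
    funext s
    exact Finset.sum_congr rfl fun i _ => by rw [smul_eq_mul, mul_comm]
  rw [e]
  exact h

/-- a definite form makes the coordinates unique -/
theorem zero_of_definite {ι : Type} [Fintype ι] {α : ι → Finset ℕ → ℤ} {G : Matrix ι ι ℤ}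
    (hc : IsChain X 4 c) (hz : bd c = z) (hzY : IsChain Y 3 z)
    (hα : ∀ i, RelCocycle X Y (α i)) (hG : ∀ i j, cupEval c (α i) (α j) = G i j)
    (hdef : IsDefinite G) (m : ι → ℤ) (hm : RelCobdry X Y fun s => ∑ i, m i * α i s) : m = 0 := by
  have h0 : m ⬝ᵥ G.mulVec m = 0 := by
    rw [← cupEval_gram hG, cupEval_eq]
    exact cupG_relCobdry_left _ hc hz hzY hm (relCocycle_comb hα m).2
  by_contra hne
  rcases hdef with h | h
  · have := h m hne
    omega
  · have := h m hne
    omega

/-- uniqueness of the coordinates -/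
theorem unique_of_definite {ι : Type} [Fintype ι] {α : ι → Finset ℕ → ℤ} {G : Matrix ι ι ℤ}
    (hc : IsChain X 4 c) (hz : bd c = z) (hzY : IsChain Y 3 z)
    (hα : ∀ i, RelCocycle X Y (α i)) (hG : ∀ i j, cupEval c (α i) (α j) = G i j)
    (hdef : IsDefinite G) (a : Finset ℕ → ℤ) (m n : ι → ℤ)
    (hm : RelCobdry X Y fun s => a s - ∑ i, m i * α i s)
    (hn : RelCobdry X Y fun s => a s - ∑ i, n i * α i s) : m = n := by
  have h : m - n = 0 := by
    refine zero_of_definite hc hz hzY hα hG hdef _ ?_
    obtain ⟨f, f0, hf⟩ := hm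
    obtain ⟨g, g0, hg⟩ := hn
    refine ⟨fun s => g s - f s, fun s hs => ?_, fun s hs => ?_⟩
    · show g s - f s = 0
      rw [f0 s hs, g0 s hs, sub_zero]
    rw [cobd_sub8, ← hf s hs, ← hg s hs]
    simp only [Pi.sub_apply, sub_mul, Finset.sum_sub_distrib]
    ring
  exact sub_eq_zero.mp h

/-- the intersection form from spanning cocycles with a definite Gram matrix -/
theorem hasForm_of_definite {ι : Type} [Fintype ι] {α : ι → Finset ℕ → ℤ} {G : Matrix ι ι ℤ}
    (hc : IsChain X 4 c) (hz : bd c = z) (hzY : IsChain Y 3 z)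
    (hα : ∀ i, RelCocycle X Y (α i)) (hG : ∀ i j, cupEval c (α i) (α j) = G i j)
    (hdef : IsDefinite G)
    (hspan : ∀ a : Finset ℕ → ℤ, RelCocycle X Y a →
      ∃ m : ι → ℤ, RelCobdry X Y fun s => a s - ∑ i, α i s • m i) :
    HasForm X Y c G := by
  refine ⟨α, hα, fun a ha => ?_, hG⟩
  obtain ⟨m, hm⟩ := hspan a ha
  have hm' : RelCobdry X Y fun s => a s - ∑ i, m i * α i s := by
    have e : (fun s => a s - ∑ i, m i * α i s) = fun s => a s - ∑ i, α i s • m i := by
      funext s
      congr 1
      exact Finset.sum_congr rfl fun i _ => by rw [smul_eq_mul, mul_comm]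
    rw [e]
    exact hm
  exact ⟨m, hm', fun n hn => unique_of_definite hc hz hzY hα hG hdef a n m hn hm'⟩

end Forms

section Boundary

theorem face_of_bdry {X Y : Cpx} (h : bdry X = Y) {s : Finset ℕ} (hs : Face Y s) : Face X s := by
  obtain ⟨hne, F, hF, hsF⟩ := hs
  rw [← h] at hF
  unfold bdry at hF
  rw [Finset.mem_filter, Finset.mem_biUnion] at hF
  obtain ⟨⟨E, hE, hFE⟩, _⟩ := hF
  unfold simplexBdry at hFE
  rw [Finset.mem_image] at hFE
  obtain ⟨v, _, rfl⟩ := hFE
  exact ⟨hne, E, hE, hsF.trans (Finset.erase_subset _ _)⟩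

theorem cupG_smul_comb {A : Type*} [AddCommGroup A] {ι : Type*} [Fintype ι] (c : Chain)
    (a : Finset ℕ → ℤ) (α : ι → Finset ℕ → ℤ) (m : ι → A) :
    cupG (smulAddHom ℤ A) c a (fun s => ∑ i, α i s • m i) = ∑ i, cupEval c a (α i) • m i := by
  rw [cupG_sum_right]
  refine Finset.sum_congr rfl fun i _ => ?_
  unfold cupG cupEval Finsupp.sum
  rw [Finset.sum_smul]
  refine Finset.sum_congr rfl fun s _ => ?_
  simp only [smulAddHom_apply, smul_eq_mul, mul_smul]

/-- `H¹(Y; A) = 0` for the boundary `Y` of `X` if `H¹(X; A) = 0`, `H²(X, Y; A)` is spanned by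
integral classes, and the form is unimodular -/
theorem coh1_boundary {ι : Type*} [Fintype ι] [DecidableEq ι] {X Y : Cpx} {c z : Chain}
    (hc : IsChain X 4 c) (hz : bd c = z) (hzY : IsChain Y 3 z)
    (hYX : ∀ s, Face Y s → Face X s)
    {α : ι → Finset ℕ → ℤ} (hα : ∀ i, RelCocycle X Y (α i)) {G H : Matrix ι ι ℤ}
    (hG : ∀ i j, cupEval c (α i) (α j) = G i j) (hHG : H * G = 1)
    {A : Type*} [AddCommGroup A]
    (hspan : ∀ a : Finset ℕ → A, RelCocycle X Y a →
      ∃ m : ι → A, RelCobdry X Y fun s => a s - ∑ i, α i s • m i)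
    (hcoh : ∀ a : Finset ℕ → A, (∀ s, FaceDim X 2 s → cobd a s = 0) →
      ∃ g : Finset ℕ → A, ∀ s, FaceDim X 1 s → a s = cobd g s)
    (f : Finset ℕ → A) (hf : ∀ s, FaceDim Y 2 s → cobd f s = 0) :
    ∃ g : Finset ℕ → A, ∀ s, FaceDim Y 1 s → f s = cobd g s := by
  classical
  set f' : Finset ℕ → A := fun s => if FaceDim Y 1 s then f s else 0 with hf'
  have hff : ∀ s, FaceDim Y 1 s → f' s = f s := fun s hs => by rw [hf']; exact if_pos hs
  have hac : RelCocycle X Y (cobd f') := by
    refine ⟨fun s hs => ?_, fun s hs => cobd_cobd_four _ hs.2⟩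
    rw [cobd_congr hff hs, hf s hs]
  obtain ⟨m, b, hb0, hb⟩ := hspan _ hac
  have key : ∀ j, ∑ i, G j i • m i = 0 := by
    intro j
    have h1 := stokes_right (smulAddHom ℤ A) hc hz hzY (b := f') (hα j).2 (Or.inr (hα j).1)
    have h2 := stokes_right (smulAddHom ℤ A) hc hz hzY (b := b) (hα j).2 (Or.inl hb0)
    have h3 : cupG (smulAddHom ℤ A) c (α j) (cobd f')
        = cupG (smulAddHom ℤ A) c (α j) (fun s => cobd b s + ∑ i, α i s • m i) := by
      refine cupG_congr _ hc (fun s _ => rfl) fun s hs => ?_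
      rw [← hb s hs]
      exact (sub_add_cancel _ _).symm
    rw [h1, cupG_add_right, cupG_smul_comb] at h3
    have h4 : cupG (smulAddHom ℤ A) c (α j) (fun s => cobd b s) = 0 := h2
    rw [h4, zero_add] at h3
    rw [h3]
    exact Finset.sum_congr rfl fun i _ => by rw [hG]
  have hm0 : ∀ k, m k = 0 := by
    intro k
    have e : ∑ j, H k j • ∑ i, G j i • m i = m k := by
      calc ∑ j, H k j • ∑ i, G j i • m i = ∑ i, (H * G) k i • m i := by
            simp only [Finset.smul_sum, smul_smul, Matrix.mul_apply, Finset.sum_smul]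
            exact Finset.sum_comm
        _ = m k := by
            rw [hHG, Finset.sum_eq_single k]
            · rw [Matrix.one_apply_eq, one_smul]
            · intro i _ hik
              rw [Matrix.one_apply_ne (Ne.symm hik), zero_smul]
            · intro h
              exact absurd (Finset.mem_univ k) h
    rw [← e]
    exact Finset.sum_eq_zero fun j _ => by rw [key j, smul_zero]
  obtain ⟨g, hg⟩ := hcoh (fun s => f' s - b s) (fun s hs => by
    rw [cobd_sub8, ← hb s hs]
    have h0 : ∑ i, α i s • m i = 0 := Finset.sum_eq_zero fun i _ => by rw [hm0 i, smul_zero]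
    show cobd f' s - (cobd f' s - ∑ i, α i s • m i) = 0
    rw [h0, sub_zero, sub_self])
  refine ⟨g, fun s hs => ?_⟩
  rw [← hg s ⟨hYX s hs.1, hs.2⟩]
  show f s = f' s - b s
  rw [hff s hs, hb0 s hs, sub_zero]

end Boundary

end E8Genera
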