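import Pool.Agent.P8.Assem
import Pool.Agent.P8.Stokes8
import Pool.Agent.P8.Spin43
import Pool.Agent.P8.Uni16
import Pool.Agent.P8.Bdy8

/-!
Assembly: everything about one bounding from the spanning property for all coefficient groups.
-/

namespace E8Genera

/-- The spanning property of the relative cocycles `α`, for all coefficient groups. -/
def Spans {ι : Type} [Fintype ι] (X Y : Cpx) (α : ι → Finset ℕ → ℤ) : Prop :=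
  ∀ (A : Type) [AddCommGroup A] (a : Finset ℕ → A), RelCocycle X Y a →
    ∃ m : ι → A, RelCobdry X Y fun s => a s - ∑ i, α i s • m i

/-- The vanishing of the first cohomology for all coefficient groups. -/
def Coh1Vanishes (X : Cpx) : Prop :=
  ∀ (A : Type) [AddCommGroup A] (a : Finset ℕ → A), (∀ s, FaceDim X 2 s → cobd a s = 0) →
    ∃ g : Finset ℕ → A, ∀ s, FaceDim X 1 s → a s = cobd g s

section One

variable {ι : Type} [Fintype ι] {X Y : Cpx} {c z : Chain} {α : ι → Finset ℕ → ℤ}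
  {G : Matrix ι ι ℤ}

theorem hasForm_of (hO : IsOrientation 4 X c z) (hY : IsOrientation 3 Y z 0)
    (hα : ∀ i, RelCocycle X Y (α i)) (hG : ∀ i j, cupEval c (α i) (α j) = G i j)
    (hdef : IsDefinite G) (hsp : Spans X Y α) : HasForm X Y c G :=
  hasForm_of_definite hO.1 hO.2.2 hY.1 hα hG hdef fun a ha => hsp ℤ a ha

theorem isSpin_of (hO : IsOrientation 4 X c z) (hY : IsOrientation 3 Y z 0)
    (hα : ∀ i, RelCocycle X Y (α i)) (hG : ∀ i j, cupEval c (α i) (α j) = G i j)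
    (hsymm : ∀ i j, G i j = G j i) (heven : ∀ i, (2 : ℤ) ∣ G i i) (hsp : Spans X Y α) :
    IsSpin X Y c := by
  refine spin_of_even43 hO.1 ?_ ?_ α hα hG hsymm heven fun a ha => hsp (ZMod 2) a ha
  · intro a b ha hb
    rw [cupEval_eq]
    exact stokes_left _ hO.1 hO.2.2 hY.1 ha.2 (Or.inl hb)
  · intro a b ha hb
    rw [cupEval_eq]
    exact stokes_right _ hO.1 hO.2.2 hY.1 ha.2 (Or.inl hb)

end One

/-- The final statement from its parts. -/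
theorem final_of {X₁ X₂ Y : Cpx} {c₁ c₂ z : Chain}
    (hM₁ : IsManifold 4 X₁) (hM₂ : IsManifold 4 X₂) (hM : IsManifold 3 Y)
    (hB₁ : bdry X₁ = Y) (hB₂ : bdry X₂ = Y) (hB : bdry Y = ∅)
    (hO₁ : IsOrientation 4 X₁ c₁ z) (hO₂ : IsOrientation 4 X₂ c₂ z) (hO : IsOrientation 3 Y z 0)
    (h0₁ : HomologyVanishes X₁ 0) (h0₂ : HomologyVanishes X₂ 0) (h0 : HomologyVanishes Y 0)
    (hc₁ : Coh1Vanishes X₁) (hc₂ : Coh1Vanishes X₂)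
    {α₁ : Fin 8 → Finset ℕ → ℤ} {α₂ : Fin 24 → Finset ℕ → ℤ}
    (hα₁ : ∀ i, RelCocycle X₁ Y (α₁ i)) (hα₂ : ∀ i, RelCocycle X₂ Y (α₂ i))
    (hs₁ : Spans X₁ Y α₁) (hs₂ : Spans X₂ Y α₂)
    {G₁ : Matrix (Fin 8) (Fin 8) ℤ} {G₂ : Matrix (Fin 24) (Fin 24) ℤ}
    (hG₁ : ∀ i j, cupEval c₁ (α₁ i) (α₁ j) = G₁ i j)
    (hG₂ : ∀ i j, cupEval c₂ (α₂ i) (α₂ j) = G₂ i j)
    (hsym₁ : ∀ i j, G₁ i j = G₁ j i) (hsym₂ : ∀ i j, G₂ i j = G₂ j i)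
    (hev₁ : ∀ i, (2 : ℤ) ∣ G₁ i i) (hev₂ : ∀ i, (2 : ℤ) ∣ G₂ i i)
    (hd₁ : IsDefinite G₁) (hd₂ : IsDefinite G₂)
    {H : Matrix (Fin 8) (Fin 8) ℤ} (hH : H * G₁ = 1)
    (P Q : Matrix (Fin 8) (Fin 8) ℤ) (hPQ : P * Q = 1) (hQP : Q * P = 1)
    (hE : P * G₁ * P.transpose = CartanMatrix.E₈ ∨ P * G₁ * P.transpose = -CartanMatrix.E₈) :
    ∃ (Y : Cpx) (z : Chain), IsHomologySphere Y z ∧ E8Bounds Y z 1 ∧
      DefiniteSpinBounds Y z 1 ∧ DefiniteSpinBounds Y z 3 ∧ Answer Y z := by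
  have hX₁ : IsBounding X₁ c₁ Y z :=
    ⟨hM₁, hB₁, hO₁, h0₁, hv1_of_coh X₁ fun A _ a ha => hc₁ A a ha⟩
  have hX₂ : IsBounding X₂ c₂ Y z :=
    ⟨hM₂, hB₂, hO₂, h0₂, hv1_of_coh X₂ fun A _ a ha => hc₂ A a ha⟩
  have hY1 : HomologyVanishes Y 1 := by
    refine hv1_of_coh Y fun A _ f hf => ?_
    exact coh1_boundary hO₁.1 hO₁.2.2 hO.1 (fun s hs => face_of_bdry hB₁ hs) hα₁ hG₁ hH
      (fun a ha => hs₁ A a ha) (fun a ha => hc₁ A a ha) f hf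
  have hF₁ : HasForm X₁ Y c₁ G₁ := hasForm_of hO₁ hO hα₁ hG₁ hd₁ hs₁
  have hF₂ : HasForm X₂ Y c₂ G₂ := hasForm_of hO₂ hO hα₂ hG₂ hd₂ hs₂
  have hS₁ : IsSpin X₁ Y c₁ := isSpin_of hO₁ hO hα₁ hG₁ hsym₁ hev₁ hs₁
  have hS₂ : IsSpin X₂ Y c₂ := isSpin_of hO₂ hO hα₂ hG₂ hsym₂ hev₂ hs₂
  have hD₁ : DefiniteSpinBounds Y z 1 := ⟨X₁, c₁, G₁, hX₁, hS₁, hF₁, hd₁⟩
  have hD₃ : DefiniteSpinBounds Y z 3 := ⟨X₂, c₂, G₂, hX₂, hS₂, hF₂, hd₂⟩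
  exact ⟨Y, z, ⟨hM, hB, hO, h0, hY1⟩, e8Bounds_one hX₁ hS₁ hF₁ P Q hPQ hQP hE, hD₁, hD₃,
    answer_of Y z hD₁ hD₃⟩

end E8Genera
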