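import Pool.Agent.P8.Code

/-!
Search trees and list loops, written with recursors so that the kernel evaluates them quickly.
-/

namespace E8Genera

/-- Share a value in kernel evaluation. -/
noncomputable def force16 {γ : Type} (x : ℕ) (k : ℕ → γ) : γ :=
  Nat.rec (motive := fun _ => γ) (k 0) (fun n _ => k (Nat.succ n)) x

theorem force_eq16 {γ : Type} (x : ℕ) (k : ℕ → γ) : force16 x k = k x := by
  cases x <;> rfl

/-- Conjunction, evaluated from the left. -/
noncomputable def band16 (a b : Bool) : Bool := Bool.rec (motive := fun _ => Bool) false b a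

theorem band_iff16 {a b : Bool} : band16 a b = true ↔ a = true ∧ b = true := by
  cases a <;> cases b <;> simp [band16]

/-- Disjunction, evaluated from the left. -/
noncomputable def bor16 (a b : Bool) : Bool := Bool.rec (motive := fun _ => Bool) b true a

theorem bor_iff16 {a b : Bool} : bor16 a b = true ↔ a = true ∨ b = true := by
  cases a <;> cases b <;> simp [bor16]

/-- All elements of a list satisfy `p`. -/
noncomputable def lall16 {β : Type} (p : β → Bool) (l : List β) : Bool :=
  List.rec (motive := fun _ => Bool) true (fun a _ ih => band16 (p a) ih) l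

theorem lall_iff16 {β : Type} {p : β → Bool} {l : List β} :
    lall16 p l = true ↔ ∀ x ∈ l, p x = true := by
  induction l with
  | nil => simp [lall16]
  | cons a l ih =>
    have : lall16 p (a :: l) = band16 (p a) (lall16 p l) := rfl
    rw [this, band_iff16, ih]
    simp

/-- Some element of a list satisfies `p`. -/
noncomputable def lany16 {β : Type} (p : β → Bool) (l : List β) : Bool :=
  List.rec (motive := fun _ => Bool) false (fun a _ ih => bor16 (p a) ih) l

theorem lany_iff16 {β : Type} {p : β → Bool} {l : List β} :
    lany16 p l = true ↔ ∃ x ∈ l, p x = true := by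
  induction l with
  | nil => simp [lany16]
  | cons a l ih =>
    have : lany16 p (a :: l) = bor16 (p a) (lany16 p l) := rfl
    rw [this, bor_iff16, ih]
    simp

/-- A bounded loop. -/
noncomputable def nall16 (p : ℕ → Bool) (n : ℕ) : Bool :=
  Nat.rec (motive := fun _ => Bool) true (fun i ih => band16 (p i) ih) n

theorem nall_iff16 {p : ℕ → Bool} {n : ℕ} : nall16 p n = true ↔ ∀ i < n, p i = true := by
  induction n with
  | zero => simp [nall16]
  | succ n ih =>
    have : nall16 p (n + 1) = band16 (p n) (nall16 p n) := rfl
    rw [this, band_iff16, ih]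
    constructor
    · rintro ⟨h1, h2⟩ i hi
      rcases Nat.lt_succ_iff_lt_or_eq.1 hi with h | rfl
      · exact h2 i h
      · exact h1
    · intro h
      exact ⟨h n (Nat.lt_succ_self n), fun i hi => h i (Nat.lt_succ_of_lt hi)⟩

/-- Binary trees with keys. -/
inductive Tr16 (β : Type) where
  | l : Tr16 β
  | n : Tr16 β → ℕ → β → Tr16 β → Tr16 β

/-- Search. -/
noncomputable def Tr16.get {β γ : Type} (d : γ) (f : β → γ) (t : Tr16 β) (x : ℕ) : γ :=
  Tr16.rec (motive := fun _ => γ) d
    (fun _ k v _ ia ib => Bool.rec (motive := fun _ => γ)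
      (Bool.rec (motive := fun _ => γ) ib (f v) (Nat.beq x k)) ia (Nat.blt x k)) t

/-- All nodes satisfy `p`. -/
noncomputable def Tr16.all {β : Type} (p : ℕ → β → Bool) (t : Tr16 β) : Bool :=
  Tr16.rec (motive := fun _ => Bool) true
    (fun _ k v _ ia ib => band16 (p k v) (band16 ia ib)) t

/-- `(k, v)` is a node. -/
inductive Tr16.Mem {β : Type} (k : ℕ) (v : β) : Tr16 β → Prop where
  | here (a b : Tr16 β) : Tr16.Mem k v (Tr16.n a k v b)
  | left (a b : Tr16 β) (k' : ℕ) (v' : β) : Tr16.Mem k v a → Tr16.Mem k v (Tr16.n a k' v' b)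
  | right (a b : Tr16 β) (k' : ℕ) (v' : β) : Tr16.Mem k v b → Tr16.Mem k v (Tr16.n a k' v' b)

theorem Tr16.get_cases {β γ : Type} (d : γ) (f : β → γ) (t : Tr16 β) (x : ℕ) :
    t.get d f x = d ∨ ∃ v, Tr16.Mem x v t ∧ t.get d f x = f v := by
  induction t with
  | l => left; rfl
  | n a k v b iha ihb =>
    have e : (Tr16.n a k v b).get d f x = Bool.rec (motive := fun _ => γ)
      (Bool.rec (motive := fun _ => γ) (b.get d f x) (f v) (Nat.beq x k)) (a.get d f x)
        (Nat.blt x k) := rfl
    rw [e]
    cases h1 : Nat.blt x k with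
    | true =>
      rcases iha with h | ⟨w, hw, hw'⟩
      · left; exact h
      · right; exact ⟨w, Tr16.Mem.left _ _ _ _ hw, hw'⟩
    | false =>
      cases h2 : Nat.beq x k with
      | true =>
        right
        have : x = k := Nat.eq_of_beq_eq_true h2
        subst this
        exact ⟨v, Tr16.Mem.here _ _, rfl⟩
      | false =>
        rcases ihb with h | ⟨w, hw, hw'⟩
        · left; exact h
        · right; exact ⟨w, Tr16.Mem.right _ _ _ _ hw, hw'⟩

theorem Tr16.all_iff {β : Type} {p : ℕ → β → Bool} {t : Tr16 β} :
    t.all p = true ↔ ∀ k v, Tr16.Mem k v t → p k v = true := by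
  induction t with
  | l =>
    constructor
    · intro _ k v h
      cases h
    · intro _
      rfl
  | n a k v b iha ihb =>
    have e : (Tr16.n a k v b).all p = band16 (p k v) (band16 (a.all p) (b.all p)) := rfl
    rw [e, band_iff16, band_iff16, iha, ihb]
    constructor
    · rintro ⟨h1, h2, h3⟩ k' v' h
      cases h with
      | here => exact h1
      | left _ _ _ _ h => exact h2 _ _ h
      | right _ _ _ _ h => exact h3 _ _ h
    · intro h
      exact ⟨h _ _ (Tr16.Mem.here _ _), fun k' v' h' => h _ _ (Tr16.Mem.left _ _ _ _ h'),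
        fun k' v' h' => h _ _ (Tr16.Mem.right _ _ _ _ h')⟩

/-- Equality of lists of naturals. -/
noncomputable def leq16 (l m : List ℕ) : Bool :=
  List.rec (motive := fun _ => List ℕ → Bool)
    (fun m => List.rec (motive := fun _ => Bool) true (fun _ _ _ => false) m)
    (fun a _ ih m => List.rec (motive := fun _ => Bool) false
      (fun b m' _ => band16 (Nat.beq a b) (ih m')) m) l m

theorem leq_iff16 {l m : List ℕ} : leq16 l m = true → l = m := by
  induction l generalizing m with
  | nil =>
    cases m with
    | nil => intro _; rfl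
    | cons b m => intro h; exact absurd (show false = true from h) Bool.false_ne_true
  | cons a l ih =>
    cases m with
    | nil => intro h; exact absurd (show false = true from h) Bool.false_ne_true
    | cons b m =>
      intro h
      have e : leq16 (a :: l) (b :: m) = band16 (Nat.beq a b) (leq16 l m) := rfl
      rw [e, band_iff16] at h
      rw [Nat.eq_of_beq_eq_true h.1, ih h.2]

/-- The keys of a tree, in front of a list. -/
noncomputable def Tr16.keys {β : Type} (t : Tr16 β) (acc : List ℕ) : List ℕ :=
  Tr16.rec (motive := fun _ => List ℕ → List ℕ) (fun acc => acc)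
    (fun _ k _ _ ia ib acc => ia (k :: ib acc)) t acc

theorem Tr16.mem_keys {β : Type} {k : ℕ} {v : β} {t : Tr16 β} (h : Tr16.Mem k v t)
    (acc : List ℕ) : k ∈ t.keys acc := by
  have mono : ∀ (t : Tr16 β) (acc : List ℕ), ∀ x ∈ acc, x ∈ t.keys acc := by
    intro t
    induction t with
    | l => intro acc x hx; exact hx
    | n a k v b iha ihb =>
      intro acc x hx
      exact iha _ x (List.mem_cons_of_mem _ (ihb _ x hx))
  induction h generalizing acc with
  | here a b => exact mono a _ _ (List.mem_cons_self)
  | left a b k' v' _ ih => exact ih _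
  | right a b k' v' _ ih => exact mono a _ _ (List.mem_cons_of_mem _ (ih _))

/-- Membership of a key. -/
noncomputable def Tr16.has {β : Type} (t : Tr16 β) (x : ℕ) : Bool :=
  t.get false (fun _ => true) x

theorem Tr16.mem_of_has {β : Type} {t : Tr16 β} {x : ℕ} {L : List ℕ}
    (hL : leq16 (t.keys []) L = true) (h : t.has x = true) : x ∈ L := by
  rw [← leq_iff16 hL]
  rcases t.get_cases false (fun _ => true) x with h1 | ⟨v, hv, _⟩
  · unfold Tr16.has at h
    rw [h1] at h
    exact absurd h Bool.false_ne_true
  · exact Tr16.mem_keys hv []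

end E8Genera
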